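import Pool.Agent.Q172.Diff.Z3
import Pool.Agent.Q97.SS.Fin

/-! Normalised sums over pairs of ordinates. -/

set_option autoImplicit false

open Filter Topology Set MeasureTheory
open scoped ContDiff

namespace Q172.Diff

open SG (ord NZ)
open H177.Lat (yy KK KK_sq ee ee_norm ee_add ee_re ee_conj)
open Pool.Agent.Q276.LR (TS cauchy_sum TS_sq)
open Pool.Agent.Y744 (Xf Xf_pos TK ct Q2 NTf mont_lim ct_eq_r Zt mz Aa Aa_mono dd Aa_diag PC)
open Pool.Agent.Y750.OM (bl)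
open Pool.Agent.Q276.NV (GG GG_smooth GG_nonneg GG_sq GG_int bl_GG ch ch_smooth ch_nonneg ch_le_one
  ch_one ch_zero int_TS bl_smooth Q2_conv exp_sum end_count logpow_lim double_conv0)
open Q97.SS (kr CS cauchy_bound pd_scale)

/-- the normalised sum over the pairs -/
noncomputable def Pk (k : ℝ → ℝ) (T : ℝ) : ℝ :=
  (Xf T)⁻¹ * ∑ n ∈ Finset.Ioc 0 (NZ T), ∑ m ∈ Finset.Ioc 0 (NZ T), k (yy T n - yy T m)

lemma Pk_mono {k k' : ℝ → ℝ} (h : ∀ x, k x ≤ k' x) {T : ℝ} (hT : 1 < T) : Pk k T ≤ Pk k' T := by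
  unfold Pk
  refine mul_le_mul_of_nonneg_left ?_ (inv_nonneg.2 (Xf_pos hT).le)
  exact Finset.sum_le_sum fun n _ => Finset.sum_le_sum fun m _ => h _

lemma Pk_add (k k' : ℝ → ℝ) (T : ℝ) : Pk (fun x => k x + k' x) T = Pk k T + Pk k' T := by
  unfold Pk
  rw [← mul_add, ← Finset.sum_add_distrib]
  congr 1
  refine Finset.sum_congr rfl fun n _ => ?_
  rw [← Finset.sum_add_distrib]

lemma Pk_sub (k k' : ℝ → ℝ) (T : ℝ) : Pk (fun x => k x - k' x) T = Pk k T - Pk k' T := by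
  unfold Pk
  rw [← mul_sub, ← Finset.sum_sub_distrib]
  congr 1
  refine Finset.sum_congr rfl fun n _ => ?_
  rw [← Finset.sum_sub_distrib]

lemma Pk_mul (c : ℝ) (k : ℝ → ℝ) (T : ℝ) : Pk (fun x => c * k x) T = c * Pk k T := by
  unfold Pk
  simp_rw [← Finset.mul_sum]
  ring

lemma Pk_abs (k : ℝ → ℝ) {T : ℝ} (hT : 1 < T) : |Pk k T| ≤ Pk (fun x => |k x|) T := by
  unfold Pk
  rw [abs_mul, abs_of_nonneg (inv_nonneg.2 (Xf_pos hT).le)]
  refine mul_le_mul_of_nonneg_left ?_ (inv_nonneg.2 (Xf_pos hT).le)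
  refine (Finset.abs_sum_le_sum_abs _ _).trans (Finset.sum_le_sum fun n _ => ?_)
  exact Finset.abs_sum_le_sum_abs _ _

lemma Pk_Zt (k : ℝ → ℝ) (T : ℝ) :
    (Xf T)⁻¹ * ∑ s ∈ Zt T, ∑ s' ∈ Zt T, mz s * mz s' * k (dd T s s') = Pk k T := by
  unfold Pk
  congr 1
  have h := double_conv0 T (fun x x' => k ((x - x') * Real.log T / (2 * Real.pi)))
  unfold dd
  rw [h]
  refine Finset.sum_congr rfl fun n _ => Finset.sum_congr rfl fun m _ => ?_
  congr 1
  unfold yy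
  ring

lemma Pk_CS (T a : ℝ) : CS T a = Pk (kr a) T := Pk_Zt (kr a) T

lemma Pk_Q2 (r : ℝ → ℝ) (T : ℝ) : Q2 (bl r) T (Real.log T) / Xf T = Pk (bl r) T := by
  rw [Q2_conv, div_eq_inv_mul]
  rfl

/-- the cauchy kernel -/
noncomputable def c1 (x : ℝ) : ℝ := 1 / (1 + x ^ 2)

lemma Pk_c1 : ∃ C0 T0 : ℝ, 0 ≤ C0 ∧ 20 ≤ T0 ∧ ∀ T : ℝ, T0 ≤ T → Pk c1 T ≤ C0 := by
  obtain ⟨C0, T0, hC0, hT0, h⟩ := cauchy_bound
  refine ⟨C0, T0, hC0, hT0, fun T hT => ?_⟩
  have hX := Xf_pos (V := T) (by linarith)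
  rw [← Pk_Zt, inv_mul_le_iff₀ hX]
  have := h T hT
  unfold c1
  linarith

lemma Pk_scale {y : ℝ} (hy : 1 ≤ y) {T : ℝ} (hT : 1 < T) :
    Pk (fun x => 1 / (y ^ 2 + x ^ 2)) T ≤ 1 / y * Pk c1 T := by
  have hy0 : 0 < y := by linarith
  have h := pd_scale (Finset.Ioc 0 (NZ T)) (fun _ => 1) (yy T) hy
  simp only [one_mul] at h
  have hX := Xf_pos hT
  unfold Pk c1
  have e : ∑ n ∈ Finset.Ioc 0 (NZ T), ∑ m ∈ Finset.Ioc 0 (NZ T), 1 / (y ^ 2 + (yy T n - yy T m) ^ 2) =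
      1 / y ^ 2 * ∑ n ∈ Finset.Ioc 0 (NZ T), ∑ m ∈ Finset.Ioc 0 (NZ T),
        y ^ 2 / (y ^ 2 + (yy T n - yy T m) ^ 2) := by
    rw [Finset.mul_sum]
    refine Finset.sum_congr rfl fun n _ => ?_
    rw [Finset.mul_sum]
    refine Finset.sum_congr rfl fun m _ => ?_
    have : 0 < y ^ 2 + (yy T n - yy T m) ^ 2 := by positivity
    field_simp
  rw [e]
  have h2 := mul_le_mul_of_nonneg_left h (by positivity : 0 ≤ (Xf T)⁻¹ * (1 / y ^ 2))
  rw [← mul_assoc]
  refine h2.trans (le_of_eq ?_)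
  field_simp

/-- the smoothing kernel at frequency `θ` -/
noncomputable def gθ (θ L x : ℝ) : ℝ := Real.cos (2 * Real.pi * θ * x) * max 0 (L - |x|)

/-- the smoothed form factor -/
noncomputable def Gf (T L θ : ℝ) : ℝ := Pk (gθ θ L) T / L

lemma TTθ_Pk (θ T L : ℝ) : TTθ θ T L / Xf T = Pk (gθ θ L) T := by
  unfold TTθ Pk gθ
  rw [div_eq_inv_mul]

lemma Gf_even (T L θ : ℝ) : Gf T L (-θ) = Gf T L θ := by
  have : gθ (-θ) L = gθ θ L := by
    funext x
    unfold gθ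
    rw [show 2 * Real.pi * (-θ) * x = -(2 * Real.pi * θ * x) by ring, Real.cos_neg]
  unfold Gf
  rw [this]

lemma Gf_abs (T L θ : ℝ) : Gf T L |θ| = Gf T L θ := by
  rcases abs_choice θ with h | h
  · rw [h]
  · rw [h, Gf_even]

lemma Gf_nonneg {T L : ℝ} (hT : 1 < T) (hL : 0 < L) (θ : ℝ) : 0 ≤ Gf T L θ := by
  obtain ⟨i1, e1⟩ := int_TS (sym_int (GG_int hL) θ) (Finset.Ioc 0 (NZ T)) (yy T)
  have e2 : ∑ n ∈ Finset.Ioc 0 (NZ T), ∑ m ∈ Finset.Ioc 0 (NZ T), bl (sym (GG L) θ) (yy T n - yy T m) =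
      ∑ n ∈ Finset.Ioc 0 (NZ T), ∑ m ∈ Finset.Ioc 0 (NZ T), gθ θ L (yy T n - yy T m) := by
    refine Finset.sum_congr rfl fun n _ => Finset.sum_congr rfl fun m _ => ?_
    rw [bl_sym (GG_int hL), bl_GG hL]
    rfl
  unfold Gf Pk
  rw [← e2, ← e1]
  have hX := Xf_pos hT
  have h3 : 0 ≤ ∫ α, sym (GG L) θ α * ‖TS (Finset.Ioc 0 (NZ T)) (yy T) α‖ ^ 2 := by
    refine integral_nonneg fun α => mul_nonneg ?_ (by positivity)
    unfold sym
    have := GG_nonneg L (α - θ)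
    have := GG_nonneg L (α + θ)
    positivity
  positivity

lemma Gf_cont (T L : ℝ) : Continuous (Gf T L) := by
  unfold Gf Pk gθ
  fun_prop

/-- the smoothed sum as an integral over the frequencies -/
lemma Pk_smooth {h : ℝ → ℝ} (hh : Integrable h) (L T : ℝ) :
    Integrable (fun θ => h θ * Gf T L θ) ∧
    ∫ θ, h θ * Gf T L θ = Pk (fun x => bl h x * (max 0 (L - |x|) / L)) T := by
  have hc : ∀ x : ℝ, Integrable (fun θ => h θ * Real.cos (2 * Real.pi * θ * x)) := fun x =>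
    hh.mul_bdd (c := 1) (by fun_prop) (Eventually.of_forall fun α => by
      rw [Real.norm_eq_abs]; exact Real.abs_cos_le_one _)
  have e : (fun θ => h θ * Gf T L θ) = fun θ => (Xf T)⁻¹ * ∑ n ∈ Finset.Ioc 0 (NZ T),
      ∑ m ∈ Finset.Ioc 0 (NZ T), (h θ * Real.cos (2 * Real.pi * θ * (yy T n - yy T m))) *
        (max 0 (L - |yy T n - yy T m|) / L) := by
    funext θ
    unfold Gf Pk gθ
    rw [mul_div_assoc, ← mul_assoc, mul_comm (h θ), mul_assoc]
    congr 1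
    rw [Finset.sum_div, Finset.mul_sum]
    refine Finset.sum_congr rfl fun n _ => ?_
    rw [Finset.sum_div, Finset.mul_sum]
    refine Finset.sum_congr rfl fun m _ => ?_
    ring
  rw [e]
  have i2 : ∀ n ∈ Finset.Ioc 0 (NZ T), Integrable (fun θ => ∑ m ∈ Finset.Ioc 0 (NZ T),
      (h θ * Real.cos (2 * Real.pi * θ * (yy T n - yy T m))) *
        (max 0 (L - |yy T n - yy T m|) / L)) := fun n _ =>
    integrable_finsetSum _ fun m _ => (hc _).mul_const _
  refine ⟨(integrable_finsetSum _ i2).const_mul _, ?_⟩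
  rw [integral_const_mul, integral_finsetSum _ i2]
  unfold Pk
  congr 1
  refine Finset.sum_congr rfl fun n _ => ?_
  rw [integral_finsetSum _ fun m _ => (hc _).mul_const _]
  refine Finset.sum_congr rfl fun m _ => ?_
  rw [integral_mul_const]
  rfl

/-- the error of the smoothing -/
lemma smooth_err {k : ℝ → ℝ} {A : ℝ} (hA : 0 ≤ A) (hk : ∀ x, |k x| ≤ A * c1 x) {L : ℝ} (hL : 1 ≤ L)
    {T : ℝ} (hT : 1 < T) :
    |Pk k T - Pk (fun x => k x * (max 0 (L - |x|) / L)) T| ≤ 3 * A / √L * Pk c1 T := by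
  have hL0 : 0 < L := by linarith
  have hs : 0 < √L := Real.sqrt_pos.2 hL0
  have hs1 : 1 ≤ √L := Real.one_le_sqrt.2 hL
  have hss : √L ^ 2 = L := Real.sq_sqrt hL0.le
  rw [← Pk_sub]
  refine (Pk_abs _ hT).trans ?_
  have hpt : ∀ x, |k x - k x * (max 0 (L - |x|) / L)| ≤
      A / √L * c1 x + 2 * A * (1 / (√L ^ 2 + x ^ 2)) := by
    intro x
    have hx := abs_nonneg x
    have e1 : k x - k x * (max 0 (L - |x|) / L) = k x * (1 - max 0 (L - |x|) / L) := by ring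
    have e2 : 0 ≤ 1 - max 0 (L - |x|) / L := by
      rw [sub_nonneg, div_le_one hL0]
      exact max_le hL0.le (by linarith)
    have e3 : 1 - max 0 (L - |x|) / L ≤ 1 := by
      have : 0 ≤ max 0 (L - |x|) / L := by positivity
      linarith
    have e4 : 1 - max 0 (L - |x|) / L ≤ |x| / L := by
      rw [sub_le_iff_le_add, ← add_div, le_div_iff₀ hL0, one_mul]
      linarith [le_max_right 0 (L - |x|)]
    have hc0 : 0 ≤ c1 x := by unfold c1; positivity
    rw [e1, abs_mul, abs_of_nonneg e2]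
    rcases le_or_gt |x| (√L) with h | h
    · have h1 : |x| / L ≤ 1 / √L := by
        rw [div_le_div_iff₀ hL0 hs, one_mul]
        calc |x| * √L ≤ √L * √L := mul_le_mul_of_nonneg_right h hs.le
          _ = L := Real.mul_self_sqrt hL0.le
      calc |k x| * (1 - max 0 (L - |x|) / L) ≤ (A * c1 x) * (1 / √L) :=
            mul_le_mul (hk x) (e4.trans h1) e2 (by positivity)
        _ = A / √L * c1 x := by ring
        _ ≤ _ := by
          have : 0 ≤ 2 * A * (1 / (√L ^ 2 + x ^ 2)) := by positivity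
          linarith
    · have h1 : L ≤ x ^ 2 := by
        rw [← hss, ← sq_abs x]
        exact pow_le_pow_left₀ hs.le h.le 2
      have h2 : c1 x ≤ 2 * (1 / (√L ^ 2 + x ^ 2)) := by
        unfold c1
        rw [mul_one_div, hss, div_le_div_iff₀ (by positivity) (by positivity)]
        linarith
      calc |k x| * (1 - max 0 (L - |x|) / L) ≤ (A * c1 x) * 1 :=
            mul_le_mul (hk x) e3 e2 (by positivity)
        _ ≤ A * (2 * (1 / (√L ^ 2 + x ^ 2))) := by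
            rw [mul_one]; exact mul_le_mul_of_nonneg_left h2 hA
        _ = 2 * A * (1 / (√L ^ 2 + x ^ 2)) := by ring
        _ ≤ _ := by
          have : 0 ≤ A / √L * c1 x := by positivity
          linarith
  refine (Pk_mono hpt hT).trans ?_
  rw [Pk_add, Pk_mul, Pk_mul]
  have h3 := mul_le_mul_of_nonneg_left (Pk_scale hs1 hT) (by positivity : 0 ≤ 2 * A)
  have e : 3 * A / √L * Pk c1 T = A / √L * Pk c1 T + 2 * A * (1 / √L * Pk c1 T) := by ring
  rw [e]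
  linarith

end Q172.Diff
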