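import Pool.Agent.Q172.Diff.E1

/-! One-sided bounds for the smoothed form factor imply the pair correlation conjecture. -/

set_option autoImplicit false

open Filter Topology Set MeasureTheory
open scoped ContDiff

namespace Q172.Diff

open SG (ord NZ)
open H177.Lat (yy KK KK_sq ee ee_norm ee_add ee_re ee_conj)
open Pool.Agent.Q276.LR (TS cauchy_sum TS_sq)
open Pool.Agent.Y744 (Xf Xf_pos TK ct Q2 NTf mont_lim ct_eq_r Zt mz Aa Aa_mono dd Aa_diag PC mz_nonneg)
open Pool.Agent.Y750.OM (bl)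
open Pool.Agent.Y749.Rig (tr)
open Pool.Agent.Q276.NV (GG GG_smooth GG_nonneg GG_sq GG_int bl_GG ch ch_smooth ch_nonneg ch_le_one
  ch_one ch_zero int_TS bl_smooth Q2_conv exp_sum end_count logpow_lim double_conv0 BlkE_of)
open Q97.SS (kr CS cauchy_bound pd_scale exp_cos exp_abs_int tri_exp pv)
open Q241.OP (OT mo BlkE pair_up)

/-- the exponential weight -/
noncomputable def ex (a θ : ℝ) : ℝ := Real.exp (-(a * |θ|))

lemma ex_int {a : ℝ} (ha : 0 < a) : Integrable (ex a) := exp_abs_int ha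

lemma ex_pos (a θ : ℝ) : 0 < ex a θ := Real.exp_pos _

lemma bl_ex {a : ℝ} (ha : 0 < a) (x : ℝ) : bl (ex a) x = kr a x := by
  rw [← exp_cos ha x]
  unfold bl ex
  congr 1
  funext α
  congr 2
  ring

lemma kr_pos {a : ℝ} (ha : 0 < a) (x : ℝ) : 0 < kr a x := by
  unfold kr
  positivity

lemma kr_le {a : ℝ} (ha : 0 < a) (x : ℝ) : kr a x ≤ (2 / a + 2 * a) * c1 x := by
  unfold kr c1
  rw [mul_one_div, div_le_div_iff₀ (by positivity) (by positivity)]
  have hpi := Real.pi_gt_three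
  have e : (2 / a + 2 * a) * (a ^ 2 + 4 * Real.pi ^ 2 * x ^ 2) =
    2 * a * (1 + x ^ 2) + 2 * a ^ 3 + 2 * a * (4 * Real.pi ^ 2 - 1) * x ^ 2 +
      8 * Real.pi ^ 2 * x ^ 2 / a := by
    field_simp
    ring
  rw [e]
  have h1 : 0 ≤ 4 * Real.pi ^ 2 - 1 := by nlinarith
  have h2 : 0 ≤ 2 * a * (4 * Real.pi ^ 2 - 1) * x ^ 2 := by positivity
  have h3 : 0 ≤ 8 * Real.pi ^ 2 * x ^ 2 / a := by positivity
  have h4 : 0 ≤ 2 * a ^ 3 := by positivity
  linarith

/-- a bound for the sums of the kernels -/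
lemma CS_bdd {a C0 T : ℝ} (ha : 0 < a) (hT : 1 < T) (h : Pk c1 T ≤ C0) :
    Pk (kr a) T ≤ (2 / a + 2 * a) * C0 := by
  refine (Pk_mono (kr_le ha) hT).trans ?_
  rw [Pk_mul]
  exact mul_le_mul_of_nonneg_left h (by positivity)

/-- the one-sided hypothesis -/
def Hup : Prop := ∀ a b : ℝ, 0 < a → a < b → ∀ ε : ℝ, 0 < ε → ∀ L0 : ℝ, ∃ L : ℝ, L0 ≤ L ∧
  ∀ᶠ T : ℝ in atTop, ∀ θ ∈ Icc a b, Gf T L θ ≤ min 1 θ + ε

lemma min_abs_int {h : ℝ → ℝ} (hh : Integrable h) : Integrable (fun θ => h θ * min 1 |θ|) := by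
  refine hh.mul_bdd (c := 1) (by fun_prop) (Eventually.of_forall fun θ => ?_)
  rw [Real.norm_eq_abs, abs_of_nonneg (le_min zero_le_one (abs_nonneg _))]
  exact min_le_left _ _

theorem claim1 (H : Hup) {h : ℝ → ℝ} (hh : Integrable h) (h0 : ∀ θ, 0 ≤ h θ) {K c A : ℝ} (hc : 0 < c)
    (hK : 0 ≤ K) (hK1 : ∀ θ, h θ ≤ K * |θ|) (hK2 : ∀ θ, h θ ≤ K * Real.exp (-(2 * c * |θ|)))
    (hA : 0 ≤ A) (hA1 : ∀ x, |bl h x| ≤ A * c1 x) {ε : ℝ} (hε : 0 < ε) :
    ∀ᶠ T in atTop, Pk (bl h) T ≤ (∫ θ, h θ * min 1 |θ|) + ε := by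
  obtain ⟨C0, T0, hC0, hT0, hP⟩ := Pk_c1
  set I := ∫ θ, h θ with hI
  have hI0 : 0 ≤ I := integral_nonneg h0
  set B := (2 / c + 2 * c) * C0 with hB
  have hB0 : 0 ≤ B := by positivity
  set η := ε / (4 * (B + 1)) with hη
  have hη0 : 0 < η := by positivity
  have hηB : η * B ≤ ε / 4 := by
    have : η * (B + 1) = ε / 4 := by rw [hη]; field_simp
    nlinarith
  set ε1 := ε / (4 * (I + 1)) with hε1
  have hε10 : 0 < ε1 := by positivity
  have hε1I : ε1 * I ≤ ε / 4 := by
    have : ε1 * (I + 1) = ε / 4 := by rw [hε1]; field_simp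
    nlinarith
  -- near zero
  set δ := min 1 (η / ((K + 1) * Real.exp c)) with hδ
  have hδ0 : 0 < δ := lt_min one_pos (by positivity)
  have hnear : ∀ θ, |θ| ≤ δ → h θ ≤ η * Real.exp (-(c * |θ|)) := by
    intro θ hθ
    have h1 : |θ| ≤ 1 := hθ.trans (min_le_left _ _)
    have h2 : |θ| ≤ η / ((K + 1) * Real.exp c) := hθ.trans (min_le_right _ _)
    have h3 : Real.exp (-c) ≤ Real.exp (-(c * |θ|)) := by
      apply Real.exp_le_exp.2
      nlinarith
    have h4 : K * |θ| ≤ η * Real.exp (-c) := by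
      rw [le_div_iff₀ (by positivity)] at h2
      rw [Real.exp_neg, ← div_eq_mul_inv, le_div_iff₀ (Real.exp_pos _)]
      have : K * |θ| * Real.exp c ≤ |θ| * ((K + 1) * Real.exp c) := by
        have := abs_nonneg θ
        have := Real.exp_pos c
        have h5 : 0 ≤ |θ| * Real.exp c := by positivity
        linarith
      linarith
    exact (hK1 θ).trans (h4.trans (mul_le_mul_of_nonneg_left h3 hη0.le))
  -- far
  obtain ⟨R, hR1, hR2⟩ : ∃ R : ℝ, δ < R ∧ K * Real.exp (-(c * R)) ≤ η := by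
    have h1 : Tendsto (fun R : ℝ => K * Real.exp (-(c * R))) atTop (𝓝 (K * 0)) := by
      refine Tendsto.const_mul _ (Real.tendsto_exp_neg_atTop_nhds_zero.comp ?_)
      exact tendsto_id.const_mul_atTop hc
    rw [mul_zero] at h1
    obtain ⟨R, h2, h3⟩ := (((tendsto_order.1 h1).2 η hη0).and (eventually_gt_atTop δ)).exists
    exact ⟨R, h3, h2.le⟩
  have hfar : ∀ θ, R ≤ |θ| → h θ ≤ η * Real.exp (-(c * |θ|)) := by
    intro θ hθ
    refine (hK2 θ).trans ?_
    have e : Real.exp (-(2 * c * |θ|)) = Real.exp (-(c * |θ|)) * Real.exp (-(c * |θ|)) := by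
      rw [← Real.exp_add]; congr 1; ring
    have h3 : Real.exp (-(c * |θ|)) ≤ Real.exp (-(c * R)) := by
      apply Real.exp_le_exp.2
      nlinarith
    have h4 : K * Real.exp (-(c * |θ|)) ≤ η :=
      (mul_le_mul_of_nonneg_left h3 hK).trans hR2
    calc K * Real.exp (-(2 * c * |θ|)) = (K * Real.exp (-(c * |θ|))) * Real.exp (-(c * |θ|)) := by
          rw [e]; ring
      _ ≤ η * Real.exp (-(c * |θ|)) := mul_le_mul_of_nonneg_right h4 (Real.exp_pos _).le
  -- choice of `L`
  obtain ⟨L, hL1, hL2⟩ := H δ R hδ0 hR1 ε1 hε10 (max 1 ((12 * A * C0 / ε) ^ 2))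
  have hL : 1 ≤ L := (le_max_left _ _).trans hL1
  have hL0 : 0 < L := by linarith
  have hs : 0 < √L := Real.sqrt_pos.2 hL0
  have hLe : 3 * A / √L * C0 ≤ ε / 4 := by
    have h1 : 12 * A * C0 / ε ≤ √L := Real.le_sqrt_of_sq_le ((le_max_right _ _).trans hL1)
    rw [div_le_iff₀ hε] at h1
    rw [div_mul_eq_mul_div, div_le_iff₀ hs]
    linarith
  filter_upwards [hL2, eventually_ge_atTop T0] with T hT1 hT2
  have hT : 1 < T := by linarith
  have hP1 := hP T hT2
  obtain ⟨i1, e1⟩ := Pk_smooth hh L T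
  obtain ⟨i2, e2⟩ := Pk_smooth (ex_int hc) L T
  have i3 := min_abs_int hh
  have hpt : ∀ θ, h θ * Gf T L θ ≤ h θ * min 1 |θ| + ε1 * h θ + η * (ex c θ * Gf T L θ) := by
    intro θ
    have g0 := Gf_nonneg hT hL0 θ
    have m0 : 0 ≤ h θ * min 1 |θ| := mul_nonneg (h0 θ) (le_min zero_le_one (abs_nonneg _))
    have m1 : 0 ≤ ε1 * h θ := mul_nonneg hε10.le (h0 θ)
    have m2 : 0 ≤ η * (ex c θ * Gf T L θ) := mul_nonneg hη0.le (mul_nonneg (ex_pos _ _).le g0)
    rcases le_or_gt |θ| δ with h1 | h1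
    · have := mul_le_mul_of_nonneg_right (hnear θ h1) g0
      unfold ex at m2 ⊢
      linarith
    rcases le_or_gt R |θ| with h2 | h2
    · have := mul_le_mul_of_nonneg_right (hfar θ h2) g0
      unfold ex at m2 ⊢
      linarith
    · have h3 := hT1 |θ| ⟨h1.le, h2.le⟩
      rw [Gf_abs] at h3
      have := mul_le_mul_of_nonneg_left h3 (h0 θ)
      linarith
  have h5 : ∫ θ, h θ * Gf T L θ ≤ (∫ θ, h θ * min 1 |θ|) + ε1 * I +
      η * ∫ θ, ex c θ * Gf T L θ := by
    have i4 : Integrable (fun θ => h θ * min 1 |θ| + ε1 * h θ) := i3.add (hh.const_mul _)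
    rw [hI, ← integral_const_mul, ← integral_const_mul, ← integral_add i3 (hh.const_mul _),
      ← integral_add i4 (i2.const_mul _)]
    exact integral_mono i1 (i4.add (i2.const_mul _)) hpt
  have h6 : ∫ θ, ex c θ * Gf T L θ ≤ B := by
    rw [e2]
    refine le_trans (Pk_mono (k' := kr c) (fun x => ?_) hT) (CS_bdd hc hT hP1)
    rw [bl_ex hc]
    have : max 0 (L - |x|) / L ≤ 1 := by
      rw [div_le_one hL0]
      exact max_le hL0.le (by linarith [abs_nonneg x])
    exact mul_le_of_le_one_right (kr_pos hc x).le this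
  have h7 := smooth_err hA hA1 hL hT
  rw [← e1] at h7
  have h8 : 3 * A / √L * Pk c1 T ≤ ε / 4 :=
    (mul_le_mul_of_nonneg_left hP1 (by positivity)).trans hLe
  have h9 := (abs_le.1 (h7.trans h8)).2
  have h10 := mul_le_mul_of_nonneg_left h6 hη0.le
  linarith

/-- the predicted value in terms of the form factor -/
lemma ex_min {a : ℝ} (ha : 0 < a) : ∫ θ, ex a θ * min 1 |θ| = pv a - 1 := by
  have h1 := tri_exp ha
  have h2 : ∫ θ, ex a θ = 2 / a := by
    have := bl_ex ha 0
    unfold bl kr at this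
    simp only [mul_zero, Real.cos_zero, mul_one] at this
    rw [this]
    field_simp
    ring
  have e : ∀ θ : ℝ, ex a θ * min 1 |θ| = ex a θ - tr 1 θ * Real.exp (-(a * |θ|)) := by
    intro θ
    unfold ex tr
    have : min 1 |θ| = 1 - max 0 (1 - |θ|) := by
      rcases le_total |θ| 1 with h | h
      · rw [min_eq_right h, max_eq_right (by linarith)]; ring
      · rw [min_eq_left h, max_eq_left (by linarith)]; ring
    rw [this]
    simp only [div_one]
    ring
  have i1 : Integrable (fun θ : ℝ => tr 1 θ * Real.exp (-(a * |θ|))) := by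
    refine ((ex_int ha).sub (min_abs_int (ex_int ha))).congr (Eventually.of_forall fun θ => ?_)
    show ex a θ - ex a θ * min 1 |θ| = _
    rw [e θ]
    ring
  simp_rw [e]
  rw [integral_sub (ex_int ha) i1, h1, h2]
  unfold pv
  ring

/-- differences of the kernels -/
theorem diff_le (H : Hup) {a b : ℝ} (ha : 0 < a) (hab : a < b) {ε : ℝ} (hε : 0 < ε) :
    ∀ᶠ T in atTop, CS T a - CS T b ≤ pv a - pv b + ε := by
  have hb : 0 < b := ha.trans hab
  have i1 := ex_int ha
  have i2 := ex_int hb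
  have hbl : ∀ x, bl (fun θ => ex a θ - ex b θ) x = kr a x - kr b x := by
    intro x
    rw [← bl_ex ha, ← bl_ex hb]
    unfold bl
    rw [← integral_sub]
    · congr 1
      funext α
      ring
    · exact i1.mul_bdd (c := 1) (by fun_prop) (Eventually.of_forall fun α => by
        rw [Real.norm_eq_abs]; exact Real.abs_cos_le_one _)
    · exact i2.mul_bdd (c := 1) (by fun_prop) (Eventually.of_forall fun α => by
        rw [Real.norm_eq_abs]; exact Real.abs_cos_le_one _)
  have h := claim1 H (h := fun θ => ex a θ - ex b θ) (i1.sub i2) (fun θ => by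
      have := abs_nonneg θ
      unfold ex
      rw [sub_nonneg]
      apply Real.exp_le_exp.2
      nlinarith) (K := max 1 (b - a)) (c := a / 2) (A := (2 / a + 2 * a) + (2 / b + 2 * b))
    (by positivity) (by positivity) (fun θ => by
      have h0 := abs_nonneg θ
      have h1 : ex b θ = ex a θ * Real.exp (-((b - a) * |θ|)) := by
        unfold ex
        rw [← Real.exp_add]; congr 1; ring
      have h2 := Real.add_one_le_exp (-((b - a) * |θ|))
      have h3 : ex a θ ≤ 1 := by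
        unfold ex
        rw [Real.exp_le_one_iff]
        nlinarith
      have h4 := ex_pos a θ
      have h5 : ex a θ * (1 - Real.exp (-((b - a) * |θ|))) ≤ 1 * ((b - a) * |θ|) :=
        mul_le_mul h3 (by linarith) (by
          rw [sub_nonneg, Real.exp_le_one_iff]
          nlinarith) zero_le_one
      have h6 : (b - a) * |θ| ≤ max 1 (b - a) * |θ| :=
        mul_le_mul_of_nonneg_right (le_max_right _ _) h0
      rw [h1]
      linarith) (fun θ => by
      have h4 := ex_pos b θ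
      have e : Real.exp (-(2 * (a / 2) * |θ|)) = ex a θ := by
        unfold ex; congr 1; ring
      rw [e]
      have h5 := mul_le_mul_of_nonneg_right (le_max_left 1 (b - a)) (ex_pos a θ).le
      linarith)
    (by positivity) (fun x => by
      rw [hbl]
      have h1 := kr_le ha x
      have h2 := kr_le hb x
      have h3 := kr_pos ha x
      have h4 := kr_pos hb x
      rw [abs_le]
      constructor <;> linarith) hε
  filter_upwards [h] with T hT
  have e1 : Pk (bl fun θ => ex a θ - ex b θ) T = CS T a - CS T b := by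
    rw [Pk_CS, Pk_CS, ← Pk_sub]
    congr 1
    funext x
    exact hbl x
  have e2 : ∫ θ, (ex a θ - ex b θ) * min 1 |θ| = pv a - pv b := by
    have : ∀ θ : ℝ, (ex a θ - ex b θ) * min 1 |θ| = ex a θ * min 1 |θ| - ex b θ * min 1 |θ| :=
      fun θ => by ring
    simp_rw [this]
    rw [integral_sub (min_abs_int i1) (min_abs_int i2), ex_min ha, ex_min hb]
    ring
  rw [e1, e2] at hT
  exact hT

end Q172.Diff
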