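import Pool.Agent.Q172.Diff.E2

/-! The low frequencies, and the conjecture from one-sided bounds. -/

set_option autoImplicit false

open Filter Topology Set MeasureTheory
open scoped ContDiff

namespace Q172.Diff

open SG (ord NZ)
open H370 (NN)
open H177.Lat (yy KK KK_sq ee ee_norm ee_add ee_re ee_conj)
open Pool.Agent.Q276.LR (TS cauchy_sum TS_sq)
open Pool.Agent.Q276.UR (PSm pair_basic)
open Pool.Agent.Y744 (Xf Xf_pos TK ct Q2 NTf mont_lim ct_eq_r Zt mz Aa Aa_mono dd Aa_diag PC mz_nonneg)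
open Pool.Agent.Y750.OM (bl)
open Pool.Agent.Y749.Rig (tr)
open Pool.Agent.Q276.NV (GG GG_smooth GG_nonneg GG_sq GG_int bl_GG ch ch_smooth ch_nonneg ch_le_one
  ch_one ch_zero int_TS bl_smooth Q2_conv exp_sum end_count logpow_lim double_conv0 BlkE_of)
open Q97.SS (kr CS cauchy_bound pd_scale exp_cos exp_abs_int tri_exp pv)
open Q241.OP (OT mo BlkE pair_up)

lemma cut_smooth (δ : ℝ) : ContDiff ℝ ∞ (cut δ) := by
  unfold cut
  exact ch_smooth.comp (contDiff_id.div_const _)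

lemma cut_out {δ x : ℝ} (hδ : 0 < δ) (h : δ ≤ |x|) : cut δ x = 0 := by
  unfold cut
  rw [ch_zero]
  rw [abs_div, abs_of_pos (by positivity : 0 < 2 * δ), le_div_iff₀ (by positivity)]
  linarith

lemma cut_one {δ x : ℝ} (hδ : 0 < δ) (h : |x| ≤ δ / 2) : cut δ x = 1 := by
  unfold cut
  rw [ch_one]
  rw [abs_div, abs_of_pos (by positivity : 0 < 2 * δ), div_le_iff₀ (by positivity)]
  linarith

lemma cut_nonneg (δ x : ℝ) : 0 ≤ cut δ x := ch_nonneg _

lemma cut_le (δ x : ℝ) : cut δ x ≤ 1 := ch_le_one _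

lemma cut_compact {δ : ℝ} (hδ : 0 < δ) : HasCompactSupport (cut δ) := by
  apply HasCompactSupport.intro (isCompact_Icc (a := -δ) (b := δ))
  intro x hx
  apply cut_out hδ
  by_contra h
  push Not at h
  exact hx (abs_le.1 h.le)

lemma cut_int {δ : ℝ} (hδ : 0 < δ) : Integrable (cut δ) :=
  (cut_smooth δ).continuous.integrable_of_hasCompactSupport (cut_compact hδ)

lemma cut_lip {δ : ℝ} (hδ : 0 < δ) : ∃ K : ℝ, ∀ x y, |cut δ x - cut δ y| ≤ K * |x - y| := by
  obtain ⟨K, hK⟩ := (contDiff_infty.1 (cut_smooth δ) 1).lipschitzWith_of_hasCompactSupport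
    (cut_compact hδ) (by norm_num)
  refine ⟨K, fun x y => ?_⟩
  have := hK.dist_le_mul x y
  rwa [Real.dist_eq, Real.dist_eq] at this

lemma cut_OT {δ : ℝ} (hδ : 0 < δ) : OT (cut δ) δ where
  lip := cut_lip hδ
  supp := fun _ h => cut_out hδ h.le
  decay := (bl_smooth (cut_smooth δ) (cut_compact hδ)).1
  scale := (bl_smooth (cut_smooth δ) (cut_compact hδ)).2

lemma cut_Blk : ∃ C : ℝ, 0 < C ∧ ∀ δ : ℝ, 0 < δ → δ ≤ 1 / 2 → BlkE (cut δ) (C * δ ^ 3) := by
  obtain ⟨C, hC, h⟩ := pair_basic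
  refine ⟨C, hC, fun δ hδ hδ2 => BlkE_of (by positivity) fun ε hε => ?_⟩
  obtain ⟨A, hA, hd⟩ := (cut_OT hδ).decay
  obtain ⟨T0, hT0, h1⟩ := h δ hδ hδ2 (cut δ) (cut_lip hδ) (fun _ h => cut_out hδ h.le)
    ⟨A, fun u => by
      have := hd u
      rw [le_div_iff₀ (by positivity)] at this
      exact this⟩ 1 (fun α => by
      rw [abs_of_nonneg (cut_nonneg _ _)]
      exact cut_le _ _) ε hε
  filter_upwards [eventually_ge_atTop T0] with V hV
  have := h1 V hV
  rw [mul_one] at this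
  exact this

lemma cut_mo {δ : ℝ} (hδ : 0 < δ) : mo (cut δ) ≤ 1 + 2 * δ ^ 2 := by
  unfold mo
  have e0 : cut δ 0 = 1 := cut_one hδ (by rw [abs_zero]; positivity)
  have h1 : ∫ α : ℝ, |α| * cut δ α ≤ 2 * δ ^ 2 := by
    have e : ∫ α : ℝ, |α| * cut δ α = ∫ α in Ioc (-δ) δ, |α| * cut δ α := by
      symm
      refine setIntegral_eq_integral_of_forall_compl_eq_zero fun x hx => ?_
      rw [cut_out hδ, mul_zero]
      by_contra h
      push Not at h
      obtain ⟨h2, h3⟩ := abs_lt.1 h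
      exact hx ⟨h2, h3.le⟩
    rw [e]
    have hc : Continuous fun α : ℝ => |α| * cut δ α :=
      continuous_abs.mul (cut_smooth δ).continuous
    have h2 := setIntegral_mono_on (s := Ioc (-δ) δ) (μ := volume)
      (hc.continuousOn.integrableOn_compact isCompact_Icc |>.mono_set Ioc_subset_Icc_self)
      (integrableOn_const (C := δ) (by simp)) measurableSet_Ioc (fun x hx => by
        have h3 : |x| ≤ δ := abs_le.2 ⟨hx.1.le, hx.2⟩
        calc |x| * cut δ x ≤ δ * 1 := mul_le_mul h3 (cut_le _ _) (cut_nonneg _ _) hδ.le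
          _ = δ := mul_one _)
    refine h2.trans (le_of_eq ?_)
    rw [setIntegral_const, Real.volume_real_Ioc_of_le (by linarith), smul_eq_mul]
    ring
  rw [e0]
  linarith

/-- monotonicity in the frequency domain -/
lemma Pk_freq {g g' : ℝ → ℝ} (hg : Integrable g) (hg' : Integrable g') (h : ∀ x, g x ≤ g' x)
    {T : ℝ} (hT : 1 < T) : Pk (bl g) T ≤ Pk (bl g') T := by
  obtain ⟨i1, e1⟩ := int_TS hg (Finset.Ioc 0 (NZ T)) (yy T)
  obtain ⟨i2, e2⟩ := int_TS hg' (Finset.Ioc 0 (NZ T)) (yy T)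
  unfold Pk
  rw [← e1, ← e2]
  refine mul_le_mul_of_nonneg_left ?_ (inv_nonneg.2 (Xf_pos hT).le)
  exact integral_mono i1 i2 fun α => mul_le_mul_of_nonneg_right (h α) (by positivity)

lemma bl_ex' {a : ℝ} (ha : 0 < a) : bl (ex a) = kr a := funext fun x => bl_ex ha x

/-- large scales: upper bound -/
theorem claim2 {ε : ℝ} (hε : 0 < ε) : ∃ b0 : ℝ, 0 < b0 ∧ ∀ b : ℝ, b0 ≤ b → ∀ᶠ T in atTop,
    CS T b ≤ 1 + ε := by
  obtain ⟨C, hC, hB⟩ := cut_Blk
  obtain ⟨C0, T0, hC0, hT0, hP⟩ := Pk_c1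
  -- choice of `δ`
  obtain ⟨δ, hδ, hδ2, hδ3⟩ : ∃ δ : ℝ, 0 < δ ∧ δ ≤ 1 / 2 ∧ 2 * δ ^ 2 + C * δ ^ 3 ≤ ε / 4 := by
    have c : Tendsto (fun δ : ℝ => 2 * δ ^ 2 + C * δ ^ 3) (𝓝[>] 0) (𝓝 0) := by
      have : ContinuousAt (fun δ : ℝ => 2 * δ ^ 2 + C * δ ^ 3) 0 := by fun_prop
      have h1 := this.tendsto
      simp only [ne_eq, OfNat.ofNat_ne_zero, not_false_eq_true, zero_pow, mul_zero, add_zero] at h1
      exact h1.mono_left nhdsWithin_le_nhds
    have h1 := (tendsto_order.1 c).2 (ε / 4) (by positivity)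
    have h2 : ∀ᶠ δ : ℝ in 𝓝[>] 0, δ ∈ Ioo (0:ℝ) (1 / 2) := Ioo_mem_nhdsGT (by norm_num)
    obtain ⟨δ, h3, h4⟩ := (h1.and h2).exists
    exact ⟨δ, h4.1, h4.2.le, h3.le⟩
  -- choice of `b0`
  obtain ⟨b0, hb0, hb1⟩ : ∃ b0 : ℝ, 2 ≤ b0 ∧ Real.exp (-(b0 * δ / 4)) * (4 * C0) ≤ ε / 4 := by
    have c : Tendsto (fun b : ℝ => Real.exp (-(b * δ / 4)) * (4 * C0)) atTop (𝓝 (0 * (4 * C0))) := by
      refine Tendsto.mul_const _ (Real.tendsto_exp_neg_atTop_nhds_zero.comp ?_)
      exact (tendsto_id.atTop_mul_const hδ).atTop_div_const (by norm_num)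
    rw [zero_mul] at c
    obtain ⟨b, h1, h2⟩ := (((tendsto_order.1 c).2 (ε / 4) (by positivity)).and
      (eventually_ge_atTop (2:ℝ))).exists
    exact ⟨b, h2, h1.le⟩
  refine ⟨b0, by linarith, fun b hb => ?_⟩
  have hb2 : 2 ≤ b := hb0.trans hb
  have hE : 0 ≤ C * δ ^ 3 := by positivity
  filter_upwards [pair_up (cut_OT hδ) hE (hB δ hδ hδ2) (ε / 4) (by positivity),
    eventually_ge_atTop T0] with T h1 h2
  have hT : 1 < T := by linarith
  rw [Pk_Q2] at h1
  have h3 := (abs_le.1 h1).2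
  have h4 := cut_mo hδ
  set η := Real.exp (-(b * δ / 4)) with hη
  have hη0 : 0 < η := Real.exp_pos _
  have hηle : η ≤ Real.exp (-(b0 * δ / 4)) := by
    apply Real.exp_le_exp.2
    have := mul_le_mul_of_nonneg_right hb hδ.le
    linarith
  have hib : Integrable (ex (b / 2)) := ex_int (by linarith)
  have h5 : Pk (bl (ex b)) T ≤ Pk (bl (fun θ => cut δ θ + η * ex (b / 2) θ)) T := by
    refine Pk_freq (ex_int (by linarith)) ((cut_int hδ).add (hib.const_mul _)) (fun θ => ?_) hT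
    show ex b θ ≤ cut δ θ + η * ex (b / 2) θ
    have g1 := cut_nonneg δ θ
    have g2 := ex_pos (b / 2) θ
    rcases le_or_gt |θ| (δ / 2) with h | h
    · rw [cut_one hδ h]
      have : ex b θ ≤ 1 := by
        unfold ex
        rw [Real.exp_le_one_iff]
        have := abs_nonneg θ
        nlinarith
      have : 0 ≤ η * ex (b / 2) θ := by positivity
      linarith
    · have e : ex b θ = ex (b / 2) θ * ex (b / 2) θ := by
        unfold ex
        rw [← Real.exp_add]; congr 1; ring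
      have h6 : ex (b / 2) θ ≤ η := by
        unfold ex
        apply Real.exp_le_exp.2
        nlinarith
      rw [e]
      have := mul_le_mul_of_nonneg_right h6 g2.le
      linarith
  have h6 : Pk (bl (fun θ => cut δ θ + η * ex (b / 2) θ)) T = Pk (bl (cut δ)) T + η * Pk (kr (b / 2)) T := by
    rw [← Pk_mul, ← Pk_add]
    congr 1
    funext x
    rw [← bl_ex (by linarith : 0 < b / 2)]
    unfold bl
    rw [← integral_const_mul, ← integral_add]
    · congr 1
      funext α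
      ring
    · exact (cut_int hδ).mul_bdd (c := 1) (by fun_prop) (Eventually.of_forall fun α => by
        rw [Real.norm_eq_abs]; exact Real.abs_cos_le_one _)
    · exact (hib.mul_bdd (c := 1) (by fun_prop) (Eventually.of_forall fun α => by
        rw [Real.norm_eq_abs]; exact Real.abs_cos_le_one _)).const_mul _
  have h7 : Pk (kr (b / 2)) T ≤ 4 * C0 := by
    rw [← bl_ex' (by linarith : 0 < b / 2)]
    refine (Pk_freq hib (ex_int one_pos) (fun θ => ?_) hT).trans ?_
    · unfold ex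
      apply Real.exp_le_exp.2
      have := abs_nonneg θ
      nlinarith
    · rw [bl_ex' one_pos]
      have := CS_bdd one_pos hT (hP T h2)
      norm_num at this
      exact this
  have h8 : η * Pk (kr (b / 2)) T ≤ ε / 4 := by
    calc η * Pk (kr (b / 2)) T ≤ η * (4 * C0) := mul_le_mul_of_nonneg_left h7 hη0.le
      _ ≤ Real.exp (-(b0 * δ / 4)) * (4 * C0) := mul_le_mul_of_nonneg_right hηle (by positivity)
      _ ≤ ε / 4 := hb1
  rw [Pk_CS, ← bl_ex' (by linarith : 0 < b)]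
  linarith

/-- small scales: lower bound -/
theorem claim3 {a ε : ℝ} (ha : 0 < a) (hε : 0 < ε) : ∀ᶠ T in atTop, 2 / a - ε ≤ CS T a := by
  filter_upwards [Aa_diag (ε := ε * a / 2) (by positivity), eventually_gt_atTop 1] with T h1 hT
  have h2 : 2 / a * Aa T 0 ≤ CS T a := by
    unfold CS Aa PC
    have e : 2 / a * ((Xf T)⁻¹ * ∑ s ∈ Zt T, ∑ s' ∈ Zt T, mz s * mz s' *
        {x : ℝ | |x| ≤ 0}.indicator (fun _ => (1 : ℝ)) (dd T s s')) =
        (Xf T)⁻¹ * ∑ s ∈ Zt T, ∑ s' ∈ Zt T, mz s * mz s' *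
          (2 / a * {x : ℝ | |x| ≤ 0}.indicator (fun _ => (1 : ℝ)) (dd T s s')) := by
      rw [mul_left_comm]
      congr 1
      rw [Finset.mul_sum]
      refine Finset.sum_congr rfl fun s _ => ?_
      rw [Finset.mul_sum]
      refine Finset.sum_congr rfl fun s' _ => ?_
      ring
    rw [e]
    refine mul_le_mul_of_nonneg_left ?_ (inv_nonneg.2 (Xf_pos hT).le)
    refine Finset.sum_le_sum fun s _ => Finset.sum_le_sum fun s' _ => ?_
    refine mul_le_mul_of_nonneg_left ?_ (mul_nonneg (mz_nonneg _) (mz_nonneg _))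
    by_cases h : |dd T s s'| ≤ 0
    · have h0 : dd T s s' = 0 := abs_nonpos_iff.1 h
      rw [Set.indicator_of_mem (show dd T s s' ∈ {x : ℝ | |x| ≤ 0} from h), mul_one, h0]
      unfold kr
      apply le_of_eq
      field_simp
      ring
    · rw [Set.indicator_of_notMem (show dd T s s' ∉ {x : ℝ | |x| ≤ 0} from h), mul_zero]
      exact (kr_pos ha _).le
  have h3 := mul_le_mul_of_nonneg_left h1 (by positivity : 0 ≤ 2 / a)
  have e : 2 / a * (1 - ε * a / 2) = 2 / a - ε := by field_simp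
  linarith

lemma pv_large {b : ℝ} (hb : 0 < b) : 1 ≤ pv b ∧ pv b ≤ 1 + 2 / b ^ 2 := by
  unfold pv
  have h1 := Real.exp_pos (-b)
  have h2 : Real.exp (-b) ≤ 1 := Real.exp_le_one_iff.2 (by linarith)
  constructor
  · have : 0 ≤ 2 * (1 - Real.exp (-b)) / b ^ 2 := by
      have : 0 ≤ 1 - Real.exp (-b) := by linarith
      positivity
    linarith
  · have : 2 * (1 - Real.exp (-b)) / b ^ 2 ≤ 2 / b ^ 2 :=
      div_le_div_of_nonneg_right (by linarith) (by positivity)
    linarith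

lemma pv_small {a : ℝ} (ha : 0 < a) (ha1 : a ≤ 1) : pv a ≤ 2 / a + a := by
  unfold pv
  have h := Real.exp_bound (x := -a) (by rw [abs_neg, abs_of_pos ha]; exact ha1) (n := 3) (by norm_num)
  have h1 := (abs_le.1 h).1
  rw [abs_neg, abs_of_pos ha] at h1
  simp only [Finset.sum_range_succ, Finset.sum_range_zero, Nat.factorial] at h1
  norm_num at h1
  have h2 : 1 - Real.exp (-a) ≤ a - a ^ 2 / 2 + a ^ 3 * (2 / 9) := by linarith
  have h3 : 2 * (1 - Real.exp (-a)) / a ^ 2 ≤ 2 * (a - a ^ 2 / 2 + a ^ 3 * (2 / 9)) / a ^ 2 :=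
    div_le_div_of_nonneg_right (by linarith) (by positivity)
  have e : 2 * (a - a ^ 2 / 2 + a ^ 3 * (2 / 9)) / a ^ 2 = 2 / a - 1 + 4 / 9 * a := by
    field_simp
    ring
  rw [e] at h3
  linarith

/-- all Cauchy sums converge -/
theorem CS_lim (H : Hup) {a : ℝ} (ha : 0 < a) : Tendsto (fun T => CS T a) atTop (𝓝 (pv a)) := by
  rw [Metric.tendsto_nhds]
  intro ε hε
  -- lower bound
  set s := min (min 1 (a / 2)) (ε / 4) with hs
  have hs0 : 0 < s := lt_min (lt_min one_pos (by positivity)) (by positivity)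
  have hs1 : s ≤ 1 := (min_le_left _ _).trans (min_le_left _ _)
  have hs2 : s < a := lt_of_le_of_lt ((min_le_left _ _).trans (min_le_right _ _)) (by linarith)
  have hs3 : s ≤ ε / 4 := min_le_right _ _
  have l1 := diff_le H hs0 hs2 (ε := ε / 4) (by positivity)
  have l2 := claim3 hs0 (ε := ε / 4) (by positivity)
  have l3 := pv_small hs0 hs1
  -- upper bound
  obtain ⟨b0, hb0, hb1⟩ := claim2 (ε := ε / 4) (by positivity)
  set b := max b0 (a + 1) with hb
  have hab : a < b := lt_of_lt_of_le (by linarith) (le_max_right _ _)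
  have u1 := diff_le H ha hab (ε := ε / 4) (by positivity)
  have u2 := hb1 b (le_max_left _ _)
  have u3 := (pv_large (ha.trans hab)).1
  filter_upwards [l1, l2, u1, u2] with T m1 m2 m3 m4
  rw [Real.dist_eq, abs_lt]
  constructor <;> linarith

theorem mont_of_up (H : Hup) : Q241.OP.Mont := by
  refine (Q97.SS.main (δ := 1) one_pos (S := Set.range fun n : ℕ => ((n : ℝ) + 1)) ?_ ?_).2 ?_
  · rintro _ ⟨n, rfl⟩
    show (1 : ℝ) ≤ (n : ℝ) + 1
    have : (0 : ℝ) ≤ n := Nat.cast_nonneg n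
    linarith
  · intro hs
    have hinj : Function.Injective (fun n : ℕ => ((n : ℝ) + 1)) := by
      intro p q hpq
      have h3 : (p : ℝ) + 1 = (q : ℝ) + 1 := hpq
      have h4 : (p : ℝ) = q := by linarith
      exact_mod_cast h4
    have h2 := ((Equiv.ofInjective _ hinj).summable_iff (f := fun a : Set.range
      (fun n : ℕ => ((n : ℝ) + 1)) => 1 / (1 + (a : ℝ)))).mpr hs
    have h3 : Summable fun n : ℕ => 1 / ((n + 2 : ℕ) : ℝ) := by
      refine h2.congr fun n => ?_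
      show 1 / (1 + ((n : ℝ) + 1)) = 1 / ((n + 2 : ℕ) : ℝ)
      congr 1
      push_cast
      ring
    exact Real.not_summable_one_div_natCast ((summable_nat_add_iff 2).1 h3)
  · rintro _ ⟨n, rfl⟩
    exact CS_lim H (by positivity)

end Q172.Diff
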