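import Pool.Agent.Q172.Diff.E3

/-! The triangle sums under the pair correlation conjecture. -/

set_option autoImplicit false

open Filter Topology Set MeasureTheory
open scoped ContDiff

namespace Q172.Diff

open SG (ord NZ)
open H177.Lat (yy KK KK_sq KK_nonneg ee ee_norm ee_add ee_re ee_conj tri)
open Pool.Agent.Q276.UR (KK1_int)
open Pool.Agent.Q276.LR (TS cauchy_sum TS_sq)
open Pool.Agent.Y744 (Xf Xf_pos TK ct Q2 NTf mont_lim ct_eq_r Zt mz Aa Aa_mono dd Aa_diag PC
  mz_nonneg AG AG_meas gd gp gd_cont gp_deriv gp_zero gp_cont)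
open Pool.Agent.Y750.OM (bl)
open Pool.Agent.Q276.NV (GG GG_smooth GG_nonneg GG_sq GG_int bl_GG int_TS KK_inv rr rr_smooth
  rr_compact mo_rr ch ch_nonneg ch_one ch_le_one KK1_cont tent_split PC_conv GG_zero)
open Q97.SS (half_line Aa_lin AG_lin Aa_of_mont)
open Q241.OP (mo)

/-- the weight -/
noncomputable def wθ (θ L y : ℝ) : ℝ :=
  2 * Real.pi * θ * Real.sin (2 * Real.pi * θ * y) * (L - y) + Real.cos (2 * Real.pi * θ * y)

lemma wθ_cont (θ L : ℝ) : Continuous (wθ θ L) := by
  unfold wθ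
  fun_prop

lemma gθ_deriv (θ L y : ℝ) :
    HasDerivAt (fun y => -(Real.cos (2 * Real.pi * θ * y) * (L - y))) (wθ θ L y) y := by
  have h1 : HasDerivAt (fun y : ℝ => 2 * Real.pi * θ * y) (2 * Real.pi * θ) y := by
    simpa using (hasDerivAt_id y).const_mul (2 * Real.pi * θ)
  have h2 : HasDerivAt (fun y : ℝ => L - y) (-1) y := by
    simpa using (hasDerivAt_id y).const_sub L
  refine ((h1.cos.mul h2).neg).congr_deriv ?_
  unfold wθ
  ring

lemma cos_abs_arg (θ x : ℝ) : Real.cos (2 * Real.pi * θ * |x|) = Real.cos (2 * Real.pi * θ * x) := by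
  rcases abs_choice x with h | h
  · rw [h]
  · rw [h, mul_neg, Real.cos_neg]

lemma ind_w {θ L : ℝ} (hL : 0 ≤ L) (d : ℝ) :
    IntervalIntegrable (fun y : ℝ => {x : ℝ | |x| ≤ y}.indicator (fun _ => (1 : ℝ)) d * wθ θ L y)
      volume 0 L ∧
    ∫ y in (0 : ℝ)..L, {x : ℝ | |x| ≤ y}.indicator (fun _ => (1 : ℝ)) d * wθ θ L y = gθ θ L d := by
  have h1 : (fun y : ℝ => {x : ℝ | |x| ≤ y}.indicator (fun _ => (1 : ℝ)) d * wθ θ L y) =
      (Ici |d|).indicator (wθ θ L) := by
    funext y
    by_cases h : |d| ≤ y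
    · rw [Set.indicator_of_mem (show d ∈ {x : ℝ | |x| ≤ y} from h),
        Set.indicator_of_mem (show y ∈ Ici |d| from h), one_mul]
    · rw [Set.indicator_of_notMem (show d ∉ {x : ℝ | |x| ≤ y} from h),
        Set.indicator_of_notMem (show y ∉ Ici |d| from h), zero_mul]
  have hw := wθ_cont θ L
  rw [h1]
  refine ⟨?_, ?_⟩
  · rw [intervalIntegrable_iff]
    exact ((intervalIntegrable_iff.1 (hw.intervalIntegrable 0 L))).indicator measurableSet_Ici
  rw [intervalIntegral.integral_of_le hL, setIntegral_indicator measurableSet_Ici]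
  have h2 : (Ioc 0 L ∩ Ici |d| : Set ℝ) =ᵐ[volume] (Ioc 0 L ∩ Ioi |d| : Set ℝ) :=
    (ae_eq_refl _).inter Ioi_ae_eq_Ici.symm
  rw [setIntegral_congr_set h2, Set.Ioc_inter_Ioi, max_eq_right (abs_nonneg d)]
  rcases le_or_gt |d| L with h | h
  · rw [← intervalIntegral.integral_of_le h]
    rw [intervalIntegral.integral_eq_sub_of_hasDerivAt (fun y _ => gθ_deriv θ L y)
      (hw.intervalIntegrable _ _), cos_abs_arg]
    unfold gθ
    rw [max_eq_right (by linarith)]
    ring
  · rw [Set.Ioc_eq_empty (by linarith), setIntegral_empty]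
    unfold gθ
    rw [max_eq_left (by linarith), mul_zero]

lemma Pk_int {θ L : ℝ} (hL : 0 ≤ L) (T : ℝ) :
    Pk (gθ θ L) T = ∫ y in (0 : ℝ)..L, Aa T y * wθ θ L y := by
  have e : (fun y => Aa T y * wθ θ L y) = fun y => (Xf T)⁻¹ * ∑ n ∈ Finset.Ioc 0 (NZ T),
    ∑ m ∈ Finset.Ioc 0 (NZ T), {x : ℝ | |x| ≤ y}.indicator (fun _ => (1 : ℝ))
      (yy T n - yy T m) * wθ θ L y := by
    funext y
    unfold Aa
    rw [PC_conv, mul_assoc, Finset.sum_mul]
    congr 1
    refine Finset.sum_congr rfl fun n _ => ?_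
    rw [Finset.sum_mul]
  have hi : ∀ n m : ℕ, IntervalIntegrable (fun y : ℝ =>
      {x : ℝ | |x| ≤ y}.indicator (fun _ => (1 : ℝ)) (yy T n - yy T m) * wθ θ L y) volume 0 L :=
    fun n m => (ind_w hL _).1
  have hi2 : ∀ n : ℕ, IntervalIntegrable (fun y : ℝ => ∑ m ∈ Finset.Ioc 0 (NZ T),
      {x : ℝ | |x| ≤ y}.indicator (fun _ => (1 : ℝ)) (yy T n - yy T m) * wθ θ L y) volume 0 L := by
    intro n
    have := IntervalIntegrable.sum (Finset.Ioc 0 (NZ T)) fun m _ => hi n m
    refine this.congr (fun y _ => ?_)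
    simp [Finset.sum_apply]
  rw [e]
  rw [intervalIntegral.integral_const_mul, intervalIntegral.integral_finsetSum fun n _ => hi2 n]
  unfold Pk
  congr 1
  refine Finset.sum_congr rfl fun n _ => ?_
  rw [intervalIntegral.integral_finsetSum fun m _ => hi n m]
  exact Finset.sum_congr rfl fun m _ => (ind_w hL _).2.symm

theorem Pk_gθ_lim (h : ∀ x, Tendsto (fun T => Aa T x) atTop (𝓝 (AG x))) {θ L : ℝ} (hL : 0 ≤ L) :
    Tendsto (fun T => Pk (gθ θ L) T) atTop (𝓝 (∫ y in (0 : ℝ)..L, AG y * wθ θ L y)) := by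
  obtain ⟨C0, T0, hC0, hT0, hlin⟩ := Aa_lin
  have h1 : Tendsto (fun T => ∫ y in (0 : ℝ)..L, Aa T y * wθ θ L y) atTop
      (𝓝 (∫ y in (0 : ℝ)..L, AG y * wθ θ L y)) := by
    refine intervalIntegral.tendsto_integral_filter_of_dominated_convergence
      (fun y => C0 * (1 + y) * |wθ θ L y|) ?_ ?_ ?_ ?_
    · filter_upwards [eventually_ge_atTop T0] with T hT
      exact ((Aa_mono (by linarith)).measurable.mul (wθ_cont θ L).measurable).aestronglyMeasurable
    · filter_upwards [eventually_ge_atTop T0] with T hT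
      refine Eventually.of_forall fun y hy => ?_
      rw [Set.uIoc_of_le hL] at hy
      rw [Real.norm_eq_abs, abs_mul]
      exact mul_le_mul_of_nonneg_right (hlin T hT y hy.1.le) (abs_nonneg _)
    · have := wθ_cont θ L
      exact Continuous.intervalIntegrable (by fun_prop) _ _
    · exact Eventually.of_forall fun y _ => (h y).mul_const _
  exact h1.congr fun T => (Pk_int hL T).symm

/-- the prediction, by parts -/
lemma pred_parts {θ L : ℝ} (hL : 0 ≤ L) : ∫ y in (0 : ℝ)..L, AG y * wθ θ L y =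
    L + 2 * ∫ y in (0 : ℝ)..L, gθ θ L y * gd y := by
  have hg := gd_cont
  have hp := gp_cont
  have hw := wθ_cont θ L
  have e1 : ∫ y in (0 : ℝ)..L, AG y * wθ θ L y = ∫ y in (0 : ℝ)..L, (1 + 2 * gp y) * wθ θ L y := by
    apply intervalIntegral.integral_congr
    intro y hy
    rw [Set.uIcc_of_le hL] at hy
    show AG y * wθ θ L y = _
    unfold AG
    rw [if_neg (not_lt.2 hy.1)]
  have e2 : ∫ y in (0 : ℝ)..L, gθ θ L y * gd y =
      ∫ y in (0 : ℝ)..L, (Real.cos (2 * Real.pi * θ * y) * (L - y)) * gd y := by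
    apply intervalIntegral.integral_congr
    intro y hy
    rw [Set.uIcc_of_le hL] at hy
    show gθ θ L y * gd y = _
    unfold gθ
    rw [abs_of_nonneg hy.1, max_eq_right (by linarith [hy.2])]
  have hd : ∀ y ∈ Set.uIcc (0 : ℝ) L, HasDerivAt
      (fun y => (1 + 2 * gp y) * -(Real.cos (2 * Real.pi * θ * y) * (L - y)))
      ((1 + 2 * gp y) * wθ θ L y - 2 * ((Real.cos (2 * Real.pi * θ * y) * (L - y)) * gd y)) y := by
    intro y _
    refine ((((gp_deriv y).const_mul 2).const_add 1).mul (gθ_deriv θ L y)).congr_deriv ?_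
    ring
  have c1 : Continuous fun y : ℝ => (1 + 2 * gp y) * wθ θ L y := by fun_prop
  have c2 : Continuous fun y : ℝ => 2 * ((Real.cos (2 * Real.pi * θ * y) * (L - y)) * gd y) := by
    fun_prop
  have h1 := intervalIntegral.integral_eq_sub_of_hasDerivAt hd
    ((c1.intervalIntegrable _ _).sub (c2.intervalIntegrable _ _))
  rw [intervalIntegral.integral_sub (c1.intervalIntegrable _ _) (c2.intervalIntegrable _ _),
    gp_zero, intervalIntegral.integral_const_mul] at h1
  rw [e1, e2]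
  simp only [sub_self, mul_zero, neg_zero, Real.cos_zero, one_mul, sub_zero, add_zero, zero_sub,
    neg_neg] at h1
  linarith

lemma gθ_cont (θ L : ℝ) : Continuous (gθ θ L) := by
  unfold gθ
  fun_prop

lemma gθ_even (θ L x : ℝ) : gθ θ L |x| = gθ θ L x := by
  unfold gθ
  rw [cos_abs_arg, abs_abs]

lemma gθ_out {θ L x : ℝ} (h : L ≤ |x|) : gθ θ L x = 0 := by
  unfold gθ
  rw [max_eq_left (by linarith), mul_zero]

lemma gθ_int (θ L : ℝ) : Integrable (gθ θ L) := by
  apply (gθ_cont θ L).integrable_of_hasCompactSupport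
  apply HasCompactSupport.intro (isCompact_Icc (a := -L) (b := L))
  intro x hx
  apply gθ_out
  by_contra h
  push Not at h
  exact hx (abs_le.1 h.le)

lemma gd_eq' (x : ℝ) : gd x = 1 - KK 1 x := Pool.Agent.Q276.NV.gd_eq x

lemma KK_abs (x : ℝ) : KK 1 |x| = KK 1 x := by
  rcases abs_choice x with h | h
  · rw [h]
  · rw [h, Pool.Agent.Q276.UR.KK_even]

lemma gK_int (θ L : ℝ) : Integrable fun x => gθ θ L x * KK 1 x :=
  (gθ_int θ L).mul_bdd (c := 1) KK1_cont.aestronglyMeasurable (Eventually.of_forall fun α => by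
    rw [Real.norm_eq_abs, abs_of_nonneg (KK_nonneg one_pos _)]
    exact H177.Lat.KK_le one_pos _)

lemma half_g {θ L : ℝ} (hL : 0 ≤ L) : 2 * ∫ y in (0 : ℝ)..L, gθ θ L y * gd y =
    (∫ y, gθ θ L y) - ∫ y, gθ θ L y * KK 1 y := by
  have h1 := half_line (fun y => gθ θ L y * gd y) (fun y => by
    show gθ θ L |y| * gd |y| = _
    rw [gθ_even, gd_eq', gd_eq', KK_abs])
  have h2 : ∫ y in Ioi (0 : ℝ), gθ θ L y * gd y = ∫ y in (0 : ℝ)..L, gθ θ L y * gd y := by
    rw [intervalIntegral.integral_of_le hL]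
    apply setIntegral_eq_of_subset_of_forall_sdiff_eq_zero measurableSet_Ioi Ioc_subset_Ioi_self
    intro x hx
    have hx0 : 0 < x := hx.1
    have : L ≤ |x| := by
      rw [abs_of_pos hx0]
      by_contra h
      push Not at h
      exact hx.2 ⟨hx0, h.le⟩
    show gθ θ L x * gd x = 0
    rw [gθ_out this, zero_mul]
  have h3 : ∫ y, gθ θ L y * gd y = (∫ y, gθ θ L y) - ∫ y, gθ θ L y * KK 1 y := by
    rw [← integral_sub (gθ_int θ L) (gK_int θ L)]
    congr 1
    funext y
    rw [gd_eq']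
    ring
  rw [← h2, h1, h3]
  ring

lemma int_gθ {θ L : ℝ} (hθ : 0 < θ) (hL : 0 < L) :
    0 ≤ (∫ y, gθ θ L y) ∧ (∫ y, gθ θ L y) ≤ 1 / θ ^ 2 := by
  have e : ∫ y, gθ θ L y = L * KK L θ := by
    unfold KK
    rw [← integral_const_mul]
    congr 1
    funext y
    unfold gθ tri
    rw [show 2 * Real.pi * y * θ = 2 * Real.pi * θ * y by ring]
    have : L * max 0 (1 - |y| / L) = max 0 (L - |y|) := by
      rw [mul_max_of_nonneg _ _ hL.le, mul_zero]
      congr 1
      field_simp
    rw [← this]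
    ring
  rw [e]
  have h1 := KK_nonneg hL θ
  have h2 := KK_sq hL θ
  refine ⟨by positivity, ?_⟩
  rw [le_div_iff₀ (by positivity)]
  rw [le_div_iff₀ hL] at h2
  linarith

/-- interchange of the integrals -/
lemma int_gK {θ L : ℝ} (hL : 0 < L) :
    ∫ y, gθ θ L y * KK 1 y = ∫ α, sym (GG L) θ α * tri 1 α := by
  have hs := sym_int (GG_int hL) θ
  have e : ∀ y, gθ θ L y * KK 1 y =
      ∫ α, KK 1 y * (sym (GG L) θ α * Real.cos (2 * Real.pi * α * y)) := by
    intro y
    rw [integral_const_mul]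
    have h1 := bl_sym (GG_int hL) θ y
    rw [bl_GG hL] at h1
    unfold bl at h1
    rw [h1]
    unfold gθ
    ring
  simp_rw [e]
  have hi : Integrable (Function.uncurry fun (y α : ℝ) =>
      KK 1 y * (sym (GG L) θ α * Real.cos (2 * Real.pi * α * y))) (volume.prod volume) := by
    have h1 : Integrable (fun z : ℝ × ℝ => KK 1 z.1 * sym (GG L) θ z.2) (volume.prod volume) :=
      KK1_int.1.mul_prod hs
    have h2 : Integrable (fun z : ℝ × ℝ => (KK 1 z.1 * sym (GG L) θ z.2) *
        Real.cos (2 * Real.pi * z.2 * z.1)) (volume.prod volume) :=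
      h1.mul_bdd (c := 1) (by fun_prop) (Eventually.of_forall fun z => by
        rw [Real.norm_eq_abs]; exact Real.abs_cos_le_one _)
    refine h2.congr (Eventually.of_forall fun z => ?_)
    show (KK 1 z.1 * sym (GG L) θ z.2) * Real.cos (2 * Real.pi * z.2 * z.1) =
      KK 1 z.1 * (sym (GG L) θ z.2 * Real.cos (2 * Real.pi * z.2 * z.1))
    ring
  rw [integral_integral_swap hi]
  congr 1
  funext α
  rw [← KK_inv α, ← integral_const_mul]
  congr 1
  funext y
  rw [show 2 * Real.pi * y * α = 2 * Real.pi * α * y by ring]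
  ring

/-- the mass of the kernel off the origin -/
lemma GG_min {L : ℝ} (hL : 1 ≤ L) : Integrable (fun β => GG L β * min 1 |β|) ∧
    ∫ β, GG L β * min 1 |β| ≤ Real.log L + 60 := by
  have hL0 : 0 < L := by linarith
  have i1 := min_abs_int (GG_int hL0)
  refine ⟨i1, ?_⟩
  have i2 : Integrable fun β => |β| * rr L β := by
    have hc : Continuous fun β => |β| * rr L β := continuous_abs.mul (rr_smooth L).continuous
    exact hc.integrable_of_hasCompactSupport (rr_compact L).mul_left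
  have i3 : Integrable fun β : ℝ => 17 * (1 + β ^ 2)⁻¹ := integrable_inv_one_add_sq.const_mul _
  have h1 : ∫ β, GG L β * min 1 |β| ≤ ∫ β, (|β| * rr L β + 17 * (1 + β ^ 2)⁻¹) := by
    refine integral_mono i1 (i2.add i3) fun α => ?_
    show GG L α * min 1 |α| ≤ |α| * rr L α + 17 * (1 + α ^ 2)⁻¹
    have g3 := GG_nonneg L α
    have m0 : 0 ≤ min 1 |α| := le_min zero_le_one (abs_nonneg _)
    rcases le_or_gt |α| (1 / 4) with h | h
    · unfold rr
      rw [ch_one h, mul_one]
      have : (0 : ℝ) ≤ 17 * (1 + α ^ 2)⁻¹ := by positivity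
      have h2 := mul_le_mul_of_nonneg_left (min_le_right 1 |α|) g3
      linarith
    · have g0 : 0 ≤ |α| * rr L α := by
        unfold rr
        exact mul_nonneg (abs_nonneg _) (mul_nonneg g3 (ch_nonneg α))
      have g1 := GG_sq L α
      have g4 : 1 / 16 ≤ α ^ 2 := by
        rw [← sq_abs]
        nlinarith [abs_nonneg α]
      have g2 : GG L α ≤ 17 * (1 + α ^ 2)⁻¹ := by
        rw [← div_eq_mul_inv, le_div_iff₀ (by positivity)]
        nlinarith
      have h2 := mul_le_mul_of_nonneg_left (min_le_left 1 |α|) g3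
      linarith
  rw [integral_add i2 i3, integral_const_mul, integral_univ_inv_one_add_sq] at h1
  have h2 := mo_rr hL
  unfold mo at h2
  have hr0 : rr L 0 = L ^ 2 := by
    unfold rr
    rw [ch_one (by simp), mul_one, GG_zero]
  rw [hr0] at h2
  have h3 := (abs_le.1 h2).2
  have hpi := Real.pi_gt_three
  have hpi2 := Real.pi_lt_d2
  have hl : 0 ≤ Real.log L := Real.log_nonneg hL
  have h4 : 1 / Real.pi ^ 2 * Real.log L ≤ Real.log L := by
    have : 1 / Real.pi ^ 2 ≤ 1 := by
      rw [div_le_one (by positivity)]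
      nlinarith
    nlinarith
  linarith

/-- **the prediction** -/
theorem pred_min {θ L : ℝ} (hθ : 0 < θ) (hL : 1 ≤ L) :
    |(∫ y in (0 : ℝ)..L, AG y * wθ θ L y) - L * min 1 θ| ≤ 1 / θ ^ 2 + (Real.log L + 60) := by
  have hL0 : 0 < L := by linarith
  rw [pred_parts hL0.le, half_g hL0.le, int_gK hL0]
  obtain ⟨a1, a2⟩ := int_gθ hθ hL0
  obtain ⟨i1, a3⟩ := GG_min hL
  have hs := sym_int (GG_int hL0) θ
  have ht : Integrable fun α => sym (GG L) θ α * tri 1 α := hs.mul_bdd (c := 1)
    (H177.Lat.tri_cont 1).aestronglyMeasurable (Eventually.of_forall fun α => by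
      rw [Real.norm_eq_abs, abs_of_nonneg (H177.Lat.tri_nonneg _ _)]
      exact Pool.Agent.Q276.UR.tri_le_one α)
  have hL1 : ∫ α, sym (GG L) θ α = L := by
    have h1 := bl_sym (GG_int hL0) θ 0
    rw [bl_GG hL0] at h1
    unfold bl at h1
    simp only [mul_zero, Real.cos_zero, mul_one, abs_zero, sub_zero, one_mul] at h1
    rw [h1, max_eq_right hL0.le]
  have i2 : Integrable fun α => sym (GG L) θ α * min 1 θ := hs.mul_const _
  have e1 : L - (∫ α, sym (GG L) θ α * tri 1 α) - L * min 1 θ =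
      ∫ α, sym (GG L) θ α * (min 1 |α| - min 1 θ) := by
    have e2 : ∀ α : ℝ, sym (GG L) θ α * (min 1 |α| - min 1 θ) =
        sym (GG L) θ α - sym (GG L) θ α * tri 1 α - sym (GG L) θ α * min 1 θ := by
      intro α
      have : min 1 |α| = 1 - tri 1 α := by
        unfold tri
        rw [div_one]
        rcases le_total |α| 1 with h | h
        · rw [min_eq_right h, max_eq_right (by linarith)]; ring
        · rw [min_eq_left h, max_eq_left (by linarith)]; ring
      rw [this]
      ring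
    simp_rw [e2]
    have i3 : Integrable fun α => sym (GG L) θ α - sym (GG L) θ α * tri 1 α := hs.sub ht
    rw [integral_sub i3 i2, integral_sub hs ht, integral_mul_const, hL1]
  have i4 : Integrable fun α => sym (fun β => GG L β * min 1 |β|) θ α := sym_int i1 θ
  have h5 : ∫ α, sym (fun β => GG L β * min 1 |β|) θ α = ∫ β, GG L β * min 1 |β| := by
    unfold sym
    rw [integral_const_mul, integral_add (i1.comp_sub_right θ) (i1.comp_add_right θ),
      integral_sub_right_eq_self (fun β => GG L β * min 1 |β|) θ,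
      integral_add_right_eq_self (fun β => GG L β * min 1 |β|) θ]
    ring
  have h6 : |∫ α, sym (GG L) θ α * (min 1 |α| - min 1 θ)| ≤
      ∫ α, sym (fun β => GG L β * min 1 |β|) θ α := by
    rw [← Real.norm_eq_abs]
    refine norm_integral_le_of_norm_le i4 (Eventually.of_forall fun α => ?_)
    have hmin : ∀ x y : ℝ, |(min 1 |x|) - (min 1 |y|)| ≤ min 1 |x - y| := by
      intro x y
      have h1 : |(min 1 |x|) - (min 1 |y|)| ≤ |x - y| :=
        (abs_min_sub_min_le_max 1 |x| 1 |y|).trans (by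
          rw [sub_self, abs_zero]
          exact max_le (abs_nonneg _) (abs_abs_sub_abs_le_abs_sub x y))
      have h2 : |(min 1 |x|) - (min 1 |y|)| ≤ 1 := by
        have a0 : 0 ≤ min 1 |x| := le_min zero_le_one (abs_nonneg _)
        have a1 : min 1 |x| ≤ 1 := min_le_left _ _
        have b0 : 0 ≤ min 1 |y| := le_min zero_le_one (abs_nonneg _)
        have b1 : min 1 |y| ≤ 1 := min_le_left _ _
        rw [abs_le]
        constructor <;> linarith
      exact le_min h2 h1
    have m1 := hmin α θ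
    have m2 := hmin α (-θ)
    rw [abs_neg, sub_neg_eq_add] at m2
    rw [abs_of_pos hθ] at m1 m2
    have g1 := GG_nonneg L (α - θ)
    have g2 := GG_nonneg L (α + θ)
    rw [Real.norm_eq_abs, abs_mul]
    unfold sym
    rw [abs_of_nonneg (by positivity : 0 ≤ 1 / 2 * (GG L (α - θ) + GG L (α + θ)))]
    have n1 := mul_le_mul_of_nonneg_left m1 g1
    have n2 := mul_le_mul_of_nonneg_left m2 g2
    linarith
  rw [h5] at h6
  have e3 : L + ((∫ y, gθ θ L y) - ∫ α, sym (GG L) θ α * tri 1 α) - L * min 1 θ =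
      (∫ y, gθ θ L y) + ∫ α, sym (GG L) θ α * (min 1 |α| - min 1 θ) := by
    rw [← e1]
    ring
  rw [e3]
  refine (abs_add_le _ _).trans ?_
  rw [abs_of_nonneg a1]
  linarith

/-- pointwise, under the conjecture -/
theorem mont_tri (H : Q241.OP.Mont) {θ L : ℝ} (hθ : 0 < θ) (hL : 1 ≤ L) :
    ∀ᶠ T in atTop, |Pk (gθ θ L) T - L * min 1 θ| ≤ 1 / θ ^ 2 + (Real.log L + 61) := by
  have h1 := (Metric.tendsto_nhds.1 (Pk_gθ_lim (Aa_of_mont H) (θ := θ) (L := L) (by linarith))) 1
    one_pos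
  have h2 := pred_min hθ hL
  filter_upwards [h1] with T hT
  rw [Real.dist_eq] at hT
  have e : Pk (gθ θ L) T - L * min 1 θ = (Pk (gθ θ L) T - ∫ y in (0 : ℝ)..L, AG y * wθ θ L y) +
    ((∫ y in (0 : ℝ)..L, AG y * wθ θ L y) - L * min 1 θ) := by ring
  rw [e]
  refine (abs_add_le _ _).trans ?_
  linarith

end Q172.Diff
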