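import Pool.Agent.Q172.Diff.E4
import Pool.Agent.Y749.Rig.FFa

/-! Uniformity in the frequency, and Montgomery's function. -/

set_option autoImplicit false

open Filter Topology Set MeasureTheory
open scoped ContDiff

namespace Q172.Diff

open SG (ord NZ)
open H177.Lat (yy KK KK_sq KK_nonneg ee ee_norm ee_add ee_re ee_conj tri)
open Pool.Agent.Q276.UR (KK1_int)
open Pool.Agent.Q276.LR (TS cauchy_sum TS_sq)
open Pool.Agent.Y744 (Xf Xf_pos TK ct Q2 NTf mont_lim ct_eq_r)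
open Pool.Agent.Y750.OM (bl)
open Pool.Agent.Y749.Rig (ww ww_pos ww_le ww_sub ww_cont pd)
open Pool.Agent.Q276.NV (GG GG_smooth GG_nonneg GG_sq GG_int bl_GG int_TS Q2_conv exp_sum exp_dec)
open Q97.SS (kr kr_cos)

/-! ### Nets -/

lemma net {K : Set ℝ} (hK : IsCompact K) {Q : ℝ → ℝ → Prop}
    (h : ∀ θ ∈ K, ∃ δ : ℝ, 0 < δ ∧ ∀ᶠ T : ℝ in atTop, ∀ θ', |θ' - θ| < δ → Q θ' T) :
    ∀ᶠ T : ℝ in atTop, ∀ θ ∈ K, Q θ T := by
  refine hK.induction_on (p := fun s => ∀ᶠ T : ℝ in atTop, ∀ θ ∈ s, Q θ T) ?_ ?_ ?_ ?_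
  · exact Eventually.of_forall fun T θ hθ => absurd hθ (Set.notMem_empty _)
  · intro s t hst ht
    filter_upwards [ht] with T hT θ hθ
    exact hT θ (hst hθ)
  · intro s t hs ht
    filter_upwards [hs, ht] with T h1 h2 θ hθ
    rcases hθ with hθ | hθ
    · exact h1 θ hθ
    · exact h2 θ hθ
  · intro θ hθ
    obtain ⟨δ, hδ, h1⟩ := h θ hθ
    refine ⟨Metric.ball θ δ, mem_nhdsWithin_of_mem_nhds (Metric.ball_mem_nhds θ hδ), ?_⟩
    filter_upwards [h1] with T hT θ' hθ'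
    exact hT θ' (by rwa [Metric.mem_ball, Real.dist_eq] at hθ')

lemma gθ_lip {L : ℝ} (hL : 0 ≤ L) (θ θ' x : ℝ) :
    |gθ θ L x - gθ θ' L x| ≤ 2 * Real.pi * |θ - θ'| * L ^ 2 * (1 + L ^ 2) * c1 x := by
  have hpi := Real.pi_pos
  have hc0 : 0 ≤ c1 x := by unfold c1; positivity
  rcases le_or_gt L |x| with h | h
  · rw [gθ_out h, gθ_out h, sub_self, abs_zero]
    positivity
  · have h1 : 1 ≤ (1 + L ^ 2) * c1 x := by
      unfold c1
      rw [mul_one_div, le_div_iff₀ (by positivity), one_mul, ← sq_abs x]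
      have := pow_le_pow_left₀ (abs_nonneg x) h.le 2
      linarith
    have h2 : |Real.cos (2 * Real.pi * θ * x) - Real.cos (2 * Real.pi * θ' * x)| ≤
        2 * Real.pi * |θ - θ'| * L := by
      have h3 := Real.abs_cos_sub_cos_le (2 * Real.pi * θ * x) (2 * Real.pi * θ' * x)
      have e : 2 * Real.pi * θ * x - 2 * Real.pi * θ' * x = 2 * Real.pi * (θ - θ') * x := by ring
      rw [e, abs_mul, abs_mul, abs_of_pos (by positivity : 0 < 2 * Real.pi)] at h3
      exact h3.trans (mul_le_mul_of_nonneg_left h.le (by positivity))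
    have h4 : max 0 (L - |x|) ≤ L := max_le hL (by linarith [abs_nonneg x])
    unfold gθ
    rw [← sub_mul, abs_mul, abs_of_nonneg (le_max_left 0 (L - |x|))]
    calc |Real.cos (2 * Real.pi * θ * x) - Real.cos (2 * Real.pi * θ' * x)| * max 0 (L - |x|)
        ≤ (2 * Real.pi * |θ - θ'| * L) * L := mul_le_mul h2 h4 (le_max_left _ _) (by positivity)
      _ = 2 * Real.pi * |θ - θ'| * L ^ 2 * 1 := by ring
      _ ≤ 2 * Real.pi * |θ - θ'| * L ^ 2 * ((1 + L ^ 2) * c1 x) :=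
          mul_le_mul_of_nonneg_left h1 (by positivity)
      _ = _ := by ring

lemma Pk_lip : ∃ C0 T0 : ℝ, 0 ≤ C0 ∧ 20 ≤ T0 ∧ ∀ T : ℝ, T0 ≤ T → ∀ L : ℝ, 0 ≤ L → ∀ θ θ' : ℝ,
    |Pk (gθ θ L) T - Pk (gθ θ' L) T| ≤ 2 * Real.pi * |θ - θ'| * L ^ 2 * (1 + L ^ 2) * C0 := by
  obtain ⟨C0, T0, hC0, hT0, h⟩ := Pk_c1
  refine ⟨C0, T0, hC0, hT0, fun T hT L hL θ θ' => ?_⟩
  have hpi := Real.pi_pos
  rw [← Pk_sub]
  refine (Pk_abs _ (by linarith)).trans ((Pk_mono (gθ_lip hL θ θ') (by linarith)).trans ?_)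
  rw [Pk_mul]
  exact mul_le_mul_of_nonneg_left (h T hT) (by positivity)

/-- a bound at each frequency is uniform -/
theorem unif_of {K : Set ℝ} (hK : IsCompact K) {L B : ℝ} (hL : 1 ≤ L) {m : ℝ → ℝ}
    (hm : ∀ x y, |m x - m y| ≤ |x - y|)
    (h : ∀ θ ∈ K, ∀ᶠ T : ℝ in atTop, |Pk (gθ θ L) T - L * m θ| ≤ B) :
    ∀ᶠ T : ℝ in atTop, ∀ θ ∈ K, |Pk (gθ θ L) T - L * m θ| ≤ B + 1 := by
  obtain ⟨C0, T0, hC0, hT0, hl⟩ := Pk_lip
  have hpi := Real.pi_pos
  have hL0 : 0 < L := by linarith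
  set M := 2 * Real.pi * L ^ 2 * (1 + L ^ 2) * C0 + L with hM
  have hM0 : 0 < M := by positivity
  refine net hK fun θ hθ => ⟨1 / M, by positivity, ?_⟩
  filter_upwards [h θ hθ, eventually_ge_atTop T0] with T h1 h2 θ' h3
  have h4 := hl T h2 L hL0.le θ' θ
  have h5 := hm θ' θ
  have h6 := mul_le_mul_of_nonneg_left h5 hL0.le
  have h7 : |θ' - θ| * M ≤ 1 := by
    rw [lt_div_iff₀ hM0] at h3
    exact h3.le
  have e : Pk (gθ θ' L) T - L * m θ' = (Pk (gθ θ' L) T - Pk (gθ θ L) T) +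
      (Pk (gθ θ L) T - L * m θ) + -(L * (m θ' - m θ)) := by ring
  have a1 := abs_add_le ((Pk (gθ θ' L) T - Pk (gθ θ L) T) + (Pk (gθ θ L) T - L * m θ))
    (-(L * (m θ' - m θ)))
  have a2 := abs_add_le (Pk (gθ θ' L) T - Pk (gθ θ L) T) (Pk (gθ θ L) T - L * m θ)
  rw [abs_neg, abs_mul, abs_of_pos hL0] at a1
  rw [e]
  have e2 : |θ' - θ| * M = 2 * Real.pi * |θ' - θ| * L ^ 2 * (1 + L ^ 2) * C0 + L * |θ' - θ| := by
    rw [hM]; ring
  linarith

/-- under the conjecture -/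
theorem mont_unif (H : Q241.OP.Mont) {a b : ℝ} (ha : 0 < a) {L : ℝ} (hL : 1 ≤ L) :
    ∀ᶠ T : ℝ in atTop, ∀ θ ∈ Icc a b,
      |Pk (gθ θ L) T - L * min 1 θ| ≤ 1 / a ^ 2 + (Real.log L + 62) := by
  have h := unif_of (isCompact_Icc (a := a) (b := b)) (m := fun θ => min 1 θ)
    (B := 1 / a ^ 2 + (Real.log L + 61)) hL
    (fun x y => (abs_min_sub_min_le_max 1 x 1 y).trans (by
      rw [sub_self, abs_zero]
      exact max_le (abs_nonneg _) le_rfl)) (fun θ hθ => by
    have hθ0 : 0 < θ := ha.trans_le hθ.1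
    filter_upwards [mont_tri H hθ0 hL] with T hT
    have : 1 / θ ^ 2 ≤ 1 / a ^ 2 := by
      apply one_div_le_one_div_of_le (by positivity)
      exact pow_le_pow_left₀ ha.le hθ.1 2
    linarith)
  filter_upwards [h] with T hT θ hθ
  have := hT θ hθ
  linarith

/-- the explicit constant under the Riemann hypothesis -/
theorem TTθ_unif (RH : RiemannHypothesis) {ε : ℝ} (hε0 : 0 < ε) :
    ∃ C : ℝ, 0 ≤ C ∧ ∀ θ : ℝ, ε ≤ θ → θ + ε < 1 → ∀ L : ℝ, 1 ≤ L → ∀ᶠ T : ℝ in atTop,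
      |Pk (gθ θ L) T - L * θ| ≤ C := by
  obtain ⟨C, T0, hC, hT0, hexp⟩ := exp_sum
  have hpi := Real.pi_pos
  set K := 1 + 4 / ε ^ 2 with hK
  have hK0 : 0 < K := by positivity
  refine ⟨3 * K * (Real.pi * C) + K * Real.pi + 1, by positivity, fun θ hε1 hε2 L hL => ?_⟩
  have h0 : 0 < θ := by linarith
  have h1 : θ < 1 := by linarith
  have hθa : |θ| = θ := abs_of_pos h0
  have hL0 : 0 < L := by linarith
  have hlim := (Metric.tendsto_nhds.1 (mont_lim RH (sym_NTf (L := L) (θ := θ) hε0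
    (by rw [hθa]; exact hε2)))) 1 one_pos
  filter_upwards [hlim, eventually_ge_atTop T0] with T a1 hT
  have hX := Xf_pos (V := T) (by linarith)
  rw [Q2_conv, Real.dist_eq, sym_mont hε0 hε1 hε2.le] at a1
  have a2 := split_θ (L := L) (ε := ε) (θ := θ) hL0 hε0 (by rw [hθa]; exact h1.le)
    (Finset.Ioc 0 (NZ T)) (yy T)
  have a3 := hexp T hT
  have a4 := qq_mass hL0 hε0
  rw [← hK] at a2 a4
  rw [← TTθ_Pk]
  set S := ∑ n ∈ Finset.Ioc 0 (NZ T), ∑ m ∈ Finset.Ioc 0 (NZ T), bl (sym (qq L ε) θ) (yy T n - yy T m)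
    with hS
  have b1 : |TTθ θ T L / Xf T - S / Xf T| ≤ 3 * K * (Real.pi * C) := by
    rw [← sub_div, abs_div, abs_of_pos hX, div_le_iff₀ hX]
    refine a2.trans ?_
    have := mul_le_mul_of_nonneg_left (mul_le_mul_of_nonneg_left a3 hpi.le)
      (by positivity : 0 ≤ 3 * K)
    linarith
  have b2 : |θ * (∫ x, qq L ε x) - L * θ| ≤ K * Real.pi := by
    rw [mul_comm L, ← mul_sub, abs_mul, hθa]
    calc θ * |(∫ x, qq L ε x) - L| ≤ 1 * (K * Real.pi) :=
          mul_le_mul h1.le a4 (abs_nonneg _) zero_le_one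
      _ = _ := one_mul _
  have e : TTθ θ T L / Xf T - L * θ = (TTθ θ T L / Xf T - S / Xf T) +
      (S / Xf T - θ * ∫ x, qq L ε x) + (θ * (∫ x, qq L ε x) - L * θ) := by ring
  rw [e]
  have c1 := abs_add_le ((TTθ θ T L / Xf T - S / Xf T) + (S / Xf T - θ * ∫ x, qq L ε x))
    (θ * (∫ x, qq L ε x) - L * θ)
  have c2 := abs_add_le (TTθ θ T L / Xf T - S / Xf T) (S / Xf T - θ * ∫ x, qq L ε x)
  linarith

/-- under the Riemann hypothesis, between 0 and 1 -/
theorem rh_unif (RH : RiemannHypothesis) {a b : ℝ} (ha : 0 < a) (hb : b < 1) :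
    ∃ C : ℝ, 0 ≤ C ∧ ∀ L : ℝ, 1 ≤ L → ∀ᶠ T : ℝ in atTop, ∀ θ ∈ Icc a b,
      |Pk (gθ θ L) T - L * θ| ≤ C := by
  set ε := min a ((1 - b) / 2) with hε
  have hε0 : 0 < ε := lt_min ha (by linarith)
  obtain ⟨C, hC, h⟩ := TTθ_unif RH hε0
  refine ⟨C + 1, by positivity, fun L hL => ?_⟩
  refine unif_of (isCompact_Icc (a := a) (b := b)) (m := fun θ => θ) hL (fun x y => le_rfl)
    fun θ hθ => h θ ((min_le_left _ _).trans hθ.1) ?_ L hL
  have := min_le_right a ((1 - b) / 2)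
  rw [← hε] at this
  linarith [hθ.2]

/-! ### Montgomery's function -/

/-- Montgomery's function -/
noncomputable def Fw (T α : ℝ) : ℝ :=
  Pk (fun x => Real.cos (2 * Real.pi * α * x) * ww (2 * Real.pi * x / Real.log T)) T

lemma Fw_nonneg {T : ℝ} (hT : 1 < T) (α : ℝ) : 0 ≤ Fw T α := by
  have hl := Real.log_pos hT
  have hpi := Real.pi_pos
  unfold Fw Pk
  refine mul_nonneg (inv_nonneg.2 (Xf_pos hT).le) ?_
  have h := pd (Finset.Ioc 0 (NZ T)) (fun _ => 1) (fun n => 2 * Real.pi * yy T n / Real.log T)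
    (α * Real.log T)
  refine h.trans (le_of_eq ?_)
  refine Finset.sum_congr rfl fun n _ => Finset.sum_congr rfl fun m _ => ?_
  have e : α * Real.log T * (2 * Real.pi * yy T n / Real.log T - 2 * Real.pi * yy T m / Real.log T) =
      2 * Real.pi * α * (yy T n - yy T m) := by
    field_simp
  have e2 : 2 * Real.pi * yy T n / Real.log T - 2 * Real.pi * yy T m / Real.log T =
      2 * Real.pi * (yy T n - yy T m) / Real.log T := by ring
  rw [e, e2]
  ring

lemma Fw_even (T α : ℝ) : Fw T (-α) = Fw T α := by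
  unfold Fw
  congr 1
  funext x
  rw [show 2 * Real.pi * (-α) * x = -(2 * Real.pi * α * x) by ring, Real.cos_neg]

/-- pairing with Montgomery's function -/
lemma Fw_pair {h : ℝ → ℝ} (hh : Integrable h) (T : ℝ) :
    Integrable (fun α => h α * Fw T α) ∧
    ∫ α, h α * Fw T α = Pk (fun x => bl h x * ww (2 * Real.pi * x / Real.log T)) T := by
  have hc : ∀ x : ℝ, Integrable (fun θ => h θ * Real.cos (2 * Real.pi * θ * x)) := fun x =>
    hh.mul_bdd (c := 1) (by fun_prop) (Eventually.of_forall fun α => by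
      rw [Real.norm_eq_abs]; exact Real.abs_cos_le_one _)
  have e : (fun θ => h θ * Fw T θ) = fun θ => (Xf T)⁻¹ * ∑ n ∈ Finset.Ioc 0 (NZ T),
      ∑ m ∈ Finset.Ioc 0 (NZ T), (h θ * Real.cos (2 * Real.pi * θ * (yy T n - yy T m))) *
        ww (2 * Real.pi * (yy T n - yy T m) / Real.log T) := by
    funext θ
    unfold Fw Pk
    rw [← mul_assoc, mul_comm (h θ), mul_assoc]
    congr 1
    rw [Finset.mul_sum]
    refine Finset.sum_congr rfl fun n _ => ?_
    rw [Finset.mul_sum]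
    refine Finset.sum_congr rfl fun m _ => ?_
    ring
  rw [e]
  have i2 : ∀ n ∈ Finset.Ioc 0 (NZ T), Integrable (fun θ => ∑ m ∈ Finset.Ioc 0 (NZ T),
      (h θ * Real.cos (2 * Real.pi * θ * (yy T n - yy T m))) *
        ww (2 * Real.pi * (yy T n - yy T m) / Real.log T)) := fun n _ =>
    integrable_finsetSum _ fun m _ => (hc _).mul_const _
  refine ⟨(integrable_finsetSum _ i2).const_mul _, ?_⟩
  rw [integral_const_mul, integral_finsetSum _ i2]
  unfold Pk
  congr 1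
  refine Finset.sum_congr rfl fun n _ => ?_
  rw [integral_finsetSum _ fun m _ => (hc _).mul_const _]
  refine Finset.sum_congr rfl fun m _ => ?_
  rw [integral_mul_const]
  rfl

/-- the average of Montgomery's function against the Fejér kernel at `θ` -/
noncomputable def Fav (T L θ : ℝ) : ℝ := ∫ α, GG L (α - θ) * Fw T α

lemma Fav_eq {L : ℝ} (hL : 0 < L) (T θ : ℝ) : Fav T L θ =
    Pk (fun x => gθ θ L x * ww (2 * Real.pi * x / Real.log T)) T := by
  have i1 := Fw_pair ((GG_int hL).comp_sub_right θ) T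
  have i2 := Fw_pair ((GG_int hL).comp_add_right θ) T
  have i3 := Fw_pair (sym_int (GG_int hL) θ) T
  have e1 : ∫ α, GG L (α + θ) * Fw T α = Fav T L θ := by
    unfold Fav
    rw [← integral_neg_eq_self (fun α => GG L (α - θ) * Fw T α)]
    congr 1
    funext α
    rw [Fw_even, show -α - θ = -(α + θ) by ring, GG_even]
  have e2 : ∫ α, sym (GG L) θ α * Fw T α = Fav T L θ := by
    unfold sym
    have : ∀ α, 1 / 2 * (GG L (α - θ) + GG L (α + θ)) * Fw T α =
        1 / 2 * (GG L (α - θ) * Fw T α + GG L (α + θ) * Fw T α) := fun α => by ring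
    simp_rw [this]
    rw [integral_const_mul, integral_add i1.1 i2.1, e1]
    unfold Fav
    ring
  rw [← e2, i3.2]
  congr 1
  funext x
  rw [bl_sym (GG_int hL), bl_GG hL]
  rfl

/-- the weight is harmless -/
theorem Fav_close {L : ℝ} (hL : 1 ≤ L) : ∀ᶠ T : ℝ in atTop, ∀ θ : ℝ,
    |Pk (gθ θ L) T - Fav T L θ| ≤ 1 := by
  obtain ⟨C0, T0, hC0, hT0, h⟩ := Pk_c1
  have hpi := Real.pi_pos
  have hL0 : 0 < L := by linarith
  set A := L * (Real.pi * L) ^ 2 * (1 + L ^ 2) * C0 with hA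
  have hA0 : 0 ≤ A := by positivity
  have ev : ∀ᶠ T : ℝ in atTop, A + 1 ≤ Real.log T := Real.tendsto_log_atTop.eventually_ge_atTop _
  filter_upwards [ev, eventually_ge_atTop T0] with T h1 h2 θ
  have hl1 : 1 ≤ Real.log T := by linarith
  have hl : 0 < Real.log T := by linarith
  rw [Fav_eq hL0, ← Pk_sub]
  have hT : 1 < T := by linarith
  refine (Pk_abs _ hT).trans ?_
  have hpt : ∀ x, |gθ θ L x - gθ θ L x * ww (2 * Real.pi * x / Real.log T)| ≤
      L * (Real.pi * L / Real.log T) ^ 2 * (1 + L ^ 2) * c1 x := by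
    intro x
    have hc0 : 0 ≤ c1 x := by unfold c1; positivity
    rcases le_or_gt L |x| with h | h
    · rw [gθ_out h, zero_mul, sub_self, abs_zero]
      positivity
    · have h3 : 1 ≤ (1 + L ^ 2) * c1 x := by
        unfold c1
        rw [mul_one_div, le_div_iff₀ (by positivity), one_mul, ← sq_abs x]
        have := pow_le_pow_left₀ (abs_nonneg x) h.le 2
        linarith
      have h4 := ww_sub (2 * Real.pi * x / Real.log T)
      have h5 : (2 * Real.pi * x / Real.log T) ^ 2 / 4 ≤ (Real.pi * L / Real.log T) ^ 2 := by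
        have e : (2 * Real.pi * x / Real.log T) ^ 2 / 4 = (Real.pi / Real.log T) ^ 2 * |x| ^ 2 := by
          rw [sq_abs]; ring
        have e' : (Real.pi * L / Real.log T) ^ 2 = (Real.pi / Real.log T) ^ 2 * L ^ 2 := by ring
        rw [e, e']
        exact mul_le_mul_of_nonneg_left (pow_le_pow_left₀ (abs_nonneg x) h.le 2) (by positivity)
      have h6 : |gθ θ L x| ≤ L := by
        unfold gθ
        rw [abs_mul, abs_of_nonneg (le_max_left 0 (L - |x|))]
        calc |Real.cos (2 * Real.pi * θ * x)| * max 0 (L - |x|) ≤ 1 * L :=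
              mul_le_mul (Real.abs_cos_le_one _) (max_le hL0.le (by linarith [abs_nonneg x]))
                (le_max_left _ _) zero_le_one
          _ = L := one_mul L
      have e : gθ θ L x - gθ θ L x * ww (2 * Real.pi * x / Real.log T) =
          gθ θ L x * (1 - ww (2 * Real.pi * x / Real.log T)) := by ring
      rw [e, abs_mul]
      calc |gθ θ L x| * |1 - ww (2 * Real.pi * x / Real.log T)|
          ≤ L * (Real.pi * L / Real.log T) ^ 2 := mul_le_mul h6 (h4.trans h5) (abs_nonneg _) hL0.le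
        _ = L * (Real.pi * L / Real.log T) ^ 2 * 1 := by ring
        _ ≤ L * (Real.pi * L / Real.log T) ^ 2 * ((1 + L ^ 2) * c1 x) :=
            mul_le_mul_of_nonneg_left h3 (by positivity)
        _ = _ := by ring
  refine (Pk_mono hpt hT).trans ?_
  rw [Pk_mul]
  have h3 := mul_le_mul_of_nonneg_left (h T h2)
    (by positivity : 0 ≤ L * (Real.pi * L / Real.log T) ^ 2 * (1 + L ^ 2))
  refine h3.trans ?_
  have e : L * (Real.pi * L / Real.log T) ^ 2 * (1 + L ^ 2) * C0 = A / Real.log T ^ 2 := by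
    rw [hA]; field_simp
  rw [e, div_le_one (by positivity)]
  nlinarith

/-- the far part of the averages -/
lemma Fw_tail : ∃ C T0 : ℝ, 0 ≤ C ∧ 20 ≤ T0 ∧ ∀ T : ℝ, T0 ≤ T →
    Integrable (fun α => c1 α * Fw T α) ∧ ∫ α, c1 α * Fw T α ≤ C := by
  obtain ⟨C0, T0, hC0, hT0, h⟩ := Pk_c1
  have hpi := Real.pi_pos
  refine ⟨Real.pi * C0, T0, by positivity, hT0, fun T hT => ?_⟩
  have hT1 : 1 < T := by linarith
  have hi : Integrable c1 := by
    unfold c1
    simp_rw [one_div]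
    exact integrable_inv_one_add_sq
  obtain ⟨i1, e1⟩ := Fw_pair hi T
  refine ⟨i1, ?_⟩
  have hbl : ∀ x, bl c1 x = Real.pi * Real.exp (-(2 * Real.pi) * |x|) := by
    intro x
    have h1 := kr_cos (a := 2 * Real.pi) (by positivity) x
    rw [show -(2 * Real.pi) * |x| = -(2 * Real.pi * |x|) by ring, ← h1, ← integral_const_mul]
    unfold bl
    congr 1
    funext α
    have e : c1 α = Real.pi * kr (2 * Real.pi) α := by
      unfold c1 kr
      field_simp
      ring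
    rw [e, show 2 * Real.pi * α * x = 2 * Real.pi * x * α by ring]
    ring
  rw [e1]
  have h2 := h T hT
  refine (Pk_mono (k' := fun x => Real.pi * c1 x) (fun x => ?_) hT1).trans ?_
  · rw [hbl]
    have h3 := exp_dec x
    rw [abs_of_pos (Real.exp_pos _)] at h3
    have h4 := ww_le (2 * Real.pi * x / Real.log T)
    have h5 := ww_pos (2 * Real.pi * x / Real.log T)
    have h6 := Real.exp_pos (-(2 * Real.pi) * |x|)
    have hc : c1 x = 1 / (1 + x ^ 2) := rfl
    rw [hc]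
    calc Real.pi * Real.exp (-(2 * Real.pi) * |x|) * ww (2 * Real.pi * x / Real.log T)
        ≤ Real.pi * Real.exp (-(2 * Real.pi) * |x|) * 1 :=
          mul_le_mul_of_nonneg_left h4 (by positivity)
      _ ≤ Real.pi * (1 / (1 + x ^ 2)) := by
          rw [mul_one]; exact mul_le_mul_of_nonneg_left h3 hpi.le
  · rw [Pk_mul]
    exact mul_le_mul_of_nonneg_left h2 hpi.le

end Q172.Diff
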