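import Pool.Agent.Q172.Diff.E5

/-! Blocks of consecutive zeros. -/

set_option autoImplicit false

open Filter Topology Set MeasureTheory
open scoped ContDiff

namespace Q172.Diff

open SG (ord NZ)
open H177.Lat (yy KK KK_sq KK_nonneg ee ee_norm ee_add ee_re ee_conj tri)
open Pool.Agent.Y744 (Xf Xf_pos TK ct Q2 NTf mont_lim ct_eq_r)
open Pool.Agent.Y750.OM (bl)
open Pool.Agent.Q276.NV (GG GG_smooth GG_nonneg GG_sq GG_int bl_GG end_count logpow_lim)

/-- position windows, uniformly in the weights -/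
theorem pos_unif {L : ℝ} (hL : 1 ≤ L) : ∀ᶠ T : ℝ in atTop, ∀ z : ℕ → ℂ, (∀ j, ‖z j‖ ≤ 1) →
    |1 / Xf T * (∫ t in (0:ℝ)..(Xf T), ‖Uw (nT T) z L t‖ ^ 2) -
      (Xf T)⁻¹ * ∑ i ∈ Finset.Ioc 0 (NZ T), ∑ j ∈ Finset.Ioc 0 (NZ T),
        (z i * (starRingEnd ℂ) (z j)).re * max 0 (L - |yy T i - yy T j|)| ≤ 1 := by
  obtain ⟨C1, T1, hC1, hT1, hend⟩ := end_count
  have hpi := Real.pi_gt_three
  have hpi2 := Real.pi_lt_d2
  have hL0 : 0 < L := by linarith
  have ev1 : ∀ᶠ T : ℝ in atTop, L * (C1 * Real.log T ^ 2) ^ 2 ≤ Xf T := by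
    have h1 := logpow_lim (L * C1 ^ 2) 4
    have h2 := (Metric.tendsto_nhds.1 h1) 1 one_pos
    filter_upwards [h2, eventually_gt_atTop (Real.exp 7)] with T a1 a3
    have hT0 : 0 < T := (Real.exp_pos _).trans a3
    have hlog : 7 < Real.log T := (Real.lt_log_iff_exp_lt hT0).2 a3
    rw [Real.dist_eq, sub_zero] at a1
    have a4 := (abs_lt.1 a1).2
    rw [mul_div_assoc', div_lt_iff₀ hT0] at a4
    have a5 : T ≤ Xf T := by
      unfold Xf
      rw [le_div_iff₀ (by positivity)]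
      exact mul_le_mul_of_nonneg_left (by linarith) hT0.le
    calc L * (C1 * Real.log T ^ 2) ^ 2 = L * C1 ^ 2 * Real.log T ^ 4 := by ring
      _ ≤ 1 * T := a4.le
      _ ≤ Xf T := by linarith
  have ev2 : ∀ᶠ T : ℝ in atTop, 7 * L ≤ Real.log T := Real.tendsto_log_atTop.eventually_ge_atTop _
  have ev3 : ∀ᶠ T : ℝ in atTop, 7 * L < ord 1 * Real.log T :=
    (Real.tendsto_log_atTop.const_mul_atTop (SG.ord_pos le_rfl)).eventually_gt_atTop _
  have ev4 : ∀ᶠ T : ℝ in atTop, L ≤ Xf T := Xf_tendsto.eventually_ge_atTop _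
  filter_upwards [ev1, ev2, ev3, ev4, eventually_ge_atTop (max T1 20)] with T a2 a3 a4 a5 a6 z hz
  have hT1' : T1 ≤ T := (le_max_left _ _).trans a6
  have hT20 : 20 ≤ T := (le_max_right _ _).trans a6
  have hlog : 0 < Real.log T := Real.log_pos (by linarith)
  have hX := Xf_pos (V := T) (by linarith)
  have F := flowT (T := T) (by linarith)
  have hx1 : L < yy T 1 := by
    unfold yy
    rw [lt_div_iff₀ (by positivity)]
    have h1 : L * (2 * Real.pi) ≤ L * 7 := mul_le_mul_of_nonneg_left (by linarith) hL0.le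
    linarith
  have key := F.win_sq hz (L := L) (X := Xf T) hL0.le a5 hx1
  have hnX : nT T (Xf T) = NZ T := by
    unfold nT Xf
    congr 1
    field_simp
  have hst : 2 * Real.pi / Real.log T * L ≤ 1 := by
    rw [div_mul_eq_mul_div, div_le_one hlog]
    have h1 : (2 * Real.pi) * L ≤ 7 * L := mul_le_mul_of_nonneg_right (by linarith) hL0.le
    linarith
  have hst0 : 0 ≤ 2 * Real.pi / Real.log T * L := by positivity
  have hTX : 2 * Real.pi / Real.log T * Xf T = T := by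
    unfold Xf
    field_simp
  have b1 : (nT T (Xf T + L) : ℝ) ≤ NZ (T + 1) := by
    unfold nT
    have : 2 * Real.pi / Real.log T * (Xf T + L) ≤ T + 1 := by
      rw [mul_add, hTX]; linarith
    exact_mod_cast SG.NZ_mono this
  have b2 : (NZ (T - 2) : ℝ) ≤ nT T (Xf T - L) := by
    unfold nT
    have : T - 2 ≤ 2 * Real.pi / Real.log T * (Xf T - L) := by
      rw [mul_sub, hTX]; linarith
    exact_mod_cast SG.NZ_mono this
  have b3 : (0:ℝ) ≤ (nT T (Xf T + L) : ℝ) - nT T (Xf T - L) := by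
    have : nT T (Xf T - L) ≤ nT T (Xf T + L) := F.mono_n (by linarith)
    have : (nT T (Xf T - L) : ℝ) ≤ nT T (Xf T + L) := by exact_mod_cast this
    linarith
  have b4 : (nT T (Xf T + L) : ℝ) - nT T (Xf T - L) ≤ C1 * Real.log T ^ 2 := by
    have := hend T hT1'
    linarith
  have b5 : L * ((nT T (Xf T + L) : ℝ) - nT T (Xf T - L)) ^ 2 ≤ Xf T :=
    (mul_le_mul_of_nonneg_left (pow_le_pow_left₀ b3 b4 2) hL0.le).trans a2
  rw [hnX] at key
  rw [one_div, ← mul_sub, abs_mul, abs_of_pos (inv_pos.2 hX), inv_mul_le_iff₀ hX]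
  linarith

/-- the mean square over the blocks of `L` consecutive zeros -/
noncomputable def VV (θ T : ℝ) (L : ℕ) : ℝ :=
  1 / NZ T * ∑ m ∈ Finset.Icc 1 (NZ T), ‖Wz (zw θ T) L m‖ ^ 2

/-- the mean square over the position windows -/
noncomputable def PP (θ T L : ℝ) : ℝ :=
  1 / Xf T * ∫ t in (0:ℝ)..(Xf T), ‖Uw (nT T) (zw θ T) L t‖ ^ 2

lemma VV_nonneg (θ T : ℝ) (L : ℕ) : 0 ≤ VV θ T L := by
  unfold VV
  positivity

lemma PP_nonneg (θ : ℝ) {T : ℝ} (hT : 1 < T) (L : ℝ) : 0 ≤ PP θ T L := by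
  have hX := Xf_pos hT
  exact mul_nonneg (by positivity)
    (intervalIntegral.integral_nonneg hX.le fun t _ => sq_nonneg _)

theorem PP_Pk {L : ℝ} (hL : 1 ≤ L) : ∀ᶠ T : ℝ in atTop, ∀ θ : ℝ, |PP θ T L - Pk (gθ θ L) T| ≤ 1 := by
  filter_upwards [pos_unif hL] with T h θ
  have h1 := h (zw θ T) (zw_norm θ T)
  have e : Pk (gθ θ L) T = (Xf T)⁻¹ * ∑ i ∈ Finset.Ioc 0 (NZ T), ∑ j ∈ Finset.Ioc 0 (NZ T),
      (zw θ T i * (starRingEnd ℂ) (zw θ T j)).re * max 0 (L - |yy T i - yy T j|) := by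
    unfold Pk
    congr 1
    exact Finset.sum_congr rfl fun i _ => Finset.sum_congr rfl fun j _ => by rw [zw_re]; rfl
  rw [e]
  exact h1

theorem VV_PP : ∃ C : ℝ, 0 ≤ C ∧ ∀ L : ℕ, 1 ≤ L → ∀ᶠ T : ℝ in atTop, ∀ θ : ℝ,
    |√(VV θ T L) - √(PP θ T L)| ≤ C * (1 + Real.log L) := by
  obtain ⟨C, hC, h⟩ := idx_pos_zeta
  refine ⟨C, hC, fun L hL => ?_⟩
  filter_upwards [h L hL] with T hT θ
  rw [abs_sub_comm]
  exact hT (zw θ T) (zw_norm θ T)

lemma sqrt_close1 {x y : ℝ} (hx : 0 ≤ x) (hy : 0 ≤ y) : |√x - √y| ≤ √|x - y| := by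
  apply Real.le_sqrt_of_sq_le
  have h1 := Real.mul_self_sqrt hx
  have h2 := Real.mul_self_sqrt hy
  have h3 := Real.sqrt_nonneg x
  have h4 := Real.sqrt_nonneg y
  have e : x - y = (√x - √y) * (√x + √y) := by linear_combination -h1 + h2
  rw [sq]
  conv_rhs => rw [e, abs_mul]
  refine mul_le_mul_of_nonneg_left ?_ (abs_nonneg _)
  rw [abs_of_nonneg (by positivity : 0 ≤ √x + √y), abs_le]
  constructor <;> linarith

lemma sqrt_close2 {x y s B : ℝ} (hx : 0 ≤ x) (hs : 0 < s) (hy : s ≤ y) (h : |x - y| ≤ B) :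
    |√x - √y| ≤ B / √s := by
  have hs1 : 0 < √s := Real.sqrt_pos.2 hs
  have h1 := Real.mul_self_sqrt hx
  have h2 := Real.mul_self_sqrt (hs.le.trans hy)
  have h3 := Real.sqrt_nonneg x
  have h5 : √s ≤ √y := Real.sqrt_le_sqrt hy
  rw [le_div_iff₀ hs1]
  have e : x - y = (√x - √y) * (√x + √y) := by linear_combination -h1 + h2
  rw [e, abs_mul, abs_of_nonneg (by linarith : 0 ≤ √x + √y)] at h
  have h6 : |√x - √y| * √s ≤ |√x - √y| * (√x + √y) :=
    mul_le_mul_of_nonneg_left (by linarith) (abs_nonneg _)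
  linarith

lemma Fav_nonneg {T : ℝ} (hT : 1 < T) (L θ : ℝ) : 0 ≤ Fav T L θ :=
  integral_nonneg fun _ => mul_nonneg (GG_nonneg _ _) (Fw_nonneg hT _)

/-- **blocks of consecutive zeros and averages of Montgomery's function** -/
theorem idx_Fav : ∃ C : ℝ, 0 ≤ C ∧ ∀ L : ℕ, 1 ≤ L → ∀ᶠ T : ℝ in atTop, ∀ θ : ℝ,
    |√(VV θ T L) - √(Fav T L θ)| ≤ C * (1 + Real.log L) := by
  obtain ⟨C, hC, h⟩ := VV_PP
  refine ⟨C + 2, by positivity, fun L hL => ?_⟩
  have hL1 : (1:ℝ) ≤ L := by exact_mod_cast hL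
  have hlL : 0 ≤ Real.log L := Real.log_nonneg hL1
  filter_upwards [h L hL, PP_Pk hL1, Fav_close hL1, eventually_gt_atTop 1] with T a1 a2 a3 hT θ
  have b1 := a1 θ
  have b2 := a2 θ
  have b3 := a3 θ
  have b4 : |√(PP θ T L) - √(Fav T L θ)| ≤ 2 := by
    refine (sqrt_close1 (PP_nonneg θ hT L) (Fav_nonneg hT L θ)).trans ?_
    rw [Real.sqrt_le_left (by norm_num)]
    have := abs_sub_le (PP θ T L) (Pk (gθ θ L) T) (Fav T L θ)
    linarith
  have b5 := abs_sub_le (√(VV θ T L)) (√(PP θ T L)) (√(Fav T L θ))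
  nlinarith

/-- the step from the triangle sums to the blocks -/
lemma idx_of_tri {K : Set ℝ} {m : ℝ → ℝ} {s : ℝ} (hs : 0 < s) (hm : ∀ θ ∈ K, s ≤ m θ) {B : ℝ}
    (hB : 0 ≤ B) (h : ∀ L : ℝ, 1 ≤ L → ∀ᶠ T : ℝ in atTop, ∀ θ ∈ K,
      |Pk (gθ θ L) T - L * m θ| ≤ B * (1 + Real.log L)) :
    ∃ C : ℝ, 0 ≤ C ∧ ∀ L : ℕ, 1 ≤ L → ∀ᶠ T : ℝ in atTop, ∀ θ ∈ K,
      |√(VV θ T L) - √(m θ * L)| ≤ C * (1 + Real.log L) := by
  obtain ⟨C, hC, h'⟩ := VV_PP
  refine ⟨C + (B + 1) / √s, by positivity, fun L hL => ?_⟩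
  have hL1 : (1:ℝ) ≤ L := by exact_mod_cast hL
  have hlL : 0 ≤ Real.log L := Real.log_nonneg hL1
  filter_upwards [h' L hL, PP_Pk hL1, h L hL1, eventually_gt_atTop 1] with T a1 a2 a3 hT θ hθ
  have b1 := a1 θ
  have b2 := a2 θ
  have b3 := a3 θ hθ
  have hmθ := hm θ hθ
  have hsm : s ≤ m θ * L := by nlinarith
  have b4 : |PP θ T L - m θ * L| ≤ (B + 1) * (1 + Real.log L) := by
    have := abs_sub_le (PP θ T L) (Pk (gθ θ L) T) (m θ * L)
    rw [mul_comm (L:ℝ)] at b3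
    nlinarith
  have b5 := sqrt_close2 (PP_nonneg θ hT L) hs hsm b4
  have b6 := abs_sub_le (√(VV θ T L)) (√(PP θ T L)) (√(m θ * L))
  have e : (C + (B + 1) / √s) * (1 + Real.log L) = C * (1 + Real.log L) +
    (B + 1) * (1 + Real.log L) / √s := by ring
  rw [e]
  linarith

theorem idx_mont (H : Q241.OP.Mont) {a b : ℝ} (ha : 0 < a) :
    ∃ C : ℝ, 0 ≤ C ∧ ∀ L : ℕ, 1 ≤ L → ∀ᶠ T : ℝ in atTop, ∀ θ ∈ Icc a b,
      |√(VV θ T L) - √(min 1 θ * L)| ≤ C * (1 + Real.log L) := by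
  refine idx_of_tri (s := min 1 a) (lt_min one_pos ha)
    (fun θ hθ => min_le_min le_rfl hθ.1) (B := 1 / a ^ 2 + 62) (by positivity) fun L hL => ?_
  have hlL : 0 ≤ Real.log L := Real.log_nonneg hL
  filter_upwards [mont_unif H (b := b) ha hL] with T hT θ hθ
  refine (hT θ hθ).trans ?_
  have : 0 ≤ (1 / a ^ 2 + 61) * Real.log L := by positivity
  linarith

theorem idx_rh (RH : RiemannHypothesis) {a b : ℝ} (ha : 0 < a) (hb : b < 1) :
    ∃ C : ℝ, 0 ≤ C ∧ ∀ L : ℕ, 1 ≤ L → ∀ᶠ T : ℝ in atTop, ∀ θ ∈ Icc a b,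
      |√(VV θ T L) - √(θ * L)| ≤ C * (1 + Real.log L) := by
  obtain ⟨B, hB, h⟩ := rh_unif RH ha hb
  refine idx_of_tri (m := fun θ => θ) ha (fun θ hθ => hθ.1) hB fun L hL => ?_
  have hlL : 0 ≤ Real.log L := Real.log_nonneg hL
  filter_upwards [h L hL] with T hT θ hθ
  refine (hT θ hθ).trans ?_
  nlinarith

/-- the strong form -/
theorem Fav_strong (H : ∀ A : ℝ, 1 < A → ∀ ε : ℝ, 0 < ε → ∀ᶠ T : ℝ in atTop,
    ∀ α ∈ Icc 1 A, |Fw T α - 1| ≤ ε) {a b : ℝ} (ha : 1 < a) :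
    ∃ C : ℝ, 0 ≤ C ∧ ∀ L : ℝ, 1 ≤ L → ∀ᶠ T : ℝ in atTop, ∀ θ ∈ Icc a b,
      |Fav T L θ - L| ≤ C := by
  obtain ⟨C0, T0, hC0, hT0, htail⟩ := Fw_tail
  have hpi := Real.pi_pos
  set δ := min (a - 1) 1 with hδ
  have hδ0 : 0 < δ := lt_min (by linarith) one_pos
  set K := 2 + (1 + 2 * b ^ 2) / δ ^ 2 with hK
  have hK0 : 0 < K := by positivity
  refine ⟨1 + K * (C0 + Real.pi), by positivity, fun L hL => ?_⟩
  have hL0 : 0 < L := by linarith
  filter_upwards [H (|b| + 2) (by linarith [abs_nonneg b]) (1 / L) (by positivity),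
    eventually_ge_atTop T0] with T h1 h2 θ hθ
  have hT : 1 < T := by linarith
  have hθ1 : 1 < θ := ha.trans_le hθ.1
  obtain ⟨i1, e1⟩ := htail T h2
  have i2 := (GG_int hL0).comp_sub_right θ
  have i3 := (Fw_pair i2 T).1
  have hc1 : Integrable c1 := by
    unfold c1
    simp_rw [one_div]
    exact integrable_inv_one_add_sq
  have hc1v : ∫ α, c1 α = Real.pi := by
    unfold c1
    simp_rw [one_div]
    exact integral_univ_inv_one_add_sq
  have hGL : ∫ α, GG L (α - θ) = L := by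
    rw [integral_sub_right_eq_self (GG L) θ]
    have h3 := bl_GG hL0 0
    unfold bl at h3
    simp only [mul_zero, Real.cos_zero, mul_one, abs_zero, sub_zero] at h3
    rw [h3, max_eq_right hL0.le]
  have e2 : Fav T L θ - L = ∫ α, GG L (α - θ) * (Fw T α - 1) := by
    have : ∀ α, GG L (α - θ) * (Fw T α - 1) = GG L (α - θ) * Fw T α - GG L (α - θ) := fun α => by
      ring
    simp_rw [this]
    rw [integral_sub i3 i2, hGL]
    rfl
  have i4 : Integrable fun α => 1 / L * GG L (α - θ) + (K * (c1 α * Fw T α) + K * c1 α) :=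
    (i2.const_mul _).add ((i1.const_mul _).add (hc1.const_mul _))
  have h5 : |∫ α, GG L (α - θ) * (Fw T α - 1)| ≤
      ∫ α, (1 / L * GG L (α - θ) + (K * (c1 α * Fw T α) + K * c1 α)) := by
    rw [← Real.norm_eq_abs]
    refine norm_integral_le_of_norm_le i4 (Eventually.of_forall fun α => ?_)
    have g0 := GG_nonneg L (α - θ)
    have f0 := Fw_nonneg hT α
    have hc0 : 0 ≤ c1 α := by unfold c1; positivity
    rw [Real.norm_eq_abs, abs_mul, abs_of_nonneg g0]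
    by_cases hα : α ∈ Icc 1 (|b| + 2)
    · have h6 := mul_le_mul_of_nonneg_left (h1 α hα) g0
      have h7 : 0 ≤ K * (c1 α * Fw T α) + K * c1 α := by positivity
      linarith
    · have hd : δ ≤ |α - θ| := by
        rw [Set.mem_Icc, not_and_or] at hα
        rcases hα with h6 | h6
        · push Not at h6
          rw [abs_of_neg (by linarith)]
          have := min_le_left (a - 1) 1
          rw [← hδ] at this
          linarith [hθ.1]
        · push Not at h6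
          have hb := le_abs_self b
          rw [abs_of_pos (by linarith [hθ.2])]
          have := min_le_right (a - 1) 1
          rw [← hδ] at this
          linarith [hθ.2]
      have hd2 : δ ^ 2 ≤ (α - θ) ^ 2 := by
        rw [← sq_abs (α - θ)]
        exact pow_le_pow_left₀ hδ0.le hd 2
      have h8 : 1 + α ^ 2 ≤ K * (α - θ) ^ 2 := by
        have k1 : 1 + 2 * b ^ 2 ≤ (1 + 2 * b ^ 2) / δ ^ 2 * (α - θ) ^ 2 := by
          rw [div_mul_eq_mul_div, le_div_iff₀ (by positivity)]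
          exact mul_le_mul_of_nonneg_left hd2 (by positivity)
        have k2 : θ ^ 2 ≤ b ^ 2 := pow_le_pow_left₀ (by linarith) hθ.2 2
        have k3 : α ^ 2 ≤ 2 * (α - θ) ^ 2 + 2 * θ ^ 2 := by nlinarith [sq_nonneg (α - 2 * θ)]
        rw [hK]
        nlinarith
      have h9 : GG L (α - θ) ≤ K * c1 α := by
        have g1 := GG_sq L (α - θ)
        unfold c1
        rw [mul_one_div, le_div_iff₀ (by positivity)]
        calc GG L (α - θ) * (1 + α ^ 2) ≤ GG L (α - θ) * (K * (α - θ) ^ 2) :=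
              mul_le_mul_of_nonneg_left h8 g0
          _ = K * ((α - θ) ^ 2 * GG L (α - θ)) := by ring
          _ ≤ K * 1 := mul_le_mul_of_nonneg_left g1 hK0.le
          _ = K := mul_one K
      have h10 : |Fw T α - 1| ≤ Fw T α + 1 := by
        rw [abs_le]
        constructor <;> linarith
      have h11 : GG L (α - θ) * |Fw T α - 1| ≤ (K * c1 α) * (Fw T α + 1) :=
        mul_le_mul h9 h10 (abs_nonneg _) (by positivity)
      have h12 : 0 ≤ 1 / L * GG L (α - θ) := by positivity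
      have e5 : (K * c1 α) * (Fw T α + 1) = K * (c1 α * Fw T α) + K * c1 α := by ring
      linarith
  have i5 : Integrable fun α => K * (c1 α * Fw T α) + K * c1 α :=
    (i1.const_mul _).add (hc1.const_mul _)
  rw [integral_add (i2.const_mul _) i5,
    integral_add (i1.const_mul _) (hc1.const_mul _), integral_const_mul, integral_const_mul,
    integral_const_mul, hGL, hc1v] at h5
  rw [e2]
  refine h5.trans ?_
  have h6 : 1 / L * L = 1 := by field_simp
  have h7 := mul_le_mul_of_nonneg_left e1 hK0.le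
  rw [h6]
  linarith

theorem idx_strong (H : ∀ A : ℝ, 1 < A → ∀ ε : ℝ, 0 < ε → ∀ᶠ T : ℝ in atTop,
    ∀ α ∈ Icc 1 A, |Fw T α - 1| ≤ ε) {a b : ℝ} (ha : 1 < a) :
    ∃ C : ℝ, 0 ≤ C ∧ ∀ L : ℕ, 1 ≤ L → ∀ᶠ T : ℝ in atTop, ∀ θ ∈ Icc a b,
      |√(VV θ T L) - √L| ≤ C * (1 + Real.log L) := by
  obtain ⟨B, hB, h⟩ := Fav_strong H (b := b) ha
  have h1 := idx_of_tri (K := Icc a b) (m := fun _ => 1) (s := 1) one_pos (fun _ _ => le_rfl)
    (B := B + 1) (by positivity) fun L hL => by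
      have hlL : 0 ≤ Real.log L := Real.log_nonneg hL
      filter_upwards [h L hL, Fav_close hL] with T a1 a2 θ hθ
      have b1 := a1 θ hθ
      have b2 := a2 θ
      rw [mul_one]
      have := abs_sub_le (Pk (gθ θ L) T) (Fav T L θ) L
      nlinarith
  obtain ⟨C, hC, h2⟩ := h1
  refine ⟨C, hC, fun L hL => ?_⟩
  filter_upwards [h2 L hL] with T hT θ hθ
  have := hT θ hθ
  rwa [one_mul] at this

/-- one-sided bounds for the blocks -/
def Iup : Prop := ∀ a b : ℝ, 0 < a → a < b → ∀ ε : ℝ, 0 < ε → ∀ L0 : ℕ, ∃ L : ℕ, L0 ≤ L ∧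
  ∀ᶠ T : ℝ in atTop, ∀ θ ∈ Icc a b, VV θ T L ≤ (min 1 θ + ε) * L

lemma uu_lim : Tendsto (fun L : ℝ => (1 + Real.log L) ^ 2 / L) atTop (𝓝 0) := by
  have h0 := logpow_lim 1 0
  have h1 := logpow_lim 2 1
  have h2 := logpow_lim 1 2
  have h3 := (h0.add h1).add h2
  simp only [add_zero] at h3
  refine h3.congr fun L => ?_
  ring

theorem Hup_of (H : Iup) : Hup := by
  intro a b ha hab ε hε L0
  obtain ⟨C, hC, h⟩ := VV_PP
  have hq : Tendsto (fun L : ℝ => 2 * C * (√(1 + ε) * √((1 + Real.log L) ^ 2 / L)) +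
      C ^ 2 * ((1 + Real.log L) ^ 2 / L) + 1 * (1 / L)) atTop (𝓝 0) := by
    have h1 := uu_lim
    have h2 : Tendsto (fun L : ℝ => √((1 + Real.log L) ^ 2 / L)) atTop (𝓝 0) := by
      have := h1.sqrt
      rwa [Real.sqrt_zero] at this
    have h3 : Tendsto (fun L : ℝ => 1 / L) atTop (𝓝 0) := tendsto_const_nhds.div_atTop tendsto_id
    have h4 := (((h2.const_mul (√(1 + ε))).const_mul (2 * C)).add (h1.const_mul (C ^ 2))).add
      (h3.const_mul 1)
    simpa using h4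
  obtain ⟨L1, hL1⟩ := ((tendsto_order.1 hq).2 (ε / 2) (by positivity)).exists_forall_of_atTop
  obtain ⟨L, hL, hev⟩ := H a b ha hab (ε / 2) (by positivity) (max 1 (max ⌈L0⌉₊ ⌈L1⌉₊))
  have hLn : 1 ≤ L := (le_max_left _ _).trans hL
  have hLr : (1:ℝ) ≤ L := by exact_mod_cast hLn
  have hLp : (0:ℝ) < L := by linarith
  have hL0 : L0 ≤ L := (Nat.le_ceil L0).trans (by
    exact_mod_cast ((le_max_left _ _).trans (le_max_right _ _)).trans hL)
  have hL1' : L1 ≤ L := (Nat.le_ceil L1).trans (by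
    exact_mod_cast ((le_max_right _ _).trans (le_max_right _ _)).trans hL)
  have hlL : 0 ≤ Real.log L := Real.log_nonneg hLr
  refine ⟨L, hL0, ?_⟩
  filter_upwards [hev, h L hLn, PP_Pk hLr, eventually_gt_atTop 1] with T a1 a2 a3 hT θ hθ
  have hθ0 : 0 < θ := ha.trans_le hθ.1
  have b1 := a1 θ hθ
  have b2 := (abs_le.1 (a2 θ)).1
  have b3 := (abs_le.1 (a3 θ)).1
  have hm1 : min 1 θ ≤ 1 := min_le_left _ _
  set u := 1 + Real.log L with hu
  have hu0 : 0 < u := by linarith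
  have hv : VV θ T L ≤ (1 + ε) * L := b1.trans (mul_le_mul_of_nonneg_right (by linarith) hLp.le)
  have hsv : √(VV θ T L) ≤ √(1 + ε) * √L := by
    rw [← Real.sqrt_mul (by positivity)]
    exact Real.sqrt_le_sqrt hv
  have hP : √(PP θ T L) ≤ √(VV θ T L) + C * u := by linarith
  have hP2 : PP θ T L ≤ VV θ T L + 2 * C * u * (√(1 + ε) * √L) + C ^ 2 * u ^ 2 := by
    have q1 := Real.sq_sqrt (PP_nonneg θ hT L)
    have q2 := Real.sq_sqrt (VV_nonneg θ T L)
    have q3 := pow_le_pow_left₀ (Real.sqrt_nonneg _) hP 2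
    have q4 : 2 * C * u * √(VV θ T L) ≤ 2 * C * u * (√(1 + ε) * √L) :=
      mul_le_mul_of_nonneg_left hsv (by positivity)
    nlinarith
  have hq2 := hL1 L hL1'
  have hsL : √L * √L = L := Real.mul_self_sqrt hLp.le
  have hsL0 : 0 < √(L:ℝ) := Real.sqrt_pos.2 hLp
  have e1 : √(u ^ 2 / L) = u / √L := by
    rw [Real.sqrt_div (by positivity), Real.sqrt_sq hu0.le]
  rw [e1] at hq2
  have hq3 := mul_lt_mul_of_pos_right hq2 hLp
  have e2 : (2 * C * (√(1 + ε) * (u / √L)) + C ^ 2 * (u ^ 2 / L) + 1 * (1 / L)) * L =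
      2 * C * u * (√(1 + ε) * √L) + C ^ 2 * u ^ 2 + 1 := by
    have e3 : (2 * C * (√(1 + ε) * (u / √L)) + C ^ 2 * (u ^ 2 / L) + 1 * (1 / L)) * L =
      2 * C * u * (√(1 + ε) * (L / √L)) + C ^ 2 * u ^ 2 * (L / L) + L / L := by ring
    have e4 : (L:ℝ) / √L = √L := by
      rw [div_eq_iff hsL0.ne']
      exact hsL.symm
    rw [e3, e4, div_self hLp.ne', mul_one]
  rw [e2] at hq3
  unfold Gf
  rw [div_le_iff₀ hLp]
  linarith

theorem Iup_of (H : Q241.OP.Mont) : Iup := by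
  intro a b ha hab ε hε L0
  obtain ⟨C, hC, h⟩ := idx_mont H (b := b) ha
  have hq : Tendsto (fun L : ℝ => 2 * C * √((1 + Real.log L) ^ 2 / L) +
      C ^ 2 * ((1 + Real.log L) ^ 2 / L)) atTop (𝓝 0) := by
    have h1 := uu_lim
    have h2 : Tendsto (fun L : ℝ => √((1 + Real.log L) ^ 2 / L)) atTop (𝓝 0) := by
      have := h1.sqrt
      rwa [Real.sqrt_zero] at this
    have h4 := (h2.const_mul (2 * C)).add (h1.const_mul (C ^ 2))
    simpa using h4
  obtain ⟨L1, hL1⟩ := ((tendsto_order.1 hq).2 ε hε).exists_forall_of_atTop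
  set L := max 1 (max L0 ⌈L1⌉₊) with hLdef
  have hLn : 1 ≤ L := le_max_left _ _
  have hLr : (1:ℝ) ≤ L := by exact_mod_cast hLn
  have hLp : (0:ℝ) < L := by linarith
  have hL1' : L1 ≤ L := (Nat.le_ceil L1).trans (by
    exact_mod_cast (le_max_right _ _).trans (le_max_right _ _))
  refine ⟨L, (le_max_left _ _).trans (le_max_right _ _), ?_⟩
  filter_upwards [h L hLn] with T a1 θ hθ
  have hθ0 : 0 < θ := ha.trans_le hθ.1
  have hm0 : 0 ≤ min 1 θ := le_min zero_le_one hθ0.le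
  have hm1 : min 1 θ ≤ 1 := min_le_left _ _
  have b2 := (abs_le.1 (a1 θ hθ)).2
  set u := 1 + Real.log L with hu
  have hu0 : 0 < u := by
    have := Real.log_nonneg hLr
    linarith
  have hsL : √L * √L = L := Real.mul_self_sqrt hLp.le
  have hsL0 : 0 < √(L:ℝ) := Real.sqrt_pos.2 hLp
  have hsm : √(min 1 θ * L) ≤ √L := Real.sqrt_le_sqrt (mul_le_of_le_one_left hLp.le hm1)
  have hP : √(VV θ T L) ≤ √(min 1 θ * L) + C * u := by linarith
  have hP2 : VV θ T L ≤ min 1 θ * L + 2 * C * u * √L + C ^ 2 * u ^ 2 := by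
    have q1 := Real.sq_sqrt (VV_nonneg θ T L)
    have q2 := Real.sq_sqrt (mul_nonneg hm0 hLp.le)
    have q3 := pow_le_pow_left₀ (Real.sqrt_nonneg _) hP 2
    have q4 : 2 * C * u * √(min 1 θ * L) ≤ 2 * C * u * √L :=
      mul_le_mul_of_nonneg_left hsm (by positivity)
    nlinarith
  have hq2 := hL1 L hL1'
  have e1 : √(u ^ 2 / L) = u / √L := by
    rw [Real.sqrt_div (by positivity), Real.sqrt_sq hu0.le]
  rw [e1] at hq2
  have hq3 := mul_lt_mul_of_pos_right hq2 hLp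
  have e2 : (2 * C * (u / √L) + C ^ 2 * (u ^ 2 / L)) * L = 2 * C * u * √L + C ^ 2 * u ^ 2 := by
    have e3 : (2 * C * (u / √L) + C ^ 2 * (u ^ 2 / L)) * L =
      2 * C * u * (L / √L) + C ^ 2 * u ^ 2 * (L / L) := by ring
    have e4 : (L:ℝ) / √L = √L := by
      rw [div_eq_iff hsL0.ne']
      exact hsL.symm
    rw [e3, e4, div_self hLp.ne', mul_one]
  rw [e2] at hq3
  linarith

/-- **the conjecture in terms of the blocks** -/
theorem mont_iff_Iup : Q241.OP.Mont ↔ Iup := ⟨Iup_of, fun h => mont_of_up (Hup_of h)⟩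

end Q172.Diff
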