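import Pool.Agent.Q172.Diff.E6

/-! Equivalent forms of the pair correlation conjecture. -/

set_option autoImplicit false

open Filter Topology Set MeasureTheory
open scoped ContDiff

namespace Q172.Diff

open SG (ord NZ)
open H177.Lat (yy)
open Pool.Agent.Y744 (Xf Xf_pos)
open Pool.Agent.Q276.NV (logpow_lim)

/-- the law for the blocks -/
def Law : Prop := ∀ a b : ℝ, 0 < a → a < b → ∃ C : ℝ, ∀ L : ℕ, 1 ≤ L → ∀ᶠ T : ℝ in atTop,
  ∀ θ ∈ Icc a b, |√(VV θ T L) - √(min θ 1 * L)| ≤ C * (1 + Real.log L)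

/-- one-sided bounds, at each frequency separately -/
def Up1 : Prop := ∀ a b : ℝ, 0 < a → a < b → ∀ ε : ℝ, 0 < ε → ∀ L0 : ℕ, ∃ L : ℕ, L0 ≤ L ∧
  ∀ θ ∈ Icc a b, ∀ᶠ T : ℝ in atTop, VV θ T L ≤ (min θ 1 + ε) * L

theorem law_of_mont (H : Q241.OP.Mont) : Law := by
  intro a b ha hab
  obtain ⟨C, hC, h⟩ := idx_mont H (b := b) ha
  refine ⟨C, fun L hL => ?_⟩
  filter_upwards [h L hL] with T hT θ hθ
  rw [min_comm]
  exact hT θ hθ

theorem up_of_law (H : Law) : Up1 := by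
  intro a b ha hab ε hε L0
  obtain ⟨C0, h0⟩ := H a b ha hab
  set C := max C0 0 with hCdef
  have hC : 0 ≤ C := le_max_right _ _
  have hq : Tendsto (fun L : ℝ => 2 * C * √((1 + Real.log L) ^ 2 / L) +
      C ^ 2 * ((1 + Real.log L) ^ 2 / L)) atTop (𝓝 0) := by
    have h1 := uu_lim
    have h2 : Tendsto (fun L : ℝ => √((1 + Real.log L) ^ 2 / L)) atTop (𝓝 0) := by
      have := h1.sqrt
      rwa [Real.sqrt_zero] at this
    have h4 := (h2.const_mul (2 * C)).add (h1.const_mul (C ^ 2))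
    simpa using h4
  obtain ⟨L1, hL1⟩ := ((tendsto_order.1 hq).2 ε hε).exists_forall_of_atTop
  set L := max 1 (max L0 ⌈L1⌉₊) with hLdef
  have hLn : 1 ≤ L := le_max_left _ _
  have hLr : (1:ℝ) ≤ L := by exact_mod_cast hLn
  have hLp : (0:ℝ) < L := by linarith
  have hL1' : L1 ≤ L := (Nat.le_ceil L1).trans (by
    exact_mod_cast (le_max_right _ _).trans (le_max_right _ _))
  refine ⟨L, (le_max_left _ _).trans (le_max_right _ _), fun θ hθ => ?_⟩
  filter_upwards [h0 L hLn] with T a1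
  have hθ0 : 0 < θ := ha.trans_le hθ.1
  have hm0 : 0 ≤ min θ 1 := le_min hθ0.le zero_le_one
  have hm1 : min θ 1 ≤ 1 := min_le_right _ _
  set u := 1 + Real.log L with hu
  have hu0 : 0 < u := by
    have := Real.log_nonneg hLr
    linarith
  have b2 := (abs_le.1 ((a1 θ hθ).trans (mul_le_mul_of_nonneg_right (le_max_left C0 0) hu0.le))).2
  have hsL : √L * √L = L := Real.mul_self_sqrt hLp.le
  have hsL0 : 0 < √(L:ℝ) := Real.sqrt_pos.2 hLp
  have hsm : √(min θ 1 * L) ≤ √L := Real.sqrt_le_sqrt (mul_le_of_le_one_left hLp.le hm1)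
  have hP : √(VV θ T L) ≤ √(min θ 1 * L) + C * u := by linarith
  have hP2 : VV θ T L ≤ min θ 1 * L + 2 * C * u * √L + C ^ 2 * u ^ 2 := by
    have q1 := Real.sq_sqrt (VV_nonneg θ T L)
    have q2 := Real.sq_sqrt (mul_nonneg hm0 hLp.le)
    have q3 := pow_le_pow_left₀ (Real.sqrt_nonneg _) hP 2
    have q4 : 2 * C * u * √(min θ 1 * L) ≤ 2 * C * u * √L :=
      mul_le_mul_of_nonneg_left hsm (by positivity)
    nlinarith
  have hq2 := hL1 L hL1'
  have e1 : √(u ^ 2 / L) = u / √L := by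
    rw [Real.sqrt_div (by positivity), Real.sqrt_sq hu0.le]
  rw [e1] at hq2
  have hq3 := mul_lt_mul_of_pos_right hq2 hLp
  have e2 : (2 * C * (u / √L) + C ^ 2 * (u ^ 2 / L)) * L = 2 * C * u * √L + C ^ 2 * u ^ 2 := by
    have e3 : (2 * C * (u / √L) + C ^ 2 * (u ^ 2 / L)) * L =
      2 * C * u * (L / √L) + C ^ 2 * u ^ 2 * (L / L) := by ring
    have e4 : (L:ℝ) / √L = √L := by
      rw [div_eq_iff hsL0.ne']
      exact hsL.symm
    rw [e3, e4, div_self hLp.ne', mul_one]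
  rw [e2] at hq3
  linarith

/-- from the blocks to the smoothed form factor -/
lemma Gf_of_VV {ε : ℝ} (hε : 0 < ε) : ∃ L1 : ℕ, ∀ L : ℕ, L1 ≤ L → 1 ≤ L →
    ∀ᶠ T : ℝ in atTop, ∀ θ : ℝ, 0 < θ → VV θ T L ≤ (min θ 1 + ε / 2) * L →
      Gf T L θ ≤ min 1 θ + ε := by
  obtain ⟨C, hC, h⟩ := VV_PP
  have hq : Tendsto (fun L : ℝ => 2 * C * (√(1 + ε) * √((1 + Real.log L) ^ 2 / L)) +
      C ^ 2 * ((1 + Real.log L) ^ 2 / L) + 1 * (1 / L)) atTop (𝓝 0) := by
    have h1 := uu_lim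
    have h2 : Tendsto (fun L : ℝ => √((1 + Real.log L) ^ 2 / L)) atTop (𝓝 0) := by
      have := h1.sqrt
      rwa [Real.sqrt_zero] at this
    have h3 : Tendsto (fun L : ℝ => 1 / L) atTop (𝓝 0) := tendsto_const_nhds.div_atTop tendsto_id
    have h4 := (((h2.const_mul (√(1 + ε))).const_mul (2 * C)).add (h1.const_mul (C ^ 2))).add
      (h3.const_mul 1)
    simpa using h4
  obtain ⟨L1, hL1⟩ := ((tendsto_order.1 hq).2 (ε / 2) (by positivity)).exists_forall_of_atTop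
  refine ⟨⌈L1⌉₊, fun L hL hLn => ?_⟩
  have hLr : (1:ℝ) ≤ L := by exact_mod_cast hLn
  have hLp : (0:ℝ) < L := by linarith
  have hL1' : L1 ≤ L := (Nat.le_ceil L1).trans (by exact_mod_cast hL)
  have hlL : 0 ≤ Real.log L := Real.log_nonneg hLr
  filter_upwards [h L hLn, PP_Pk hLr, eventually_gt_atTop 1] with T a2 a3 hT θ hθ0 b1
  have b2 := (abs_le.1 (a2 θ)).1
  have b3 := (abs_le.1 (a3 θ)).1
  rw [min_comm] at b1
  have hm1 : min 1 θ ≤ 1 := min_le_left _ _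
  set u := 1 + Real.log L with hu
  have hu0 : 0 < u := by linarith
  have hv : VV θ T L ≤ (1 + ε) * L := b1.trans (mul_le_mul_of_nonneg_right (by linarith) hLp.le)
  have hsv : √(VV θ T L) ≤ √(1 + ε) * √L := by
    rw [← Real.sqrt_mul (by positivity)]
    exact Real.sqrt_le_sqrt hv
  have hP : √(PP θ T L) ≤ √(VV θ T L) + C * u := by linarith
  have hP2 : PP θ T L ≤ VV θ T L + 2 * C * u * (√(1 + ε) * √L) + C ^ 2 * u ^ 2 := by
    have q1 := Real.sq_sqrt (PP_nonneg θ hT L)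
    have q2 := Real.sq_sqrt (VV_nonneg θ T L)
    have q3 := pow_le_pow_left₀ (Real.sqrt_nonneg _) hP 2
    have q4 : 2 * C * u * √(VV θ T L) ≤ 2 * C * u * (√(1 + ε) * √L) :=
      mul_le_mul_of_nonneg_left hsv (by positivity)
    nlinarith
  have hq2 := hL1 L hL1'
  have hsL : √L * √L = L := Real.mul_self_sqrt hLp.le
  have hsL0 : 0 < √(L:ℝ) := Real.sqrt_pos.2 hLp
  have e1 : √(u ^ 2 / L) = u / √L := by
    rw [Real.sqrt_div (by positivity), Real.sqrt_sq hu0.le]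
  rw [e1] at hq2
  have hq3 := mul_lt_mul_of_pos_right hq2 hLp
  have e2 : (2 * C * (√(1 + ε) * (u / √L)) + C ^ 2 * (u ^ 2 / L) + 1 * (1 / L)) * L =
      2 * C * u * (√(1 + ε) * √L) + C ^ 2 * u ^ 2 + 1 := by
    have e3 : (2 * C * (√(1 + ε) * (u / √L)) + C ^ 2 * (u ^ 2 / L) + 1 * (1 / L)) * L =
      2 * C * u * (√(1 + ε) * (L / √L)) + C ^ 2 * u ^ 2 * (L / L) + L / L := by ring
    have e4 : (L:ℝ) / √L = √L := by
      rw [div_eq_iff hsL0.ne']
      exact hsL.symm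
    rw [e3, e4, div_self hLp.ne', mul_one]
  rw [e2] at hq3
  unfold Gf
  rw [div_le_iff₀ hLp]
  linarith

theorem hup_of_up (H : Up1) : Hup := by
  intro a b ha hab ε hε L0
  obtain ⟨L1, h1⟩ := Gf_of_VV (ε := ε / 2) (by positivity)
  obtain ⟨C0, T0, hC0, hT0, hl⟩ := Pk_lip
  have hpi := Real.pi_pos
  obtain ⟨L, hL, hev⟩ := H a b ha hab (ε / 2 / 2) (by positivity) (max 1 (max ⌈L0⌉₊ L1))
  have hLn : 1 ≤ L := (le_max_left _ _).trans hL
  have hLr : (1:ℝ) ≤ L := by exact_mod_cast hLn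
  have hLp : (0:ℝ) < L := by linarith
  have hL0 : L0 ≤ L := (Nat.le_ceil L0).trans (by
    exact_mod_cast ((le_max_left _ _).trans (le_max_right _ _)).trans hL)
  have hL1 : L1 ≤ L := ((le_max_right _ _).trans (le_max_right _ _)).trans hL
  set M := 2 * Real.pi * L ^ 2 * (1 + L ^ 2) * C0 + 1 with hM
  have hM0 : 0 < M := by positivity
  refine ⟨L, hL0, net isCompact_Icc fun θ hθ => ⟨ε / 4 / M, by positivity, ?_⟩⟩
  have hθ0 : 0 < θ := ha.trans_le hθ.1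
  filter_upwards [hev θ hθ, h1 L hL1 hLn, eventually_ge_atTop T0] with T a1 a2 a3 θ' h3
  have a4 := a2 θ hθ0 a1
  have h4 := (abs_le.1 (hl T a3 L hLp.le θ' θ)).2
  have h5 : min 1 θ ≤ min 1 θ' + |θ' - θ| := by
    have := (abs_le.1 ((abs_min_sub_min_le_max 1 θ 1 θ').trans (le_refl _))).2
    rw [sub_self, abs_zero, max_eq_right (abs_nonneg _), abs_sub_comm] at this
    linarith
  rw [lt_div_iff₀ hM0] at h3
  have h6 : Gf T L θ' ≤ Gf T L θ + 2 * Real.pi * L ^ 2 * (1 + L ^ 2) * C0 * |θ' - θ| := by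
    unfold Gf
    rw [div_add' _ _ _ hLp.ne', div_le_div_iff_of_pos_right hLp]
    have h7 : 2 * Real.pi * |θ' - θ| * (L:ℝ) ^ 2 * (1 + (L:ℝ) ^ 2) * C0 ≤
        2 * Real.pi * (L:ℝ) ^ 2 * (1 + (L:ℝ) ^ 2) * C0 * |θ' - θ| * L := by
      have : 0 ≤ 2 * Real.pi * |θ' - θ| * (L:ℝ) ^ 2 * (1 + (L:ℝ) ^ 2) * C0 := by positivity
      nlinarith
    linarith
  have e : |θ' - θ| * M = 2 * Real.pi * L ^ 2 * (1 + L ^ 2) * C0 * |θ' - θ| + |θ' - θ| := by
    rw [hM]; ring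
  linarith

theorem mont_law : Q241.OP.Mont ↔ Law :=
  ⟨law_of_mont, fun h => mont_of_up (hup_of_up (up_of_law h))⟩

theorem mont_up : Q241.OP.Mont ↔ Up1 :=
  ⟨fun h => up_of_law (law_of_mont h), fun h => mont_of_up (hup_of_up h)⟩

end Q172.Diff
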