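import Mathlib

/-! Change of time between the index of a point process and its position (abstract).
`x : ℕ → ℝ` enumerates (from index `1` on) the points of the counting function `n`. -/

set_option autoImplicit false

namespace Q172.Diff

open MeasureTheory Set

structure Flow (x : ℕ → ℝ) (n : ℝ → ℕ) : Prop where
  gal : ∀ m, 1 ≤ m → ∀ t, x m ≤ t ↔ m ≤ n t

/-- discrepancy of a window -/
noncomputable def Dd (n : ℝ → ℕ) (l t : ℝ) : ℝ := (n (t + l) : ℝ) - n t - l

lemma ii_of_bdd {f : ℝ → ℝ} (hf : Measurable f) {a b C : ℝ}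
    (hC : ∀ t ∈ Set.uIcc a b, |f t| ≤ C) : IntervalIntegrable f volume a b := by
  rw [intervalIntegrable_iff]
  refine Measure.integrableOn_of_bounded (M := C) ?_ hf.aestronglyMeasurable ?_
  · exact (measure_mono Set.uIoc_subset_uIcc).trans_lt isCompact_uIcc.measure_lt_top |>.ne
  · refine (ae_restrict_iff' measurableSet_uIoc).2 (Filter.Eventually.of_forall fun t ht => ?_)
    rw [Real.norm_eq_abs]
    exact hC t (Set.uIoc_subset_uIcc ht)

lemma ii_sq_Dd {n : ℝ → ℕ} (hn : Monotone n) (l s a b : ℝ) :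
    IntervalIntegrable (fun t => (Dd n l (t - s)) ^ 2) volume a b := by
  have hm : Measurable fun t : ℝ => (n t : ℝ) := measurable_from_top.comp hn.measurable
  have hm2 : Measurable fun t => (Dd n l (t - s)) ^ 2 := by
    unfold Dd
    have h1 : Measurable fun t : ℝ => (n (t - s + l) : ℝ) := hm.comp (by fun_prop)
    have h2 : Measurable fun t : ℝ => (n (t - s) : ℝ) := hm.comp (by fun_prop)
    exact ((h1.sub h2).sub_const l).pow_const 2
  refine ii_of_bdd hm2 (C := ((n (max a b - s + l) : ℝ) + n (max a b - s) + |l|) ^ 2) (fun t ht => ?_)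
  rw [abs_of_nonneg (by positivity)]
  have h1 : t ≤ max a b := ht.2
  have h2 : (n (t - s + l) : ℝ) ≤ n (max a b - s + l) := by
    exact_mod_cast hn (by linarith)
  have h3 : (n (t - s) : ℝ) ≤ n (max a b - s) := by
    exact_mod_cast hn (by linarith)
  have h4 : (0:ℝ) ≤ n (t - s + l) := Nat.cast_nonneg _
  have h5 : (0:ℝ) ≤ n (t - s) := Nat.cast_nonneg _
  rw [← sq_abs (Dd n l (t - s))]
  refine pow_le_pow_left₀ (abs_nonneg _) ?_ 2
  unfold Dd
  rw [abs_le]
  have h6 := abs_nonneg l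
  have h7 := le_abs_self l
  have h8 := neg_abs_le l
  constructor <;> linarith

/-- total length of intervals against a bound for the number of intervals over a point -/
lemma sum_len_le (S : Finset ℕ) (lo hi : ℕ → ℝ) (c X : ℝ) (hcX : c ≤ X) (G : ℝ → ℝ)
    (hG : IntervalIntegrable G volume c X)
    (hlo : ∀ m ∈ S, c < lo m) (hle : ∀ m ∈ S, lo m ≤ hi m) (hhi : ∀ m ∈ S, hi m ≤ X)
    (hc : ∀ t ∈ Icc c X, ((S.filter (fun m => t ∈ Ico (lo m) (hi m))).card : ℝ) ≤ G t) :
    ∑ m ∈ S, (hi m - lo m) ≤ ∫ t in c..X, G t := by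
  have hint : ∀ m ∈ S, IntervalIntegrable (fun t => (Ico (lo m) (hi m)).indicator (fun _ => (1:ℝ)) t)
      volume c X := by
    intro m _
    refine ii_of_bdd (C := 1) (measurable_const.indicator measurableSet_Ico) (fun t _ => ?_)
    by_cases h : t ∈ Ico (lo m) (hi m)
    · simp [Set.indicator_of_mem h]
    · simp [Set.indicator_of_notMem h]
  have h1 : ∀ m ∈ S, ∫ t in c..X, (Ico (lo m) (hi m)).indicator (fun _ => (1:ℝ)) t = hi m - lo m := by
    intro m hm
    rw [intervalIntegral.integral_of_le hcX, setIntegral_indicator measurableSet_Ico]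
    have : Ioc c X ∩ Ico (lo m) (hi m) = Ico (lo m) (hi m) := by
      ext t
      simp only [mem_inter_iff, mem_Ioc, mem_Ico]
      constructor
      · exact fun h => h.2
      · intro h
        exact ⟨⟨(hlo m hm).trans_le h.1, h.2.le.trans (hhi m hm)⟩, h⟩
    rw [this, setIntegral_const, smul_eq_mul, mul_one, Real.volume_real_Ico_of_le (hle m hm)]
  calc ∑ m ∈ S, (hi m - lo m)
      = ∑ m ∈ S, ∫ t in c..X, (Ico (lo m) (hi m)).indicator (fun _ => (1:ℝ)) t :=
        Finset.sum_congr rfl fun m hm => (h1 m hm).symm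
    _ = ∫ t in c..X, ∑ m ∈ S, (Ico (lo m) (hi m)).indicator (fun _ => (1:ℝ)) t :=
        (intervalIntegral.integral_finsetSum hint).symm
    _ ≤ ∫ t in c..X, G t := by
        refine intervalIntegral.integral_mono_on hcX ?_ hG (fun t ht => ?_)
        · have h2 := IntervalIntegrable.sum S hint
          have h3 : (∑ m ∈ S, fun t => (Ico (lo m) (hi m)).indicator (fun _ => (1:ℝ)) t) =
              fun t => ∑ m ∈ S, (Ico (lo m) (hi m)).indicator (fun _ => (1:ℝ)) t := by
            ext t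
            rw [Finset.sum_apply]
          rwa [h3] at h2
        · refine le_trans (le_of_eq ?_) (hc t ht)
          rw [Finset.card_filter, Nat.cast_sum]
          refine Finset.sum_congr rfl fun m _ => ?_
          by_cases h : t ∈ Ico (lo m) (hi m)
          · rw [Set.indicator_of_mem h, if_pos h]; simp
          · rw [Set.indicator_of_notMem h, if_neg h]; simp

namespace Flow
variable {x : ℕ → ℝ} {n : ℝ → ℕ}

lemma mono_n (F : Flow x n) : Monotone n := by
  intro t t' h
  rcases Nat.eq_zero_or_pos (n t) with h0 | h0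
  · omega
  · exact (F.gal _ h0 _).1 (((F.gal _ h0 _).2 le_rfl).trans h)

lemma mono_x (F : Flow x n) {m m' : ℕ} (h1 : 1 ≤ m) (h : m ≤ m') : x m ≤ x m' :=
  (F.gal m h1 _).2 (h.trans ((F.gal m' (h1.trans h) _).1 le_rfl))

lemma lt_iff (F : Flow x n) {m : ℕ} (h1 : 1 ≤ m) (t : ℝ) : t < x m ↔ n t < m := by
  rw [← not_le, F.gal m h1, not_le]

/-- number of points in `(t - j, t]` -/
lemma card_win (F : Flow x n) (S : Finset ℕ) (hS : ∀ m ∈ S, 1 ≤ m) (t s : ℝ) (hs : s ≤ t)
    (P : ℕ → Prop) [DecidablePred P] (hP : ∀ m ∈ S, P m → s < x m ∧ x m ≤ t) :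
    ((S.filter P).card : ℝ) ≤ (n t : ℝ) - n s := by
  have hsub : S.filter P ⊆ Finset.Ioc (n s) (n t) := by
    intro m hm
    rw [Finset.mem_filter] at hm
    obtain ⟨h1, h2⟩ := hP m hm.1 hm.2
    rw [Finset.mem_Ioc]
    exact ⟨(F.lt_iff (hS m hm.1) s).1 h1, (F.gal m (hS m hm.1) t).1 h2⟩
  have h1 := Finset.card_le_card hsub
  rw [Nat.card_Ioc] at h1
  have h2 := F.mono_n hs
  have h3 : ((S.filter P).card : ℝ) ≤ ((n t - n s : ℕ) : ℝ) := by exact_mod_cast h1
  rwa [Nat.cast_sub h2] at h3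

/-- long displacements, upper side -/
lemma card_upper (F : Flow x n) {W X : ℝ} (j k : ℕ) (hj : 1 ≤ j) (hjX : (j:ℝ) ≤ X)
    (hV1 : ∫ t in (0:ℝ)..X, (Dd n ((k + j : ℕ) : ℝ) t) ^ 2 ≤ W)
    (hV2 : ∫ t in (0:ℝ)..X, (Dd n (j : ℝ) t) ^ 2 ≤ W)
    (S : Finset ℕ) (hS1 : ∀ m ∈ S, 1 ≤ m ∧ (j:ℝ) < x m ∧ x m + j ≤ X)
    (hS : ∀ m ∈ S, x m + k + 2 * j < x (m + k)) :
    (S.card : ℝ) ≤ 2 * W / (j:ℝ) ^ 2 := by
  have hj0 : (0:ℝ) < j := by exact_mod_cast hj
  have hmono := F.mono_n
  have i1 : IntervalIntegrable (fun t => (Dd n ((k + j : ℕ) : ℝ) t) ^ 2) volume (j:ℝ) X := by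
    simpa using ii_sq_Dd hmono ((k + j : ℕ) : ℝ) 0 (j:ℝ) X
  have i2 := ii_sq_Dd hmono (j:ℝ) (j:ℝ) (j:ℝ) X
  have i3 : IntervalIntegrable (fun t => (3 / (2 * (j:ℝ))) * (Dd n ((k + j : ℕ) : ℝ) t) ^ 2 +
      (1 / (2 * (j:ℝ))) * (Dd n (j:ℝ) (t - j)) ^ 2) volume (j:ℝ) X :=
    (i1.const_mul _).add (i2.const_mul _)
  have key := sum_len_le S (fun m => x m) (fun m => x m + j) (j:ℝ) X hjX _ i3
    (fun m hm => (hS1 m hm).2.1) (fun m _ => by linarith) (fun m hm => (hS1 m hm).2.2) (fun t ht => by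
      by_cases he : (S.filter (fun m => t ∈ Ico (x m) (x m + j))).Nonempty
      · obtain ⟨m, hm⟩ := he
        rw [Finset.mem_filter] at hm
        obtain ⟨hmS, ht1, ht2⟩ := hm
        have hm1 := (hS1 m hmS).1
        have a1 : t + ((k + j : ℕ) : ℝ) < x (m + k) := by
          have := hS m hmS
          push_cast
          linarith
        have a2 : n (t + ((k + j : ℕ) : ℝ)) < m + k := (F.lt_iff (by omega) _).1 a1
        have a3 : m ≤ n t := (F.gal m hm1 t).1 ht1
        have a4 : Dd n ((k + j : ℕ) : ℝ) t ≤ -(j:ℝ) := by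
          unfold Dd
          have a5 : (n (t + ((k + j : ℕ) : ℝ)) : ℝ) ≤ m + k := by exact_mod_cast a2.le
          have a6 : (m:ℝ) ≤ n t := by exact_mod_cast a3
          push_cast at a5 ⊢
          linarith
        have a7 : (j:ℝ) ^ 2 ≤ (Dd n ((k + j : ℕ) : ℝ) t) ^ 2 := by nlinarith
        have a8 := F.card_win S (fun m hm => (hS1 m hm).1) t (t - j) (by linarith)
          (fun m => t ∈ Ico (x m) (x m + j)) (fun m _ h => ⟨by linarith [h.2], h.1⟩)
        refine a8.trans ?_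
        have a9 : (n t : ℝ) - n (t - j) = j + Dd n (j:ℝ) (t - j) := by
          unfold Dd
          rw [sub_add_cancel]
          ring
        rw [a9]
        set D := Dd n ((k + j : ℕ) : ℝ) t
        set b := Dd n (j:ℝ) (t - j)
        have c1 : 3 / (2 * (j:ℝ)) * D ^ 2 + 1 / (2 * (j:ℝ)) * b ^ 2 = (3 * D ^ 2 + b ^ 2) / (2 * j) := by
          field_simp
        rw [c1, le_div_iff₀ (by positivity)]
        nlinarith [sq_nonneg (b - j)]
      · rw [Finset.not_nonempty_iff_eq_empty] at he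
        rw [he, Finset.card_empty, Nat.cast_zero]
        positivity)
  have e1 : ∑ m ∈ S, ((fun m => x m + (j:ℝ)) m - (fun m => x m) m) = S.card * j := by
    simp
  rw [e1, intervalIntegral.integral_add (i1.const_mul _) (i2.const_mul _),
    intervalIntegral.integral_const_mul, intervalIntegral.integral_const_mul] at key
  have b1 : ∫ t in (j:ℝ)..X, (Dd n ((k + j : ℕ) : ℝ) t) ^ 2 ≤ W := by
    refine le_trans ?_ hV1
    refine intervalIntegral.integral_mono_interval hj0.le hjX le_rfl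
      (Filter.Eventually.of_forall fun t => sq_nonneg _) ?_
    simpa using ii_sq_Dd hmono ((k + j : ℕ) : ℝ) 0 0 X
  have b2 : ∫ t in (j:ℝ)..X, (Dd n (j:ℝ) (t - j)) ^ 2 ≤ W := by
    rw [intervalIntegral.integral_comp_sub_right (fun t => (Dd n (j:ℝ) t) ^ 2) (j:ℝ), sub_self]
    refine le_trans ?_ hV2
    refine intervalIntegral.integral_mono_interval le_rfl (by linarith) (by linarith)
      (Filter.Eventually.of_forall fun t => sq_nonneg _) ?_
    simpa using ii_sq_Dd hmono (j:ℝ) 0 0 X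
  rw [le_div_iff₀ (by positivity)]
  have b3 : (S.card : ℝ) * j ≤ 3 / (2 * j) * W + 1 / (2 * j) * W := by
    refine key.trans (add_le_add ?_ ?_)
    · exact mul_le_mul_of_nonneg_left b1 (by positivity)
    · exact mul_le_mul_of_nonneg_left b2 (by positivity)
  calc (S.card:ℝ) * (j:ℝ) ^ 2 = (S.card * j) * j := by ring
    _ ≤ (3 / (2 * j) * W + 1 / (2 * j) * W) * j := mul_le_mul_of_nonneg_right b3 hj0.le
    _ = 2 * W := by field_simp; ring

/-- long displacements, lower side -/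
lemma card_lower (F : Flow x n) {W X : ℝ} (j k : ℕ) (hj : 1 ≤ j) (hjX : 0 ≤ X)
    (hV1 : ∫ t in (0:ℝ)..X, (Dd n ((k - j : ℕ) : ℝ) t) ^ 2 ≤ W)
    (hV2 : ∫ t in (0:ℝ)..X, (Dd n (j : ℝ) t) ^ 2 ≤ W)
    (S : Finset ℕ) (hS1 : ∀ m ∈ S, 1 ≤ m ∧ (j:ℝ) < x m ∧ x m + j ≤ X)
    (hS : ∀ m ∈ S, x (m + k) < x m + k - 2 * j) :
    (S.card : ℝ) ≤ 2 * W / (j:ℝ) ^ 2 := by
  have hj0 : (0:ℝ) < j := by exact_mod_cast hj
  have hmono := F.mono_n
  have i1 : IntervalIntegrable (fun t => (Dd n ((k - j : ℕ) : ℝ) t) ^ 2) volume 0 X := by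
    simpa using ii_sq_Dd hmono ((k - j : ℕ) : ℝ) 0 0 X
  have i2 : IntervalIntegrable (fun t => (Dd n (j : ℝ) t) ^ 2) volume 0 X := by
    simpa using ii_sq_Dd hmono (j : ℝ) 0 0 X
  have i3 : IntervalIntegrable (fun t => (3 / (2 * (j:ℝ))) * (Dd n ((k - j : ℕ) : ℝ) t) ^ 2 +
      (1 / (2 * (j:ℝ))) * (Dd n (j:ℝ) t) ^ 2) volume 0 X :=
    (i1.const_mul _).add (i2.const_mul _)
  have key := sum_len_le S (fun m => x m - j) (fun m => x m) 0 X hjX _ i3
    (fun m hm => by linarith [(hS1 m hm).2.1]) (fun m _ => by linarith)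
    (fun m hm => by linarith [(hS1 m hm).2.2]) (fun t ht => by
      by_cases he : (S.filter (fun m => t ∈ Ico (x m - j) (x m))).Nonempty
      · obtain ⟨m, hm⟩ := he
        rw [Finset.mem_filter] at hm
        obtain ⟨hmS, ht1, ht2⟩ := hm
        have hm1 := (hS1 m hmS).1
        have hkj : j ≤ k := by
          have h1 := F.mono_x hm1 (Nat.le_add_right m k)
          have h2 := hS m hmS
          have h3 : (j:ℝ) < k := by linarith
          exact_mod_cast h3.le
        have a1 : x (m + k) ≤ t + ((k - j : ℕ) : ℝ) := by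
          have := hS m hmS
          rw [Nat.cast_sub hkj]
          linarith
        have a2 : m + k ≤ n (t + ((k - j : ℕ) : ℝ)) := (F.gal _ (by omega) _).1 a1
        have a3 : n t < m := (F.lt_iff hm1 t).1 ht2
        have a4 : (j:ℝ) ≤ Dd n ((k - j : ℕ) : ℝ) t := by
          unfold Dd
          have a5 : (m:ℝ) + k ≤ (n (t + ((k - j : ℕ) : ℝ)) : ℝ) := by exact_mod_cast a2
          have a6 : (n t:ℝ) ≤ m := by exact_mod_cast a3.le
          rw [Nat.cast_sub hkj] at a5 ⊢
          linarith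
        have a7 : (j:ℝ) ^ 2 ≤ (Dd n ((k - j : ℕ) : ℝ) t) ^ 2 := by nlinarith
        have a8 := F.card_win S (fun m hm => (hS1 m hm).1) (t + j) t (by linarith)
          (fun m => t ∈ Ico (x m - j) (x m)) (fun m _ h => ⟨h.2, by linarith [h.1]⟩)
        refine a8.trans ?_
        have a9 : (n (t + j) : ℝ) - n t = j + Dd n (j:ℝ) t := by
          unfold Dd
          ring
        rw [a9]
        set D := Dd n ((k - j : ℕ) : ℝ) t
        set b := Dd n (j:ℝ) t
        have c1 : 3 / (2 * (j:ℝ)) * D ^ 2 + 1 / (2 * (j:ℝ)) * b ^ 2 = (3 * D ^ 2 + b ^ 2) / (2 * j) := by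
          field_simp
        rw [c1, le_div_iff₀ (by positivity)]
        nlinarith [sq_nonneg (b - j)]
      · rw [Finset.not_nonempty_iff_eq_empty] at he
        rw [he, Finset.card_empty, Nat.cast_zero]
        positivity)
  have e1 : ∑ m ∈ S, ((fun m => x m) m - (fun m => x m - (j:ℝ)) m) = S.card * j := by
    simp
  rw [e1, intervalIntegral.integral_add (i1.const_mul _) (i2.const_mul _),
    intervalIntegral.integral_const_mul, intervalIntegral.integral_const_mul] at key
  rw [le_div_iff₀ (by positivity)]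
  have b3 : (S.card : ℝ) * j ≤ 3 / (2 * j) * W + 1 / (2 * j) * W := by
    refine key.trans (add_le_add ?_ ?_)
    · exact mul_le_mul_of_nonneg_left hV1 (by positivity)
    · exact mul_le_mul_of_nonneg_left hV2 (by positivity)
  calc (S.card:ℝ) * (j:ℝ) ^ 2 = (S.card * j) * j := by ring
    _ ≤ (3 / (2 * j) * W + 1 / (2 * j) * W) * j := mul_le_mul_of_nonneg_right b3 hj0.le
    _ = 2 * W := by field_simp; ring

/-- total excess of the gaps over `Λ` -/
lemma sum_excess (F : Flow x n) {W X : ℝ} (Λ : ℕ) (hΛ : 1 ≤ Λ) (hX : 0 ≤ X)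
    (hV : ∫ t in (0:ℝ)..X, (Dd n (Λ : ℝ) t) ^ 2 ≤ W)
    (S : Finset ℕ) (hS1 : ∀ m ∈ S, 1 ≤ m ∧ 0 < x m ∧ x (m + 1) ≤ X) :
    ∑ m ∈ S, (x (m + 1) - x m - min (x (m + 1) - x m) Λ) ≤ W / (Λ:ℝ) ^ 2 := by
  have hΛ0 : (0:ℝ) < Λ := by exact_mod_cast hΛ
  have hmono := F.mono_n
  have i2 : IntervalIntegrable (fun t => (Dd n (Λ : ℝ) t) ^ 2) volume 0 X := by
    simpa using ii_sq_Dd hmono (Λ : ℝ) 0 0 X
  have i3 : IntervalIntegrable (fun t => (1 / (Λ:ℝ) ^ 2) * (Dd n (Λ:ℝ) t) ^ 2) volume 0 X :=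
    i2.const_mul _
  have hle : ∀ m ∈ S, x m ≤ x m + (x (m + 1) - x m - min (x (m + 1) - x m) Λ) := by
    intro m _
    have := min_le_left (x (m + 1) - x m) (Λ:ℝ)
    linarith
  have hact : ∀ m ∈ S, ∀ t, t ∈ Ico (x m) (x m + (x (m + 1) - x m - min (x (m + 1) - x m) Λ)) →
      t + Λ < x (m + 1) := by
    intro m _ t ht
    rcases le_total (x (m + 1) - x m) (Λ:ℝ) with h | h
    · rw [min_eq_left h] at ht
      have := ht.1
      have := ht.2
      linarith
    · rw [min_eq_right h] at ht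
      have := ht.2
      linarith
  have key := sum_len_le S (fun m => x m)
    (fun m => x m + (x (m + 1) - x m - min (x (m + 1) - x m) Λ)) 0 X hX _ i3
    (fun m hm => (hS1 m hm).2.1) hle
    (fun m hm => by
      have h1 := F.mono_x (hS1 m hm).1 (Nat.le_add_right m 1)
      have h2 : 0 ≤ min (x (m + 1) - x m) Λ := le_min (by linarith) hΛ0.le
      have := (hS1 m hm).2.2
      show x m + (x (m + 1) - x m - min (x (m + 1) - x m) Λ) ≤ X
      linarith) (fun t ht => by
      by_cases he : (S.filter (fun m => t ∈ Ico (x m)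
          (x m + (x (m + 1) - x m - min (x (m + 1) - x m) Λ)))).Nonempty
      · have hnt : ∀ m ∈ S.filter (fun m => t ∈ Ico (x m)
          (x m + (x (m + 1) - x m - min (x (m + 1) - x m) Λ))), n t = m ∧ n (t + Λ) = m := by
          intro m hm
          rw [Finset.mem_filter] at hm
          have h1 := hact m hm.1 t hm.2
          have h2 : m ≤ n t := (F.gal m (hS1 m hm.1).1 t).1 hm.2.1
          have h3 : n (t + Λ) < m + 1 := (F.lt_iff (by omega) _).1 h1
          have h4 : n t ≤ n (t + Λ) := hmono (by linarith)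
          constructor <;> omega
        have hcard : (S.filter (fun m => t ∈ Ico (x m)
          (x m + (x (m + 1) - x m - min (x (m + 1) - x m) Λ)))).card ≤ 1 := by
          rw [Finset.card_le_one]
          intro a ha b hb
          rw [← (hnt a ha).1, ← (hnt b hb).1]
        obtain ⟨m, hm⟩ := he
        have h5 : Dd n (Λ:ℝ) t = -(Λ:ℝ) := by
          unfold Dd
          rw [(hnt m hm).1, (hnt m hm).2]
          ring
        rw [h5]
        have h6 : 1 / (Λ:ℝ) ^ 2 * (-(Λ:ℝ)) ^ 2 = 1 := by field_simp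
        rw [h6]
        exact_mod_cast hcard
      · rw [Finset.not_nonempty_iff_eq_empty] at he
        rw [he, Finset.card_empty, Nat.cast_zero]
        positivity)
  rw [intervalIntegral.integral_const_mul] at key
  calc ∑ m ∈ S, (x (m + 1) - x m - min (x (m + 1) - x m) Λ)
      = ∑ m ∈ S, ((fun m => x m + (x (m + 1) - x m - min (x (m + 1) - x m) Λ)) m - (fun m => x m) m) :=
        Finset.sum_congr rfl fun m _ => by ring
    _ ≤ _ := key
    _ ≤ 1 / (Λ:ℝ) ^ 2 * W := mul_le_mul_of_nonneg_left hV (by positivity)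
    _ = W / (Λ:ℝ) ^ 2 := by ring

end Flow

end Q172.Diff
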