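import Pool.Agent.Q172.Diff.P1

/-! Index sums against position integrals of a slowly varying functional. -/

set_option autoImplicit false

namespace Q172.Diff

open MeasureTheory Set

/-- truncated gap minus one -/
noncomputable def tg (x : ℕ → ℝ) (Λ : ℝ) (m : ℕ) : ℝ := min (x (m + 1) - x m) Λ - 1

noncomputable def td (x : ℕ → ℝ) (Λ : ℝ) (k m : ℕ) : ℝ := ∑ i ∈ Finset.range k, tg x Λ (m + i)

lemma dyadic (J : ℕ) (r : ℝ) (h : |r| ≤ 2 ^ (J + 2)) :
    r ^ 2 ≤ 4 + ∑ i ∈ Finset.range (J + 1), 16 * 4 ^ i * (if 2 * (2:ℝ) ^ i < |r| then (1:ℝ) else 0) := by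
  induction J with
  | zero =>
    simp only [zero_add, Finset.range_one, Finset.sum_singleton, pow_zero, mul_one]
    rw [← sq_abs]
    have h' : |r| ≤ 4 := by norm_num at h; exact h
    split_ifs with h1
    · nlinarith [abs_nonneg r]
    · push Not at h1
      nlinarith [abs_nonneg r]
  | succ J ih =>
    rw [Finset.sum_range_succ]
    by_cases h1 : |r| ≤ 2 ^ (J + 2)
    · have := ih h1
      have h2 : (0:ℝ) ≤ 16 * 4 ^ (J + 1) * (if 2 * (2:ℝ) ^ (J + 1) < |r| then (1:ℝ) else 0) := by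
        split_ifs <;> positivity
      linarith
    · push Not at h1
      have h2 : 2 * (2:ℝ) ^ (J + 1) < |r| := by
        have : 2 * (2:ℝ) ^ (J + 1) = 2 ^ (J + 2) := by ring
        rw [this]; exact h1
      rw [if_pos h2, mul_one, ← sq_abs]
      have h3 : (0:ℝ) ≤ ∑ i ∈ Finset.range (J + 1), 16 * 4 ^ i * (if 2 * (2:ℝ) ^ i < |r| then (1:ℝ) else 0) :=
        Finset.sum_nonneg fun i _ => by split_ifs <;> positivity
      have h4 : |r| ^ 2 ≤ ((2:ℝ) ^ (J + 1 + 2)) ^ 2 := pow_le_pow_left₀ (abs_nonneg _) h 2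
      have h5 : ((2:ℝ) ^ (J + 1 + 2)) ^ 2 = 16 * 4 ^ (J + 1) := by
        rw [← pow_mul, mul_comm, pow_mul]
        norm_num
        ring
      rw [h5] at h4
      linarith

namespace Flow
variable {x : ℕ → ℝ} {n : ℝ → ℕ}

lemma tg_ge (F : Flow x n) {Λ : ℝ} (hΛ : 0 ≤ Λ) {m : ℕ} (hm : 1 ≤ m) : -1 ≤ tg x Λ m := by
  unfold tg
  have h1 := F.mono_x hm (Nat.le_add_right m 1)
  have : 0 ≤ min (x (m + 1) - x m) Λ := le_min (by linarith) hΛ
  linarith

lemma tg_le (Λ : ℝ) (m : ℕ) : tg x Λ m ≤ Λ - 1 := by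
  unfold tg
  have := min_le_right (x (m + 1) - x m) Λ
  linarith

lemma sum_gap (k m : ℕ) : ∑ i ∈ Finset.range k, (x (m + i + 1) - x (m + i) - 1) = x (m + k) - x m - k := by
  induction k with
  | zero => simp
  | succ k ih =>
    rw [Finset.sum_range_succ, ih]
    push_cast
    rw [show m + k + 1 = m + (k + 1) from rfl]
    ring

lemma td_le (Λ : ℝ) (k m : ℕ) : td x Λ k m ≤ x (m + k) - x m - k := by
  rw [← sum_gap]
  unfold td tg
  refine Finset.sum_le_sum fun i _ => ?_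
  have := min_le_left (x (m + i + 1) - x (m + i)) Λ
  linarith

lemma td_lower (F : Flow x n) {Λ : ℝ} {k m : ℕ} (hm : 1 ≤ m) (hk : (k:ℝ) ≤ Λ) {r : ℝ} (hr : r ≤ 0)
    (h : td x Λ k m < r) : x (m + k) < x m + k + r := by
  by_cases hall : ∀ i ∈ Finset.range k, x (m + i + 1) - x (m + i) ≤ Λ
  · have : td x Λ k m = x (m + k) - x m - k := by
      rw [← sum_gap]
      unfold td tg
      refine Finset.sum_congr rfl fun i hi => ?_
      rw [min_eq_left (hall i hi)]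
    linarith
  · exfalso
    push Not at hall
    obtain ⟨i, hi, hi2⟩ := hall
    have hΛ0 : 0 ≤ Λ := (Nat.cast_nonneg k).trans hk
    unfold td at h
    rw [← Finset.add_sum_erase _ _ hi] at h
    have h1 : tg x Λ (m + i) = Λ - 1 := by
      unfold tg
      rw [min_eq_right hi2.le]
    have h2 : ∑ i ∈ (Finset.range k).erase i, (-1:ℝ) ≤ ∑ i ∈ (Finset.range k).erase i, tg x Λ (m + i) :=
      Finset.sum_le_sum fun i' _ => F.tg_ge hΛ0 (by omega)
    rw [Finset.sum_const, Finset.card_erase_of_mem hi, Finset.card_range, nsmul_eq_mul] at h2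
    have h3 : (1:ℕ) ≤ k := by
      rw [Finset.mem_range] at hi
      omega
    rw [Nat.cast_sub h3] at h2
    push_cast at h2
    linarith

lemma td_abs (F : Flow x n) {Λ : ℝ} (hΛ : 1 ≤ Λ) (k : ℕ) {m : ℕ} (hm : 1 ≤ m) :
    |td x Λ k m| ≤ k * Λ := by
  unfold td
  refine (Finset.abs_sum_le_sum_abs _ _).trans ?_
  have : ∑ i ∈ Finset.range k, |tg x Λ (m + i)| ≤ ∑ i ∈ Finset.range k, Λ := by
    refine Finset.sum_le_sum fun i _ => ?_
    rw [abs_le]
    have h1 := F.tg_ge (by linarith : 0 ≤ Λ) (show 1 ≤ m + i by omega)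
    have h2 := tg_le (x := x) Λ (m + i)
    constructor <;> linarith
  rw [Finset.sum_const, Finset.card_range, nsmul_eq_mul] at this
  exact this

/-- second moment of the truncated displacements, over the index -/
lemma sum_td_sq (F : Flow x n) {W X : ℝ} (J K Λ : ℕ) (hΛ : 1 ≤ Λ) (hKΛ : K ≤ Λ)
    (hJ : K * Λ ≤ 2 ^ (J + 2))
    (hV : ∀ l : ℕ, l ≤ K + 2 ^ J → ∫ t in (0:ℝ)..X, (Dd n (l : ℝ) t) ^ 2 ≤ W)
    (a b : ℕ) (ha : 1 ≤ a) (hab : a ≤ b) (hxa : (2:ℝ) ^ J < x a) (hxb : x b + 2 ^ J ≤ X)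
    (k : ℕ) (hk : k ≤ K) :
    ∑ m ∈ Finset.Ico a b, (td x Λ k m) ^ 2 ≤ 4 * ((b:ℝ) - a) + 64 * (J + 1) * W := by
  have hΛ' : (1:ℝ) ≤ Λ := by exact_mod_cast hΛ
  have hxab : x a ≤ x b := F.mono_x ha hab
  have hp0 : (0:ℝ) < 2 ^ J := by positivity
  have hsum : ∑ m ∈ Finset.Ico a b, (td x Λ k m) ^ 2 ≤
      ∑ m ∈ Finset.Ico a b, (4 + ∑ i ∈ Finset.range (J + 1),
        16 * 4 ^ i * (if 2 * (2:ℝ) ^ i < |td x Λ k m| then (1:ℝ) else 0)) := by
    refine Finset.sum_le_sum fun m hm => dyadic J _ ?_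
    rw [Finset.mem_Ico] at hm
    refine (F.td_abs hΛ' k (by omega)).trans ?_
    have : ((K * Λ : ℕ) : ℝ) ≤ ((2 ^ (J + 2) : ℕ) : ℝ) := by exact_mod_cast hJ
    push_cast at this
    refine le_trans ?_ this
    exact mul_le_mul_of_nonneg_right (by exact_mod_cast hk) (by linarith)
  refine hsum.trans ?_
  rw [Finset.sum_add_distrib, Finset.sum_const, Nat.card_Ico, nsmul_eq_mul, Nat.cast_sub hab,
    Finset.sum_comm]
  have hi : ∀ i ∈ Finset.range (J + 1), ∑ m ∈ Finset.Ico a b,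
      16 * 4 ^ i * (if 2 * (2:ℝ) ^ i < |td x Λ k m| then (1:ℝ) else 0) ≤ 64 * W := by
    intro i hi
    rw [Finset.mem_range] at hi
    have hiJ : i ≤ J := by omega
    have hpi : (2:ℝ) ^ i ≤ 2 ^ J := pow_le_pow_right₀ (by norm_num) hiJ
    have hpiN : 2 ^ i ≤ 2 ^ J := pow_le_pow_right₀ (by norm_num) hiJ
    have hpos : (0:ℝ) < 4 ^ i := by positivity
    rw [← Finset.mul_sum, Finset.sum_ite, Finset.sum_const_zero, add_zero, Finset.sum_const,
      nsmul_eq_mul, mul_one]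
    have hcast : ((2 ^ i : ℕ) : ℝ) = (2:ℝ) ^ i := by push_cast; rfl
    have hxm : ∀ m ∈ Finset.Ico a b, 1 ≤ m ∧ ((2 ^ i : ℕ) : ℝ) < x m ∧ x m + ((2 ^ i : ℕ) : ℝ) ≤ X := by
      intro m hm
      rw [Finset.mem_Ico] at hm
      have h1 := F.mono_x ha hm.1
      have h2 := F.mono_x (by omega : 1 ≤ m) hm.2.le
      rw [hcast]
      refine ⟨by omega, by linarith, by linarith⟩
    have hsq : (((2 ^ i : ℕ) : ℝ)) ^ 2 = 4 ^ i := by
      rw [hcast, ← pow_mul, mul_comm, pow_mul]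
      norm_num
    have hup := F.card_upper (W := W) (X := X) (2 ^ i) k Nat.one_le_two_pow
      (by rw [hcast]; linarith) (hV _ (by omega)) (hV _ (by omega))
      ((Finset.Ico a b).filter (fun m => 2 * (2:ℝ) ^ i < td x Λ k m))
      (fun m hm => hxm m (Finset.mem_filter.1 hm).1)
      (fun m hm => by
        have h1 := (Finset.mem_filter.1 hm).2
        have h2 := td_le (x := x) Λ k m
        rw [hcast]
        linarith)
    have hlo := F.card_lower (W := W) (X := X) (2 ^ i) k Nat.one_le_two_pow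
      (by linarith) (hV _ ((Nat.sub_le k (2 ^ i)).trans (hk.trans (Nat.le_add_right _ _)))) (hV _ (by omega))
      ((Finset.Ico a b).filter (fun m => td x Λ k m < -(2 * (2:ℝ) ^ i)))
      (fun m hm => hxm m (Finset.mem_filter.1 hm).1)
      (fun m hm => by
        have h1 := (Finset.mem_filter.1 hm).2
        have h0 := (Finset.mem_Ico.1 (Finset.mem_filter.1 hm).1).1
        have h2 := F.td_lower (Λ := (Λ:ℝ)) (k := k) (m := m) (by omega)
          (by exact_mod_cast hk.trans hKΛ) (by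
            have : (0:ℝ) < 2 * 2 ^ i := by positivity
            linarith) h1
        rw [hcast]
        linarith)
    rw [hsq] at hup hlo
    have hcard : (((Finset.Ico a b).filter (fun m => 2 * (2:ℝ) ^ i < |td x Λ k m|)).card : ℝ) ≤
        2 * W / 4 ^ i + 2 * W / 4 ^ i := by
      refine le_trans ?_ (add_le_add hup hlo)
      rw [← Nat.cast_add]
      refine Nat.cast_le.2 (le_trans (Finset.card_le_card ?_) (Finset.card_union_le _ _))
      intro m hm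
      rw [Finset.mem_filter] at hm
      rw [Finset.mem_union, Finset.mem_filter, Finset.mem_filter]
      rcases lt_abs.1 hm.2 with h | h
      · exact Or.inl ⟨hm.1, h⟩
      · exact Or.inr ⟨hm.1, by linarith⟩
    calc 16 * 4 ^ i * (((Finset.Ico a b).filter (fun m => 2 * (2:ℝ) ^ i < |td x Λ k m|)).card : ℝ)
        ≤ 16 * 4 ^ i * (2 * W / 4 ^ i + 2 * W / 4 ^ i) :=
          mul_le_mul_of_nonneg_left hcard (by positivity)
      _ = 64 * W := by field_simp; ring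
  have h2 := Finset.sum_le_sum hi
  rw [Finset.sum_const, Finset.card_range, nsmul_eq_mul] at h2
  push_cast at h2
  linarith

/-- averaged truncated displacement -/
noncomputable def hh (x : ℕ → ℝ) (Λ : ℝ) (K m : ℕ) : ℝ :=
  (1 / (K:ℝ)) * ∑ k ∈ Finset.range K, td x Λ k m

lemma hh_abs (F : Flow x n) {Λ : ℝ} (hΛ : 1 ≤ Λ) (K : ℕ) (hK : 1 ≤ K) {m : ℕ} (hm : 1 ≤ m) :
    |hh x Λ K m| ≤ K * Λ := by
  have hK0 : (0:ℝ) < K := by exact_mod_cast hK
  unfold hh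
  rw [abs_mul, abs_of_pos (by positivity)]
  have : |∑ k ∈ Finset.range K, td x Λ k m| ≤ K * (K * Λ) := by
    refine (Finset.abs_sum_le_sum_abs _ _).trans ?_
    have h2 : ∑ k ∈ Finset.range K, |td x Λ k m| ≤ ∑ k ∈ Finset.range K, (K * Λ) := by
      refine Finset.sum_le_sum fun k hk => (F.td_abs hΛ k hm).trans ?_
      rw [Finset.mem_range] at hk
      exact mul_le_mul_of_nonneg_right (by exact_mod_cast hk.le) (by linarith)
    rwa [Finset.sum_const, Finset.card_range, nsmul_eq_mul] at h2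
  calc 1 / (K:ℝ) * |∑ k ∈ Finset.range K, td x Λ k m| ≤ 1 / (K:ℝ) * (K * (K * Λ)) :=
        mul_le_mul_of_nonneg_left this (by positivity)
    _ = K * Λ := by field_simp

lemma hh_sq (Λ : ℝ) (K : ℕ) (hK : 1 ≤ K) (m : ℕ) :
    (hh x Λ K m) ^ 2 ≤ (1 / (K:ℝ)) * ∑ k ∈ Finset.range K, (td x Λ k m) ^ 2 := by
  have hK0 : (0:ℝ) < K := by exact_mod_cast hK
  unfold hh
  have h1 : (∑ k ∈ Finset.range K, td x Λ k m) ^ 2 ≤
      (Finset.range K).card * ∑ k ∈ Finset.range K, (td x Λ k m) ^ 2 := sq_sum_le_card_mul_sum_sq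
  rw [Finset.card_range] at h1
  calc (1 / (K:ℝ) * ∑ k ∈ Finset.range K, td x Λ k m) ^ 2
      = (1 / (K:ℝ)) ^ 2 * (∑ k ∈ Finset.range K, td x Λ k m) ^ 2 := by ring
    _ ≤ (1 / (K:ℝ)) ^ 2 * (K * ∑ k ∈ Finset.range K, (td x Λ k m) ^ 2) :=
        mul_le_mul_of_nonneg_left h1 (by positivity)
    _ = _ := by field_simp

lemma td_shift (Λ : ℝ) (k m : ℕ) : td x Λ k m - td x Λ k (m + 1) = tg x Λ m - tg x Λ (m + k) := by
  unfold td
  induction k with
  | zero => simp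
  | succ k ih =>
    rw [Finset.sum_range_succ, Finset.sum_range_succ]
    have : m + 1 + k = m + (k + 1) := by ring
    rw [this]
    linarith

lemma hh_shift (Λ : ℝ) (K : ℕ) (hK : 1 ≤ K) (m : ℕ) :
    tg x Λ m = hh x Λ K m - hh x Λ K (m + 1) + (1 / (K:ℝ)) * td x Λ K m := by
  have hK0 : (0:ℝ) < K := by exact_mod_cast hK
  unfold hh
  rw [← mul_sub, ← mul_add, ← Finset.sum_sub_distrib]
  have h1 : ∑ k ∈ Finset.range K, (td x Λ k m - td x Λ k (m + 1)) = K * tg x Λ m - td x Λ K m := by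
    rw [Finset.sum_congr rfl fun k _ => td_shift (x := x) Λ k m, Finset.sum_sub_distrib,
      Finset.sum_const, Finset.card_range, nsmul_eq_mul]
    rfl
  rw [h1]
  field_simp
  ring

lemma int_step (F : Flow x n) {Φ : ℕ → ℝ} {C : ℝ} (hΦ : ∀ m, |Φ m| ≤ C) {a b : ℕ} (ha : 1 ≤ a) (hab : a ≤ b) :
    ∫ t in (x a)..(x b), Φ (n t) = ∑ m ∈ Finset.Ico a b, (x (m + 1) - x m) * Φ m := by
  have hmeas : Measurable fun t => Φ (n t) := measurable_from_top.comp F.mono_n.measurable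
  rw [← intervalIntegral.sum_integral_adjacent_intervals_Ico hab
    (fun k _ => ii_of_bdd hmeas (C := C) (fun t _ => hΦ _))]
  refine Finset.sum_congr rfl fun m hm => ?_
  rw [Finset.mem_Ico] at hm
  have h1 : x m ≤ x (m + 1) := F.mono_x (by omega) (Nat.le_add_right m 1)
  rw [intervalIntegral.integral_of_le h1, integral_Ioc_eq_integral_Ioo,
    setIntegral_congr_fun (g := fun _ => Φ m) measurableSet_Ioo (fun t ht => ?_), setIntegral_const,
    Real.volume_real_Ioo_of_le h1, smul_eq_mul]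
  have h2 : m ≤ n t := (F.gal m (by omega) t).1 ht.1.le
  have h3 : n t < m + 1 := (F.lt_iff (by omega) t).1 ht.2
  have h4 : n t = m := by omega
  show Φ (n t) = Φ m
  rw [h4]

/-- The change of time. -/
theorem change_time (F : Flow x n) {W X : ℝ} (L : ℝ) (Φ : ℕ → ℝ)
    (hΦ0 : ∀ m, 0 ≤ Φ m) (hΦ : ∀ m, Φ m ≤ L ^ 2)
    (hΦd : ∀ m, |Φ (m + 1) - Φ m| ≤ 4 * (√(Φ m) + 1))
    (J K Λ : ℕ) (hK : 1 ≤ K) (hKΛ : K ≤ Λ) (hJ : K * Λ ≤ 2 ^ (J + 2))
    (hV : ∀ l : ℕ, l ≤ K + 2 ^ J → ∫ t in (0:ℝ)..X, (Dd n (l : ℝ) t) ^ 2 ≤ W)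
    (hVΛ : ∫ t in (0:ℝ)..X, (Dd n (Λ : ℝ) t) ^ 2 ≤ W)
    (a b : ℕ) (ha : 1 ≤ a) (hab : a ≤ b) (hxa : (2:ℝ) ^ J < x a) (hxb : x (b + 1) + 2 ^ J ≤ X)
    {A : ℝ} (hA : 0 < A) :
    |(∫ t in (x a)..(x b), Φ (n t)) - ∑ m ∈ Finset.Ico a b, Φ m| ≤
      L ^ 2 * (W / (Λ:ℝ) ^ 2) + 2 * (L ^ 2 * (K * Λ)) +
      2 * A * (4 * ((b:ℝ) - a) + 64 * (J + 1) * W) +
      4 / A * (∑ m ∈ Finset.Ico a b, Φ m + ((b:ℝ) - a)) +
      L ^ 2 / (2 * K) * (((b:ℝ) - a) + (4 * ((b:ℝ) - a) + 64 * (J + 1) * W)) := by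
  have hK0 : (0:ℝ) < K := by exact_mod_cast hK
  have hΛ : 1 ≤ Λ := hK.trans hKΛ
  have hΛ' : (1:ℝ) ≤ Λ := by exact_mod_cast hΛ
  have hxbb : x b ≤ x (b + 1) := F.mono_x (by omega) (by omega)
  have hp0 : (0:ℝ) < 2 ^ J := by positivity
  have hba : ((b:ℝ) - a) = ((b - a : ℕ) : ℝ) := (Nat.cast_sub hab).symm
  have hba0 : 0 ≤ (b:ℝ) - a := by rw [hba]; positivity
  set B : ℝ := 4 * ((b:ℝ) - a) + 64 * (J + 1) * W with hB
  set SΦ := ∑ m ∈ Finset.Ico a b, Φ m with hSΦ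
  -- second moments
  have hB1 : ∀ k ≤ K, ∑ m ∈ Finset.Ico a b, (td x Λ k m) ^ 2 ≤ B := fun k hk =>
    F.sum_td_sq J K Λ hΛ hKΛ hJ hV a b ha hab hxa (by linarith) k hk
  have hB2 : ∑ m ∈ Finset.Ico a b, (hh x Λ K (m + 1)) ^ 2 ≤ B := by
    have h1 : ∑ m ∈ Finset.Ico a b, (hh x Λ K (m + 1)) ^ 2 ≤
        ∑ m ∈ Finset.Ico a b, (1 / (K:ℝ)) * ∑ k ∈ Finset.range K, (td x Λ k (m + 1)) ^ 2 :=
      Finset.sum_le_sum fun m _ => hh_sq Λ K hK (m + 1)
    rw [← Finset.mul_sum, Finset.sum_comm] at h1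
    refine h1.trans ?_
    have h2 : ∑ k ∈ Finset.range K, ∑ m ∈ Finset.Ico a b, (td x Λ k (m + 1)) ^ 2 ≤
        ∑ k ∈ Finset.range K, B := by
      refine Finset.sum_le_sum fun k hk => ?_
      rw [Finset.mem_range] at hk
      have h3 := F.sum_td_sq J K Λ hΛ hKΛ hJ hV (a + 1) (b + 1) (by omega) (by omega)
        (lt_of_lt_of_le hxa (F.mono_x ha (by omega))) hxb k hk.le
      rw [Finset.sum_Ico_add' (fun m => (td x (Λ:ℝ) k m) ^ 2) a b 1]
      refine h3.trans (le_of_eq ?_)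
      rw [hB]
      push_cast
      ring
    rw [Finset.sum_const, Finset.card_range, nsmul_eq_mul] at h2
    calc 1 / (K:ℝ) * ∑ k ∈ Finset.range K, ∑ m ∈ Finset.Ico a b, (td x Λ k (m + 1)) ^ 2
        ≤ 1 / (K:ℝ) * (K * B) := mul_le_mul_of_nonneg_left h2 (by positivity)
      _ = B := by field_simp
  have hBnn : 0 ≤ B := (Finset.sum_nonneg fun m _ => sq_nonneg _).trans (hB1 0 (Nat.zero_le _))
  -- decomposition
  have hdec : (∫ t in (x a)..(x b), Φ (n t)) - SΦ =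
      (∑ m ∈ Finset.Ico a b, Φ m * (x (m + 1) - x m - min (x (m + 1) - x m) Λ)) +
      (Φ a * hh x Λ K a - Φ b * hh x Λ K b) +
      (∑ m ∈ Finset.Ico a b, (Φ (m + 1) - Φ m) * hh x Λ K (m + 1)) +
      (∑ m ∈ Finset.Ico a b, Φ m * ((1 / (K:ℝ)) * td x Λ K m)) := by
    rw [F.int_step (C := L ^ 2) (fun m => by rw [abs_of_nonneg (hΦ0 m)]; exact hΦ m) ha hab, hSΦ,
      ← Finset.sum_sub_distrib]
    have htel : Φ a * hh x Λ K a - Φ b * hh x Λ K b =
        -(∑ m ∈ Finset.Ico a b, (Φ (m + 1) * hh x Λ K (m + 1) - Φ m * hh x Λ K m)) := by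
      rw [Finset.sum_Ico_sub (fun m => Φ m * hh x Λ K m) hab]
      ring
    rw [htel, ← Finset.sum_neg_distrib, ← Finset.sum_add_distrib, ← Finset.sum_add_distrib,
      ← Finset.sum_add_distrib]
    refine Finset.sum_congr rfl fun m _ => ?_
    have h1 := hh_shift (x := x) (Λ:ℝ) K hK m
    unfold tg at h1
    have h2 : min (x (m + 1) - x m) (Λ:ℝ) =
      1 + (hh x Λ K m - hh x Λ K (m + 1) + 1 / (K:ℝ) * td x Λ K m) := by linarith
    rw [h2]
    ring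
  -- the four terms
  have hT1 : |∑ m ∈ Finset.Ico a b, Φ m * (x (m + 1) - x m - min (x (m + 1) - x m) Λ)| ≤
      L ^ 2 * (W / (Λ:ℝ) ^ 2) := by
    have hex := F.sum_excess (W := W) (X := X) Λ hΛ (by linarith [F.mono_x ha hab]) hVΛ (Finset.Ico a b)
      (fun m hm => by
        rw [Finset.mem_Ico] at hm
        have h1 := F.mono_x ha hm.1
        have h2 := F.mono_x (by omega : 1 ≤ m + 1) (by omega : m + 1 ≤ b + 1)
        exact ⟨by omega, by linarith, by linarith⟩)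
    have hnn : ∀ m, 0 ≤ x (m + 1) - x m - min (x (m + 1) - x m) (Λ:ℝ) := fun m => by
      have := min_le_left (x (m + 1) - x m) (Λ:ℝ)
      linarith
    rw [abs_of_nonneg (Finset.sum_nonneg fun m _ => mul_nonneg (hΦ0 m) (hnn m))]
    calc _ ≤ ∑ m ∈ Finset.Ico a b, L ^ 2 * (x (m + 1) - x m - min (x (m + 1) - x m) Λ) :=
          Finset.sum_le_sum fun m _ => mul_le_mul_of_nonneg_right (hΦ m) (hnn m)
      _ = L ^ 2 * ∑ m ∈ Finset.Ico a b, (x (m + 1) - x m - min (x (m + 1) - x m) Λ) := by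
          rw [Finset.mul_sum]
      _ ≤ _ := mul_le_mul_of_nonneg_left hex (sq_nonneg L)
  have hT2 : |Φ a * hh x Λ K a - Φ b * hh x Λ K b| ≤ 2 * (L ^ 2 * (K * Λ)) := by
    have h1 : ∀ m, 1 ≤ m → |Φ m * hh x Λ K m| ≤ L ^ 2 * (K * Λ) := fun m hm => by
      rw [abs_mul, abs_of_nonneg (hΦ0 m)]
      exact mul_le_mul (hΦ m) (F.hh_abs hΛ' K hK hm) (abs_nonneg _) (sq_nonneg L)
    have h2 := h1 a ha
    have h3 := h1 b (ha.trans hab)
    have h4 := abs_sub (Φ a * hh x Λ K a) (Φ b * hh x Λ K b)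
    linarith
  have hT3 : |∑ m ∈ Finset.Ico a b, (Φ (m + 1) - Φ m) * hh x Λ K (m + 1)| ≤
      2 * A * B + 4 / A * (SΦ + ((b:ℝ) - a)) := by
    refine (Finset.abs_sum_le_sum_abs _ _).trans ?_
    have h1 : ∀ m ∈ Finset.Ico a b, |(Φ (m + 1) - Φ m) * hh x Λ K (m + 1)| ≤
        2 * A * (hh x Λ K (m + 1)) ^ 2 + 4 / A * (Φ m + 1) := by
      intro m _
      rw [abs_mul]
      have h2 := mul_le_mul_of_nonneg_right (hΦd m) (abs_nonneg (hh x Λ K (m + 1)))
      refine h2.trans ?_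
      have h3 : √(Φ m) ^ 2 = Φ m := Real.sq_sqrt (hΦ0 m)
      have h4 : (hh x Λ K (m + 1)) ^ 2 = |hh x Λ K (m + 1)| ^ 2 := (sq_abs _).symm
      have h5 := Real.sqrt_nonneg (Φ m)
      rw [h4]
      set r := |hh x Λ K (m + 1)|
      set s := √(Φ m)
      rw [← h3]
      have h6 : 2 * A * r ^ 2 + 4 / A * (s ^ 2 + 1) - 4 * (s + 1) * r =
          (2 / A) * ((A * r - (s + 1)) ^ 2 + (s - 1) ^ 2) := by
        field_simp
        ring
      have h7 : 0 ≤ (2 / A) * ((A * r - (s + 1)) ^ 2 + (s - 1) ^ 2) := by positivity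
      linarith
    refine (Finset.sum_le_sum h1).trans ?_
    rw [Finset.sum_add_distrib, ← Finset.mul_sum, ← Finset.mul_sum, Finset.sum_add_distrib,
      Finset.sum_const, Nat.card_Ico, nsmul_eq_mul, mul_one, ← hba, ← hSΦ]
    have h2 := mul_le_mul_of_nonneg_left hB2 (by positivity : 0 ≤ 2 * A)
    linarith
  have hT4 : |∑ m ∈ Finset.Ico a b, Φ m * ((1 / (K:ℝ)) * td x Λ K m)| ≤
      L ^ 2 / (2 * K) * (((b:ℝ) - a) + B) := by
    refine (Finset.abs_sum_le_sum_abs _ _).trans ?_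
    have h1 : ∀ m ∈ Finset.Ico a b, |Φ m * ((1 / (K:ℝ)) * td x Λ K m)| ≤
        L ^ 2 / (2 * K) * (1 + (td x Λ K m) ^ 2) := by
      intro m _
      rw [abs_mul, abs_mul, abs_of_nonneg (hΦ0 m), abs_of_pos (by positivity : 0 < 1 / (K:ℝ))]
      have h2 : |td x Λ K m| ≤ (1 + (td x Λ K m) ^ 2) / 2 := by
        rw [← sq_abs]
        nlinarith [sq_nonneg (|td x Λ K m| - 1)]
      calc Φ m * (1 / (K:ℝ) * |td x Λ K m|) ≤ L ^ 2 * (1 / (K:ℝ) * ((1 + (td x Λ K m) ^ 2) / 2)) :=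
            mul_le_mul (hΦ m) (mul_le_mul_of_nonneg_left h2 (by positivity)) (by positivity)
              (sq_nonneg L)
        _ = _ := by field_simp
    refine (Finset.sum_le_sum h1).trans ?_
    rw [← Finset.mul_sum, Finset.sum_add_distrib, Finset.sum_const, Nat.card_Ico, nsmul_eq_mul,
      mul_one, ← hba]
    have h2 := hB1 K le_rfl
    exact mul_le_mul_of_nonneg_left (by linarith) (by positivity)
  rw [hdec]
  have e1 := abs_add_le ((∑ m ∈ Finset.Ico a b, Φ m * (x (m + 1) - x m - min (x (m + 1) - x m) Λ)) +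
      (Φ a * hh x Λ K a - Φ b * hh x Λ K b) +
      (∑ m ∈ Finset.Ico a b, (Φ (m + 1) - Φ m) * hh x Λ K (m + 1)))
      (∑ m ∈ Finset.Ico a b, Φ m * ((1 / (K:ℝ)) * td x Λ K m))
  have e2 := abs_add_le ((∑ m ∈ Finset.Ico a b, Φ m * (x (m + 1) - x m - min (x (m + 1) - x m) Λ)) +
      (Φ a * hh x Λ K a - Φ b * hh x Λ K b))
      (∑ m ∈ Finset.Ico a b, (Φ (m + 1) - Φ m) * hh x Λ K (m + 1))
  have e3 := abs_add_le (∑ m ∈ Finset.Ico a b, Φ m * (x (m + 1) - x m - min (x (m + 1) - x m) Λ))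
      (Φ a * hh x Λ K a - Φ b * hh x Λ K b)
  linarith

end Flow

end Q172.Diff
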