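import Pool.Agent.Q172.Diff.P2

/-! Root mean squares: index windows against position windows (abstract form). -/

set_option autoImplicit false

namespace Q172.Diff

open MeasureTheory Set

lemma root_close {u v q : ℝ} (hu : 0 ≤ u) (hv : 0 ≤ v) (hq : 0 < q)
    (h : |v ^ 2 - u ^ 2| ≤ 11 * q ^ 2 + 10 * q * u) : |v - u| ≤ 21 * q := by
  rcases le_total (u + v) q with h1 | h1
  · rw [abs_le]
    constructor <;> linarith
  · have h2 : |v ^ 2 - u ^ 2| = |v - u| * (u + v) := by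
      rw [show v ^ 2 - u ^ 2 = (v - u) * (u + v) by ring, abs_mul, abs_of_nonneg (by linarith : 0 ≤ u + v)]
    rw [h2] at h
    have hs : 0 < u + v := by linarith
    have h3 : 11 * q ^ 2 + 10 * q * u ≤ 21 * q * (u + v) := by
      nlinarith [mul_le_mul_of_nonneg_left h1 hq.le, mul_nonneg hq.le hv]
    exact le_of_mul_le_mul_right (h.trans h3) hs

/-- a form of the triangle inequality -/
lemma tri_aux {y a b : ℝ} (ha : 0 ≤ a) (hb : 0 ≤ b)
    (h : ∀ s : ℝ, 0 < s → y ≤ (1 + s) * a + (1 + 1 / s) * b) : √y ≤ √a + √b := by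
  refine Real.sqrt_le_iff.2 ⟨by positivity, ?_⟩
  have e : (√a + √b) ^ 2 = a + b + 2 * (√a * √b) := by
    have := Real.sq_sqrt ha
    have := Real.sq_sqrt hb
    nlinarith
  rw [e]
  rcases ha.eq_or_lt with h0 | h0
  · rw [← h0] at h ⊢
    simp only [mul_zero, zero_add, Real.sqrt_zero, zero_mul, add_zero] at h ⊢
    refine le_of_forall_pos_le_add fun ε hε => ?_
    have h1 := h ((b + 1) / ε) (by positivity)
    have h2 : (1 + 1 / ((b + 1) / ε)) * b ≤ b + ε := by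
      rw [one_div_div, add_mul, one_mul, add_le_add_iff_left, div_mul_eq_mul_div,
        div_le_iff₀ (by positivity)]
      nlinarith
    linarith
  rcases hb.eq_or_lt with h1 | h1
  · rw [← h1] at h ⊢
    simp only [mul_zero, add_zero, Real.sqrt_zero] at h ⊢
    refine le_of_forall_pos_le_add fun ε hε => ?_
    have h2 := h (ε / (a + 1)) (by positivity)
    have h3 : (1 + ε / (a + 1)) * a ≤ a + ε := by
      rw [add_mul, one_mul, add_le_add_iff_left, div_mul_eq_mul_div, div_le_iff₀ (by positivity)]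
      nlinarith
    linarith
  · have sa := Real.sqrt_pos.2 h0
    have sb := Real.sqrt_pos.2 h1
    refine (h (√b / √a) (by positivity)).trans (le_of_eq ?_)
    have ea : a = √a * √a := (Real.mul_self_sqrt ha).symm
    have eb : b = √b * √b := (Real.mul_self_sqrt hb).symm
    set r := √a
    set s := √b
    rw [ea, eb]
    field_simp
    ring

/-- the triangle inequality for root mean squares of functions -/
lemma mink {f g d : ℝ → ℝ} {a b : ℝ} (hab : a ≤ b)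
    (hf : IntervalIntegrable (fun t => f t ^ 2) volume a b)
    (hg : IntervalIntegrable (fun t => g t ^ 2) volume a b)
    (hd : IntervalIntegrable (fun t => d t ^ 2) volume a b)
    (h : ∀ t ∈ Icc a b, |f t| ≤ |g t| + |d t|) :
    √(∫ t in a..b, f t ^ 2) ≤ √(∫ t in a..b, g t ^ 2) + √(∫ t in a..b, d t ^ 2) := by
  refine tri_aux (intervalIntegral.integral_nonneg hab fun t _ => sq_nonneg _)
    (intervalIntegral.integral_nonneg hab fun t _ => sq_nonneg _) fun s hs => ?_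
  rw [← intervalIntegral.integral_const_mul, ← intervalIntegral.integral_const_mul,
    ← intervalIntegral.integral_add (hg.const_mul _) (hd.const_mul _)]
  refine intervalIntegral.integral_mono_on hab hf ((hg.const_mul _).add (hd.const_mul _))
    fun t ht => ?_
  have h1 := h t ht
  rw [← sq_abs (f t), ← sq_abs (g t), ← sq_abs (d t)]
  have h2 : |f t| ^ 2 ≤ (|g t| + |d t|) ^ 2 := pow_le_pow_left₀ (abs_nonneg _) h1 2
  refine h2.trans ?_
  set u := |g t|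
  set v := |d t|
  have h3 : (1 + s) * u ^ 2 + (1 + 1 / s) * v ^ 2 - (u + v) ^ 2 = (s * u - v) ^ 2 / s := by
    field_simp
    ring
  have h4 : 0 ≤ (s * u - v) ^ 2 / s := by positivity
  linarith

/-- the same for finite sums -/
lemma mink_sum {ι : Type*} (S : Finset ι) (f g d : ι → ℝ)
    (h : ∀ i ∈ S, |f i| ≤ |g i| + |d i|) :
    √(∑ i ∈ S, f i ^ 2) ≤ √(∑ i ∈ S, g i ^ 2) + √(∑ i ∈ S, d i ^ 2) := by
  refine tri_aux (Finset.sum_nonneg fun t _ => sq_nonneg _)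
    (Finset.sum_nonneg fun t _ => sq_nonneg _) fun s hs => ?_
  rw [Finset.mul_sum, Finset.mul_sum, ← Finset.sum_add_distrib]
  refine Finset.sum_le_sum fun t ht => ?_
  have h1 := h t ht
  rw [← sq_abs (f t), ← sq_abs (g t), ← sq_abs (d t)]
  have h2 : |f t| ^ 2 ≤ (|g t| + |d t|) ^ 2 := pow_le_pow_left₀ (abs_nonneg _) h1 2
  refine h2.trans ?_
  set u := |g t|
  set v := |d t|
  have h3 : (1 + s) * u ^ 2 + (1 + 1 / s) * v ^ 2 - (u + v) ^ 2 = (s * u - v) ^ 2 / s := by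
    field_simp
    ring
  have h4 : 0 ≤ (s * u - v) ^ 2 / s := by positivity
  linarith

namespace Flow
variable {x : ℕ → ℝ} {n : ℝ → ℕ}

/-- index mean against position mean -/
theorem idx_pos (F : Flow x n) (L J : ℕ) (hL : 1 ≤ L) (Φ : ℕ → ℝ)
    (hΦ0 : ∀ m, 0 ≤ Φ m) (hΦ : ∀ m, Φ m ≤ (L:ℝ) ^ 2)
    (hΦd : ∀ m, |Φ (m + 1) - Φ m| ≤ 4 * (√(Φ m) + 1))
    (hJ : L ^ 2 * L ^ 2 ≤ 2 ^ (J + 2)) {V X : ℝ} (hV0 : 0 ≤ V) (hX : 0 < X)
    (hV : ∀ l : ℕ, l ≤ L ^ 2 + 2 ^ J → ∫ t in (0:ℝ)..X, (Dd n (l : ℝ) t) ^ 2 ≤ V * X)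
    (N b : ℕ) (hb : 1 ≤ b) (hbN : b ≤ N + 1) (hx1 : (2:ℝ) ^ J < x 1) (hxb : x (b + 1) + 2 ^ J ≤ X)
    (e1 : (L:ℝ) ^ 2 * (x 1 + X - x b) ≤ X / 4) (e2 : (L:ℝ) ^ 2 * ((N:ℝ) + 1 - b) ≤ X / 4)
    (e3 : (L:ℝ) ^ 2 * (2 * ((L:ℝ) ^ 2 * (L:ℝ) ^ 2)) ≤ X / 4) (e4 : (L:ℝ) ^ 2 * |(N:ℝ) - X| ≤ X / 4) :
    |√(1 / X * ∫ t in (0:ℝ)..X, Φ (n t)) - √(1 / N * ∑ m ∈ Finset.Icc 1 N, Φ m)| ≤
      21 * √(8 + 64 * (J + 1) * V) := by
  have hL0 : (1:ℝ) ≤ L := by exact_mod_cast hL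
  have hL2 : (1:ℝ) ≤ (L:ℝ) ^ 2 := one_le_pow₀ hL0
  have hp0 : (0:ℝ) < 2 ^ J := by positivity
  -- N is close to X
  have hNX : |(N:ℝ) - X| ≤ X / 4 := by
    have : |(N:ℝ) - X| ≤ (L:ℝ) ^ 2 * |(N:ℝ) - X| := le_mul_of_one_le_left (abs_nonneg _) hL2
    linarith
  obtain ⟨hN1, hN2⟩ := abs_le.1 hNX
  have hN0 : (0:ℝ) < N := by linarith
  have hNn : 1 ≤ N := by
    have : 0 < N := by exact_mod_cast hN0
    exact this
  set Vi := 1 / N * ∑ m ∈ Finset.Icc 1 N, Φ m with hVi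
  set Vp := 1 / X * ∫ t in (0:ℝ)..X, Φ (n t) with hVp
  set Q := 8 + 64 * ((J:ℝ) + 1) * V with hQ
  have hQ8 : 8 ≤ Q := by
    rw [hQ]
    have : 0 ≤ 64 * ((J:ℝ) + 1) * V := by positivity
    linarith
  have hSnn : 0 ≤ ∑ m ∈ Finset.Icc 1 N, Φ m := Finset.sum_nonneg fun m _ => hΦ0 m
  have hVi0 : 0 ≤ Vi := mul_nonneg (by positivity) hSnn
  have hVp0 : 0 ≤ Vp := mul_nonneg (by positivity)
    (intervalIntegral.integral_nonneg hX.le fun t _ => hΦ0 _)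
  set A := √(Vi + 1) / √Q with hA
  have hA0 : 0 < A := by
    have := Real.sqrt_pos.2 (by linarith : 0 < Vi + 1)
    have := Real.sqrt_pos.2 (by linarith : 0 < Q)
    positivity
  have key := F.change_time (W := V * X) (X := X) (L:ℝ) Φ hΦ0 hΦ hΦd J (L ^ 2) (L ^ 2)
    (Nat.one_le_pow _ _ hL) le_rfl hJ hV (hV _ (Nat.le_add_right _ _)) 1 b le_rfl hb hx1 hxb hA0
  push_cast at key
  have hmeas : Measurable fun t => Φ (n t) := measurable_from_top.comp F.mono_n.measurable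
  have hii : ∀ a b : ℝ, IntervalIntegrable (fun t => Φ (n t)) volume a b := fun a b =>
    ii_of_bdd hmeas (C := (L:ℝ) ^ 2) (fun t _ => by rw [abs_of_nonneg (hΦ0 _)]; exact hΦ _)
  have hx1b : x 1 ≤ x b := F.mono_x le_rfl hb
  have hxbb : x b ≤ x (b + 1) := F.mono_x hb (by omega)
  have hsplit : ∫ t in (0:ℝ)..X, Φ (n t) = (∫ t in (0:ℝ)..(x 1), Φ (n t)) +
      (∫ t in (x 1)..(x b), Φ (n t)) + ∫ t in (x b)..X, Φ (n t) := by
    rw [intervalIntegral.integral_add_adjacent_intervals (hii _ _) (hii _ _),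
      intervalIntegral.integral_add_adjacent_intervals (hii _ _) (hii _ _)]
  have hbd : ∀ a b : ℝ, a ≤ b → 0 ≤ ∫ t in a..b, Φ (n t) ∧
      ∫ t in a..b, Φ (n t) ≤ (L:ℝ) ^ 2 * (b - a) := by
    intro a b hab
    refine ⟨intervalIntegral.integral_nonneg hab fun t _ => hΦ0 _, ?_⟩
    have := intervalIntegral.integral_mono_on hab (hii a b) (intervalIntegrable_const (c := (L:ℝ) ^ 2))
      (fun t _ => hΦ (n t))
    rw [intervalIntegral.integral_const, smul_eq_mul] at this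
    linarith
  obtain ⟨p1, p2⟩ := hbd 0 (x 1) (by linarith)
  obtain ⟨p3, p4⟩ := hbd (x b) X (by linarith)
  have hssplit : ∑ m ∈ Finset.Icc 1 N, Φ m = ∑ m ∈ Finset.Ico 1 b, Φ m +
      ∑ m ∈ Finset.Ico b (N + 1), Φ m := by
    rw [Finset.sum_Ico_consecutive Φ hb hbN]
    rfl
  have hs0 : 0 ≤ ∑ m ∈ Finset.Ico b (N + 1), Φ m := Finset.sum_nonneg fun m _ => hΦ0 m
  have hs1 : ∑ m ∈ Finset.Ico b (N + 1), Φ m ≤ (L:ℝ) ^ 2 * ((N:ℝ) + 1 - b) := by
    have h1 : ∑ m ∈ Finset.Ico b (N + 1), Φ m ≤ ∑ m ∈ Finset.Ico b (N + 1), (L:ℝ) ^ 2 :=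
      Finset.sum_le_sum fun m _ => hΦ m
    rw [Finset.sum_const, Nat.card_Ico, nsmul_eq_mul, Nat.cast_sub hbN] at h1
    push_cast at h1
    linarith
  have hs2 : 0 ≤ ∑ m ∈ Finset.Ico 1 b, Φ m := Finset.sum_nonneg fun m _ => hΦ0 m
  have hsN : ∑ m ∈ Finset.Icc 1 N, Φ m = N * Vi := by
    rw [hVi]; field_simp
  have hiX : ∫ t in (0:ℝ)..X, Φ (n t) = X * Vp := by
    rw [hVp]; field_simp
  have hViL : Vi ≤ (L:ℝ) ^ 2 := by
    rw [hVi, one_div, inv_mul_le_iff₀ hN0]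
    have h1 : ∑ m ∈ Finset.Icc 1 N, Φ m ≤ ∑ m ∈ Finset.Icc 1 N, (L:ℝ) ^ 2 :=
      Finset.sum_le_sum fun m _ => hΦ m
    rwa [Finset.sum_const, Nat.card_Icc, nsmul_eq_mul, Nat.add_sub_cancel] at h1
  have hb1 : (1:ℝ) ≤ b := by exact_mod_cast hb
  have hbN' : (b:ℝ) ≤ N + 1 := by exact_mod_cast hbN
  -- bound of the right side
  have hN2X : (b:ℝ) - 1 ≤ 2 * X := by linarith
  have r1 : (L:ℝ) ^ 2 * (V * X / ((L:ℝ) ^ 2) ^ 2) ≤ V * X := by
    have : (L:ℝ) ^ 2 * (V * X / ((L:ℝ) ^ 2) ^ 2) = V * X / (L:ℝ) ^ 2 := by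
      field_simp
    rw [this]
    exact div_le_self (by positivity) hL2
  have r2 : 2 * ((L:ℝ) ^ 2 * ((L:ℝ) ^ 2 * (L:ℝ) ^ 2)) ≤ X / 4 := by linarith
  have hB : 4 * ((b:ℝ) - 1) + 64 * ((J:ℝ) + 1) * (V * X) ≤ Q * X := by
    have e : Q * X = 8 * X + 64 * ((J:ℝ) + 1) * (V * X) := by rw [hQ]; ring
    rw [e]
    linarith
  have r3 : 2 * A * (4 * ((b:ℝ) - 1) + 64 * ((J:ℝ) + 1) * (V * X)) ≤ 2 * A * (Q * X) :=
    mul_le_mul_of_nonneg_left hB (by positivity)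
  have hsb : ∑ m ∈ Finset.Ico 1 b, Φ m + ((b:ℝ) - 1) ≤ 2 * X * (Vi + 1) := by
    have h1 : ∑ m ∈ Finset.Ico 1 b, Φ m ≤ N * Vi := by
      rw [← hsN, hssplit]; linarith
    have h2 : (N:ℝ) * Vi ≤ 2 * X * Vi := mul_le_mul_of_nonneg_right (by linarith) hVi0
    linarith
  have r4 : 4 / A * (∑ m ∈ Finset.Ico 1 b, Φ m + ((b:ℝ) - 1)) ≤ 4 / A * (2 * X * (Vi + 1)) :=
    mul_le_mul_of_nonneg_left hsb (by positivity)
  have r5 : (L:ℝ) ^ 2 / (2 * (L:ℝ) ^ 2) * (((b:ℝ) - 1) + (4 * ((b:ℝ) - 1) +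
      64 * ((J:ℝ) + 1) * (V * X))) ≤ 5 * X + 32 * ((J:ℝ) + 1) * (V * X) := by
    have : (L:ℝ) ^ 2 / (2 * (L:ℝ) ^ 2) = 1 / 2 := by
      field_simp
    rw [this]
    linarith
  have hAQ : 2 * A * (Q * X) + 4 / A * (2 * X * (Vi + 1)) = 10 * (√Q * √(Vi + 1)) * X := by
    have sq1 : √Q * √Q = Q := Real.mul_self_sqrt (by linarith)
    have sq2 : √(Vi + 1) * √(Vi + 1) = Vi + 1 := Real.mul_self_sqrt (by linarith)
    have s1 := Real.sqrt_pos.2 (by linarith : 0 < Vi + 1)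
    have s2 := Real.sqrt_pos.2 (by linarith : 0 < Q)
    rw [hA]
    nth_rewrite 2 [← sq1]
    nth_rewrite 3 [← sq2]
    field_simp
    ring
  have hVV : V * X ≤ ((J:ℝ) + 1) * (V * X) := by
    have : 0 ≤ (J:ℝ) * (V * X) := by positivity
    linarith
  have hmain : |X * Vp - N * Vi| ≤ (Q - 2) * X + X / 4 + X / 4 + X / 4 +
      10 * (√Q * √(Vi + 1)) * X := by
    have h1 : X * Vp - N * Vi = ((∫ t in (x 1)..(x b), Φ (n t)) - ∑ m ∈ Finset.Ico 1 b, Φ m) +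
        ((∫ t in (0:ℝ)..(x 1), Φ (n t)) + ∫ t in (x b)..X, Φ (n t)) -
        ∑ m ∈ Finset.Ico b (N + 1), Φ m := by
      rw [← hsN, ← hiX, hsplit, hssplit]; ring
    have h2 : (Q - 2) * X = 6 * X + 64 * (((J:ℝ) + 1) * (V * X)) := by rw [hQ]; ring
    rw [h1, h2]
    have hVX : 0 ≤ V * X := by positivity
    obtain ⟨k1, k2⟩ := abs_le.1 key
    rw [abs_le]
    constructor <;> linarith
  have hfin : |Vp - Vi| ≤ Q + 10 * (√Q * √(Vi + 1)) := by
    have h1 : X * (Vp - Vi) = (X * Vp - N * Vi) + ((N:ℝ) - X) * Vi := by ring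
    have h2 : |((N:ℝ) - X) * Vi| ≤ X / 4 := by
      rw [abs_mul, abs_of_nonneg hVi0]
      have := mul_le_mul_of_nonneg_left hViL (abs_nonneg ((N:ℝ) - X))
      linarith
    have h3 : |X * (Vp - Vi)| ≤ (Q + 10 * (√Q * √(Vi + 1))) * X := by
      rw [h1]
      refine (abs_add_le _ _).trans ?_
      have := add_le_add hmain h2
      refine this.trans ?_
      linarith
    rw [abs_mul, abs_of_pos hX, mul_comm] at h3
    exact le_of_mul_le_mul_right h3 hX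
  -- conclusion
  have sQ := Real.sqrt_pos.2 (by linarith : 0 < Q)
  have hsQ1 : 1 ≤ √Q := Real.one_le_sqrt.2 (by linarith)
  have hsV : √(Vi + 1) ≤ √Vi + 1 := by
    rw [Real.sqrt_le_left (by positivity)]
    have e : (√Vi + 1) ^ 2 = √Vi ^ 2 + 2 * √Vi + 1 := by ring
    rw [e, Real.sq_sqrt hVi0]
    have := Real.sqrt_nonneg Vi
    linarith
  refine root_close (Real.sqrt_nonneg _) (Real.sqrt_nonneg _) sQ ?_
  rw [Real.sq_sqrt hVp0, Real.sq_sqrt hVi0, Real.sq_sqrt (by linarith : 0 ≤ Q)]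
  refine hfin.trans ?_
  have h5 : √Q * √(Vi + 1) ≤ √Q * (√Vi + 1) := mul_le_mul_of_nonneg_left hsV sQ.le
  have h6 : √Q ≤ Q := by
    calc √Q = √Q * 1 := (mul_one _).symm
      _ ≤ √Q * √Q := mul_le_mul_of_nonneg_left hsQ1 sQ.le
      _ = Q := Real.mul_self_sqrt (by linarith)
  linarith

end Flow

end Q172.Diff
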