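import Pool.Agent.Q172.Diff.P3

/-! Window sums with weights: positions, indices, and the quadratic form. -/

set_option autoImplicit false

namespace Q172.Diff

open MeasureTheory Set

/-- sum over the `L` points after the `m`-th -/
noncomputable def Wz (z : ℕ → ℂ) (L m : ℕ) : ℂ := ∑ j ∈ Finset.Ioc m (m + L), z j

/-- sum over the points in `(t, t + L]` -/
noncomputable def Uw (n : ℝ → ℕ) (z : ℕ → ℂ) (L t : ℝ) : ℂ := ∑ j ∈ Finset.Ioc (n t) (n (t + L)), z j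

lemma sum_Ioc_le {z : ℕ → ℂ} (hz : ∀ j, ‖z j‖ ≤ 1) {a b : ℕ} (hab : a ≤ b) :
    ‖∑ j ∈ Finset.Ioc a b, z j‖ ≤ (b:ℝ) - a := by
  refine (norm_sum_le _ _).trans ?_
  have : ∑ j ∈ Finset.Ioc a b, ‖z j‖ ≤ ∑ j ∈ Finset.Ioc a b, (1:ℝ) := Finset.sum_le_sum fun j _ => hz j
  rw [Finset.sum_const, Nat.card_Ioc, nsmul_eq_mul, mul_one, Nat.cast_sub hab] at this
  exact this

lemma Ioc_diff {z : ℕ → ℂ} (hz : ∀ j, ‖z j‖ ≤ 1) {a b c : ℕ} (hab : a ≤ b) (hac : a ≤ c) :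
    ‖∑ j ∈ Finset.Ioc a b, z j - ∑ j ∈ Finset.Ioc a c, z j‖ ≤ |(b:ℝ) - c| := by
  rcases le_total b c with h | h
  · rw [← Finset.sum_Ioc_consecutive z hab h, sub_add_cancel_left, norm_neg]
    refine (sum_Ioc_le hz h).trans ?_
    rw [abs_sub_comm]
    exact le_abs_self _
  · rw [← Finset.sum_Ioc_consecutive z hac h, add_sub_cancel_left]
    exact (sum_Ioc_le hz h).trans (le_abs_self _)

lemma Wz_le {z : ℕ → ℂ} (hz : ∀ j, ‖z j‖ ≤ 1) (L m : ℕ) : ‖Wz z L m‖ ≤ L := by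
  have := sum_Ioc_le hz (Nat.le_add_right m L)
  push_cast at this
  unfold Wz
  linarith

lemma Wz_shift {z : ℕ → ℂ} (hz : ∀ j, ‖z j‖ ≤ 1) (L m : ℕ) : ‖Wz z L (m + 1) - Wz z L m‖ ≤ 2 := by
  have h1 : Wz z L (m + 1) - Wz z L m = z (m + L + 1) - z (m + 1) := by
    unfold Wz
    have e1 := Finset.sum_Ioc_consecutive z (Nat.le_add_right m 1) (by omega : m + 1 ≤ m + 1 + L)
    have e2 := Finset.sum_Ioc_consecutive z (Nat.le_add_right m L) (by omega : m + L ≤ m + L + 1)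
    have e3 : ∑ j ∈ Finset.Ioc m (m + 1), z j = z (m + 1) := by
      rw [Nat.Ioc_succ_singleton, Finset.sum_singleton]
    have e4 : ∑ j ∈ Finset.Ioc (m + L) (m + L + 1), z j = z (m + L + 1) := by
      rw [Nat.Ioc_succ_singleton, Finset.sum_singleton]
    rw [e3] at e1
    rw [e4] at e2
    have e5 : m + 1 + L = m + L + 1 := by ring
    rw [e5] at e1 ⊢
    rw [← e2] at e1
    linear_combination e1
  rw [h1]
  refine (norm_sub_le _ _).trans ?_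
  have := hz (m + L + 1)
  have := hz (m + 1)
  linarith

lemma Phi_diff {z : ℕ → ℂ} (hz : ∀ j, ‖z j‖ ≤ 1) (L m : ℕ) :
    |‖Wz z L (m + 1)‖ ^ 2 - ‖Wz z L m‖ ^ 2| ≤ 4 * (√(‖Wz z L m‖ ^ 2) + 1) := by
  rw [Real.sqrt_sq (norm_nonneg _)]
  have h1 := (abs_norm_sub_norm_le (Wz z L (m + 1)) (Wz z L m)).trans (Wz_shift hz L m)
  have h0 := norm_nonneg (Wz z L m)
  have h0' := norm_nonneg (Wz z L (m + 1))
  obtain ⟨h2, h3⟩ := abs_le.1 h1
  rw [show ‖Wz z L (m + 1)‖ ^ 2 - ‖Wz z L m‖ ^ 2 =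
    (‖Wz z L (m + 1)‖ - ‖Wz z L m‖) * (‖Wz z L (m + 1)‖ + ‖Wz z L m‖) by ring, abs_mul,
    abs_of_nonneg (by linarith : 0 ≤ ‖Wz z L (m + 1)‖ + ‖Wz z L m‖)]
  calc |‖Wz z L (m + 1)‖ - ‖Wz z L m‖| * (‖Wz z L (m + 1)‖ + ‖Wz z L m‖)
      ≤ 2 * (2 * ‖Wz z L m‖ + 2) := mul_le_mul h1 (by linarith) (by linarith) (by norm_num)
    _ = _ := by ring

/-- the window sum of the points with index at most `N`, as a sum over the points -/
noncomputable def Ut (x : ℕ → ℝ) (z : ℕ → ℂ) (L : ℝ) (N : ℕ) (t : ℝ) : ℂ :=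
  ∑ j ∈ Finset.Ioc 0 N, (Ico (x j - L) (x j)).indicator (fun _ => z j) t

lemma norm_sq_sum {ι : Type*} (S : Finset ι) (w : ι → ℂ) :
    ‖∑ i ∈ S, w i‖ ^ 2 = ∑ i ∈ S, ∑ j ∈ S, (w i * (starRingEnd ℂ) (w j)).re := by
  have h1 : ((‖∑ i ∈ S, w i‖ ^ 2 : ℝ) : ℂ) = ∑ i ∈ S, ∑ j ∈ S, (w i * (starRingEnd ℂ) (w j)) := by
    rw [← Complex.normSq_eq_norm_sq, Complex.normSq_eq_conj_mul_self, mul_comm, map_sum,
      Finset.sum_mul_sum]
  have h2 := congrArg Complex.re h1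
  rw [Complex.ofReal_re] at h2
  rw [h2, Complex.re_sum]
  exact Finset.sum_congr rfl fun i _ => Complex.re_sum _ _

lemma ind_int (a b : ℝ) : Integrable ((Ico a b).indicator (fun _ => (1 : ℝ))) := by
  rw [integrable_indicator_iff measurableSet_Ico]
  exact integrableOn_const (by simp)

lemma ind_prod (z w : ℂ) (a b L t : ℝ) :
    ((Ico (a - L) a).indicator (fun _ => z) t *
      (starRingEnd ℂ) ((Ico (b - L) b).indicator (fun _ => w) t)).re =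
    (z * (starRingEnd ℂ) w).re * (Ico (max a b - L) (min a b)).indicator (fun _ => (1:ℝ)) t := by
  have h1 : t ∈ Ico (max a b - L) (min a b) ↔ t ∈ Ico (a - L) a ∧ t ∈ Ico (b - L) b := by
    simp only [mem_Ico, sub_le_iff_le_add, max_le_iff, lt_min_iff]
    tauto
  by_cases ha : t ∈ Ico (a - L) a
  · by_cases hb : t ∈ Ico (b - L) b
    · rw [indicator_of_mem ha, indicator_of_mem hb, indicator_of_mem (h1.2 ⟨ha, hb⟩), mul_one]
    · rw [indicator_of_notMem hb, indicator_of_notMem (fun h => hb (h1.1 h).2), map_zero, mul_zero,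
        mul_zero, Complex.zero_re]
  · rw [indicator_of_notMem ha, indicator_of_notMem (fun h => ha (h1.1 h).1), zero_mul, mul_zero,
      Complex.zero_re]

lemma ind_len (a b L : ℝ) :
    ∫ t, (Ico (max a b - L) (min a b)).indicator (fun _ => (1:ℝ)) t = max 0 (L - |a - b|) := by
  rw [integral_indicator measurableSet_Ico, setIntegral_const, smul_eq_mul, mul_one]
  rw [Measure.real, Real.volume_Ico, ENNReal.toReal_ofReal']
  rw [max_comm]
  congr 1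
  have := max_sub_min_eq_abs' a b
  linarith

/-- the mean square of the window sums -/
lemma Ut_sq (x : ℕ → ℝ) (z : ℕ → ℂ) (L : ℝ) (N : ℕ) :
    Integrable (fun t => ‖Ut x z L N t‖ ^ 2) ∧
    ∫ t, ‖Ut x z L N t‖ ^ 2 = ∑ i ∈ Finset.Ioc 0 N, ∑ j ∈ Finset.Ioc 0 N,
      (z i * (starRingEnd ℂ) (z j)).re * max 0 (L - |x i - x j|) := by
  have e : (fun t => ‖Ut x z L N t‖ ^ 2) = fun t => ∑ i ∈ Finset.Ioc 0 N, ∑ j ∈ Finset.Ioc 0 N,
      (z i * (starRingEnd ℂ) (z j)).re *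
        (Ico (max (x i) (x j) - L) (min (x i) (x j))).indicator (fun _ => (1:ℝ)) t := by
    funext t
    unfold Ut
    rw [norm_sq_sum]
    exact Finset.sum_congr rfl fun i _ => Finset.sum_congr rfl fun j _ => ind_prod _ _ _ _ _ _
  rw [e]
  have hi : ∀ i j, Integrable (fun t => (z i * (starRingEnd ℂ) (z j)).re *
        (Ico (max (x i) (x j) - L) (min (x i) (x j))).indicator (fun _ => (1:ℝ)) t) := fun i j =>
    (ind_int _ _).const_mul _
  refine ⟨integrable_finsetSum _ fun i _ => integrable_finsetSum _ fun j _ => hi i j, ?_⟩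
  rw [integral_finsetSum _ fun i _ => integrable_finsetSum _ fun j _ => hi i j]
  refine Finset.sum_congr rfl fun i _ => ?_
  rw [integral_finsetSum _ fun j _ => hi i j]
  refine Finset.sum_congr rfl fun j _ => ?_
  rw [integral_const_mul, ind_len]

namespace Flow
variable {x : ℕ → ℝ} {n : ℝ → ℕ}

lemma Ut_eq (F : Flow x n) (z : ℕ → ℂ) (L : ℝ) (N : ℕ) {t : ℝ} :
    Ut x z L N t = ∑ j ∈ Finset.Ioc (n t) (min (n (t + L)) N), z j := by
  classical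
  unfold Ut
  have h1 : ∀ j ∈ Finset.Ioc 0 N, (Ico (x j - L) (x j)).indicator (fun _ => z j) t =
      if n t < j ∧ j ≤ n (t + L) then z j else 0 := by
    intro j hj
    rw [Finset.mem_Ioc] at hj
    have h2 := F.lt_iff (m := j) (by omega) t
    have h3 := F.gal j (by omega) (t + L)
    by_cases h : t ∈ Ico (x j - L) (x j)
    · rw [indicator_of_mem h, if_pos]
      exact ⟨h2.1 h.2, h3.1 (by linarith [h.1])⟩
    · rw [indicator_of_notMem h, if_neg]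
      rintro ⟨h4, h5⟩
      exact h ⟨by linarith [h3.2 h5], h2.2 h4⟩
  rw [Finset.sum_congr rfl h1, ← Finset.sum_filter]
  refine Finset.sum_congr ?_ fun _ _ => rfl
  ext j
  simp only [Finset.mem_filter, Finset.mem_Ioc, le_min_iff]
  omega

lemma Uw_meas (F : Flow x n) (z : ℕ → ℂ) (L : ℝ) : Measurable (fun t => ‖Uw n z L t‖ ^ 2) := by
  unfold Uw
  have h1 : Measurable fun t : ℝ => (n t, n (t + L)) :=
    F.mono_n.measurable.prodMk (F.mono_n.measurable.comp (measurable_id.add_const L))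
  exact (measurable_of_countable (fun p : ℕ × ℕ => ‖∑ j ∈ Finset.Ioc p.1 p.2, z j‖ ^ 2)).comp h1

lemma Uw_ii (F : Flow x n) {z : ℕ → ℂ} (hz : ∀ j, ‖z j‖ ≤ 1) {L : ℝ} (hL : 0 ≤ L) (a b : ℝ) :
    IntervalIntegrable (fun t => ‖Uw n z L t‖ ^ 2) volume a b := by
  refine ii_of_bdd (F.Uw_meas z L) (C := (n (max a b + L) : ℝ) ^ 2) fun t ht => ?_
  rw [abs_of_nonneg (by positivity)]
  refine pow_le_pow_left₀ (norm_nonneg _) ?_ 2
  refine (sum_Ioc_le hz (F.mono_n (by linarith))).trans ?_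
  have h1 : (n (t + L) : ℝ) ≤ n (max a b + L) := by
    have : t ≤ max a b := ht.2
    exact_mod_cast F.mono_n (by linarith)
  have h2 : (0:ℝ) ≤ n t := Nat.cast_nonneg _
  linarith

lemma win_sq (F : Flow x n) {z : ℕ → ℂ} (hz : ∀ j, ‖z j‖ ≤ 1) {L X : ℝ} (hL : 0 ≤ L) (hLX : L ≤ X)
    (hx1 : L < x 1) :
    |(∫ t in (0:ℝ)..X, ‖Uw n z L t‖ ^ 2) - ∑ i ∈ Finset.Ioc 0 (n X), ∑ j ∈ Finset.Ioc 0 (n X),
      (z i * (starRingEnd ℂ) (z j)).re * max 0 (L - |x i - x j|)| ≤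
      L * ((n (X + L) : ℝ) - n (X - L)) ^ 2 := by
  obtain ⟨i1, e1⟩ := Ut_sq x z L (n X)
  rw [← e1]
  have hX : 0 ≤ X := hL.trans hLX
  have hout : ∀ t, t ∉ Ioc 0 X → ‖Ut x z L (n X) t‖ ^ 2 = 0 := by
    intro t ht
    have hz0 : Ut x z L (n X) t = 0 := by
      rw [F.Ut_eq]
      rcases le_or_gt t 0 with h | h
      · have h3 : n (t + L) = 0 := by
          have := (F.lt_iff le_rfl (t + L)).1 (by linarith)
          omega
        rw [h3]
        simp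
      · have h3 : X < t := by
          by_contra h4
          exact ht ⟨h, not_lt.1 h4⟩
        have h4 : n X ≤ n t := F.mono_n h3.le
        rw [Finset.Ioc_eq_empty (by
          have := min_le_right (n (t + L)) (n X)
          omega), Finset.sum_empty]
    rw [hz0]
    simp
  rw [← setIntegral_eq_integral_of_forall_compl_eq_zero hout, ← intervalIntegral.integral_of_le hX,
    ← intervalIntegral.integral_sub (F.Uw_ii hz hL 0 X) i1.intervalIntegrable]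
  have hii : ∀ a b : ℝ, IntervalIntegrable
      (fun t => ‖Uw n z L t‖ ^ 2 - ‖Ut x z L (n X) t‖ ^ 2) volume a b := fun a b =>
    (F.Uw_ii hz hL a b).sub i1.intervalIntegrable
  rw [← intervalIntegral.integral_add_adjacent_intervals (hii 0 (X - L)) (hii (X - L) X)]
  have h1 : ∫ t in (0:ℝ)..(X - L), (‖Uw n z L t‖ ^ 2 - ‖Ut x z L (n X) t‖ ^ 2) = 0 := by
    rw [intervalIntegral.integral_congr (g := fun _ => (0:ℝ)), intervalIntegral.integral_zero]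
    intro t ht
    rw [uIcc_of_le (by linarith)] at ht
    have h2 : min (n (t + L)) (n X) = n (t + L) := min_eq_left (F.mono_n (by linarith [ht.2]))
    show ‖Uw n z L t‖ ^ 2 - ‖Ut x z L (n X) t‖ ^ 2 = 0
    rw [F.Ut_eq, h2]
    unfold Uw
    ring
  rw [h1, zero_add]
  have h2 := intervalIntegral.norm_integral_le_of_norm_le_const (a := X - L) (b := X)
    (f := fun t => ‖Uw n z L t‖ ^ 2 - ‖Ut x z L (n X) t‖ ^ 2)
    (C := ((n (X + L) : ℝ) - n (X - L)) ^ 2) (fun t ht => by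
      rw [uIoc_of_le (by linarith)] at ht
      have g0 : n (X - L) ≤ n t := F.mono_n ht.1.le
      have g1 : n t ≤ n X := F.mono_n ht.2
      have g2 : n (t + L) ≤ n (X + L) := F.mono_n (by linarith [ht.2])
      have g3 : n t ≤ n (t + L) := F.mono_n (by linarith)
      have g4 : n X ≤ n (t + L) := F.mono_n (by linarith [ht.1])
      have b1 : ‖Uw n z L t‖ ≤ (n (X + L) : ℝ) - n (X - L) := by
        refine (sum_Ioc_le hz g3).trans ?_
        have : (n (t + L) : ℝ) ≤ n (X + L) := by exact_mod_cast g2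
        have : (n (X - L) : ℝ) ≤ n t := by exact_mod_cast g0
        linarith
      have b2 : ‖Ut x z L (n X) t‖ ≤ (n (X + L) : ℝ) - n (X - L) := by
        rw [F.Ut_eq, min_eq_right g4]
        refine (sum_Ioc_le hz g1).trans ?_
        have : (n X : ℝ) ≤ n (X + L) := by exact_mod_cast g4.trans g2
        have : (n (X - L) : ℝ) ≤ n t := by exact_mod_cast g0
        linarith
      have c1 := pow_le_pow_left₀ (norm_nonneg _) b1 2
      have c2 := pow_le_pow_left₀ (norm_nonneg _) b2 2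
      have c3 := sq_nonneg ‖Uw n z L t‖
      have c4 := sq_nonneg ‖Ut x z L (n X) t‖
      rw [Real.norm_eq_abs, abs_le]
      constructor <;> linarith)
  rw [Real.norm_eq_abs, sub_sub_cancel, abs_of_nonneg hL] at h2
  linarith

/-- position windows against the `L` next points -/
lemma pos_idx (F : Flow x n) {z : ℕ → ℂ} (hz : ∀ j, ‖z j‖ ≤ 1) (L : ℕ) {X : ℝ} (hX : 0 ≤ X) :
    |√(∫ t in (0:ℝ)..X, ‖Uw n z L t‖ ^ 2) - √(∫ t in (0:ℝ)..X, ‖Wz z L (n t)‖ ^ 2)| ≤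
      √(∫ t in (0:ℝ)..X, (Dd n (L:ℝ) t) ^ 2) := by
  have hL : (0:ℝ) ≤ L := Nat.cast_nonneg L
  have i1 := F.Uw_ii hz hL 0 X
  have i2 : IntervalIntegrable (fun t => ‖Wz z L (n t)‖ ^ 2) volume 0 X := by
    refine ii_of_bdd (C := (L:ℝ) ^ 2) ((measurable_from_top
      (f := fun m : ℕ => ‖Wz z L m‖ ^ 2)).comp F.mono_n.measurable) fun t _ => ?_
    rw [abs_of_nonneg (sq_nonneg _)]
    exact pow_le_pow_left₀ (norm_nonneg _) (Wz_le hz L _) 2
  have i3 : IntervalIntegrable (fun t => (Dd n (L:ℝ) t) ^ 2) volume 0 X := by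
    simpa using ii_sq_Dd F.mono_n (L:ℝ) 0 0 X
  have hpt : ∀ t : ℝ, ‖Uw n z L t - Wz z L (n t)‖ ≤ |Dd n (L:ℝ) t| := by
    intro t
    have := Ioc_diff hz (a := n t) (b := n (t + L)) (c := n t + L) (F.mono_n (by linarith))
      (Nat.le_add_right _ _)
    refine this.trans (le_of_eq ?_)
    unfold Dd
    push_cast
    congr 1
    ring
  have h1 := mink (f := fun t => ‖Uw n z L t‖) (g := fun t => ‖Wz z L (n t)‖)
    (d := fun t => Dd n (L:ℝ) t) hX i1 i2 i3 (fun t _ => by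
      rw [abs_norm, abs_norm]
      have h2 := norm_le_norm_add_norm_sub' (Uw n z L t) (Wz z L (n t))
      linarith [hpt t])
  have h2 := mink (f := fun t => ‖Wz z L (n t)‖) (g := fun t => ‖Uw n z L t‖)
    (d := fun t => Dd n (L:ℝ) t) hX i2 i1 i3 (fun t _ => by
      rw [abs_norm, abs_norm]
      have h2 := norm_le_norm_add_norm_sub (Uw n z L t) (Wz z L (n t))
      linarith [hpt t])
  rw [abs_le]
  constructor <;> linarith

/-- **position windows against index windows** -/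
theorem main_abs (F : Flow x n) {z : ℕ → ℂ} (hz : ∀ j, ‖z j‖ ≤ 1) (L J : ℕ) (hL : 1 ≤ L)
    (hJ : L ^ 2 * L ^ 2 ≤ 2 ^ (J + 2)) {V X : ℝ} (hV0 : 0 ≤ V) (hX : 0 < X)
    (hV : ∀ l : ℕ, l ≤ L ^ 2 + 2 ^ J → ∫ t in (0:ℝ)..X, (Dd n (l : ℝ) t) ^ 2 ≤ V * X)
    (N b : ℕ) (hb : 1 ≤ b) (hbN : b ≤ N + 1) (hx1 : (2:ℝ) ^ J < x 1) (hxb : x (b + 1) + 2 ^ J ≤ X)
    (e1 : (L:ℝ) ^ 2 * (x 1 + X - x b) ≤ X / 4) (e2 : (L:ℝ) ^ 2 * ((N:ℝ) + 1 - b) ≤ X / 4)
    (e3 : (L:ℝ) ^ 2 * (2 * ((L:ℝ) ^ 2 * (L:ℝ) ^ 2)) ≤ X / 4) (e4 : (L:ℝ) ^ 2 * |(N:ℝ) - X| ≤ X / 4) :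
    |√(1 / X * ∫ t in (0:ℝ)..X, ‖Uw n z L t‖ ^ 2) -
      √(1 / N * ∑ m ∈ Finset.Icc 1 N, ‖Wz z L m‖ ^ 2)| ≤ 22 * √(8 + 64 * (J + 1) * V) := by
  have h1 := F.idx_pos L J hL (fun m => ‖Wz z L m‖ ^ 2) (fun m => by positivity)
    (fun m => pow_le_pow_left₀ (norm_nonneg _) (Wz_le hz L m) 2) (fun m => Phi_diff hz L m)
    hJ hV0 hX hV N b hb hbN hx1 hxb e1 e2 e3 e4
  have h2 := F.pos_idx hz L hX.le
  have hVL := hV L ((Nat.le_self_pow (by norm_num) L).trans (Nat.le_add_right _ _))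
  have h3 : √(1 / X * ∫ t in (0:ℝ)..X, ‖Uw n z L t‖ ^ 2) - √(1 / X * ∫ t in (0:ℝ)..X, ‖Wz z L (n t)‖ ^ 2)
      = √(1 / X) * (√(∫ t in (0:ℝ)..X, ‖Uw n z L t‖ ^ 2) - √(∫ t in (0:ℝ)..X, ‖Wz z L (n t)‖ ^ 2)) := by
    rw [Real.sqrt_mul (by positivity), Real.sqrt_mul (by positivity)]
    ring
  have h4 : |√(1 / X * ∫ t in (0:ℝ)..X, ‖Uw n z L t‖ ^ 2) -
      √(1 / X * ∫ t in (0:ℝ)..X, ‖Wz z L (n t)‖ ^ 2)| ≤ √(8 + 64 * (J + 1) * V) := by
    rw [h3, abs_mul, abs_of_nonneg (Real.sqrt_nonneg _)]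
    calc √(1 / X) * |√(∫ t in (0:ℝ)..X, ‖Uw n z L t‖ ^ 2) - √(∫ t in (0:ℝ)..X, ‖Wz z L (n t)‖ ^ 2)|
        ≤ √(1 / X) * √(∫ t in (0:ℝ)..X, (Dd n (L:ℝ) t) ^ 2) :=
          mul_le_mul_of_nonneg_left h2 (Real.sqrt_nonneg _)
      _ = √(1 / X * ∫ t in (0:ℝ)..X, (Dd n (L:ℝ) t) ^ 2) := by
          rw [Real.sqrt_mul (by positivity)]
      _ ≤ √(8 + 64 * (J + 1) * V) := by
          apply Real.sqrt_le_sqrt
          have : 1 / X * ∫ t in (0:ℝ)..X, (Dd n (L:ℝ) t) ^ 2 ≤ V := by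
            rw [one_div, inv_mul_le_iff₀ hX]
            linarith
          have h5 : 0 ≤ (J:ℝ) * V := by positivity
          linarith
  have h6 := abs_add_le (√(1 / X * ∫ t in (0:ℝ)..X, ‖Uw n z L t‖ ^ 2) -
      √(1 / X * ∫ t in (0:ℝ)..X, ‖Wz z L (n t)‖ ^ 2))
      (√(1 / X * ∫ t in (0:ℝ)..X, ‖Wz z L (n t)‖ ^ 2) -
      √(1 / N * ∑ m ∈ Finset.Icc 1 N, ‖Wz z L m‖ ^ 2))
  rw [sub_add_sub_cancel] at h6
  linarith

end Flow

end Q172.Diff
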