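import Pool.Agent.Q172.Diff.P4
import Pool.Agent.Q276.NV.D2

/-! Index windows against position windows for the ordinates of the zeros. -/

set_option autoImplicit false

open Filter Topology Set MeasureTheory

namespace Q172.Diff

open SG (ord NZ)
open H177.Lat (yy)
open Pool.Agent.Y744 (Xf Xf_pos)
open Pool.Agent.Q276.NV (DD hs var_lim end_count NZ_lim DD_ii)

/-- the counting function at the scale of the mean spacing -/
noncomputable def nT (T t : ℝ) : ℕ := NZ (2 * Real.pi / Real.log T * t)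

lemma flowT {T : ℝ} (hT : 1 < T) : Flow (yy T) (nT T) := by
  refine ⟨fun m hm t => ?_⟩
  have hlog := Real.log_pos hT
  have hpi := Real.pi_pos
  unfold nT yy
  rw [← SG.ord_le_iff hm, div_le_iff₀ (by positivity)]
  constructor
  · intro h
    rw [div_mul_eq_mul_div, le_div_iff₀ hlog]
    linarith
  · intro h
    rw [div_mul_eq_mul_div, le_div_iff₀ hlog] at h
    linarith

lemma Dd_nT {T : ℝ} (l t : ℝ) :
    Dd (nT T) l t = DD (hs T 0) (hs T l) (2 * Real.pi / Real.log T * t) - l := by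
  unfold Dd nT DD hs
  have e1 : 2 * Real.pi / Real.log T * (t + l) = 2 * Real.pi / Real.log T * t +
    2 * Real.pi * l / Real.log T := by ring
  have e2 : 2 * Real.pi * 0 / Real.log T = 0 := by simp
  rw [e1, e2, add_zero]

lemma scale_int {T : ℝ} (hT : 1 < T) (f : ℝ → ℝ) :
    ∫ t in (0:ℝ)..(Xf T), f (2 * Real.pi / Real.log T * t) = Xf T * (1 / T * ∫ s in (0:ℝ)..T, f s) := by
  have hlog := Real.log_pos hT
  have hpi := Real.pi_pos
  have hT0 : 0 < T := by linarith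
  rw [intervalIntegral.integral_comp_mul_left f (by positivity), smul_eq_mul, mul_zero]
  have e : 2 * Real.pi / Real.log T * Xf T = T := by
    unfold Xf
    field_simp
  rw [e]
  unfold Xf
  field_simp

lemma Xf_tendsto : Tendsto Xf atTop atTop := by
  have h1 : Tendsto (fun T : ℝ => T * Real.log T) atTop atTop :=
    tendsto_id.atTop_mul_atTop₀ Real.tendsto_log_atTop
  exact h1.atTop_div_const (by positivity)

/-- the number of steps -/
def JJ (L : ℕ) : ℕ := 4 * Nat.log 2 L + 2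

lemma JJ_ge (L : ℕ) : L ^ 2 * L ^ 2 ≤ 2 ^ (JJ L + 2) := by
  have h := (Nat.lt_pow_succ_log_self (b := 2) (by norm_num) L).le
  calc L ^ 2 * L ^ 2 = L ^ 4 := by ring
    _ ≤ (2 ^ (Nat.log 2 L + 1)) ^ 4 := Nat.pow_le_pow_left h 4
    _ = 2 ^ (JJ L + 2) := by
      rw [← pow_mul]
      congr 1
      unfold JJ
      ring

lemma JJ_le {L : ℕ} (hL : 1 ≤ L) : L ^ 2 + 2 ^ JJ L ≤ 5 * L ^ 4 := by
  have h := Nat.pow_log_le_self 2 (show L ≠ 0 by omega)
  have h1 : 2 ^ JJ L = 4 * (2 ^ Nat.log 2 L) ^ 4 := by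
    unfold JJ
    rw [← pow_mul, pow_add, mul_comm (Nat.log 2 L) 4]
    ring
  have h2 : (2 ^ Nat.log 2 L) ^ 4 ≤ L ^ 4 := Nat.pow_le_pow_left h 4
  have h3 : L ^ 2 ≤ L ^ 4 := Nat.pow_le_pow_right hL (by norm_num)
  rw [h1]
  omega

lemma JJ_log {L : ℕ} (hL : 1 ≤ L) : (JJ L : ℝ) + 1 ≤ 6 * (1 + Real.log L) := by
  have h := Nat.pow_log_le_self 2 (show L ≠ 0 by omega)
  have hL0 : (0:ℝ) < L := by exact_mod_cast hL
  have h1 : ((2:ℝ) ^ Nat.log 2 L) ≤ L := by exact_mod_cast h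
  have h2 := Real.log_le_log (by positivity) h1
  rw [Real.log_pow] at h2
  have h3 : (2 / 3 : ℝ) < Real.log 2 := by linarith [Real.log_two_gt_d9]
  have h4 : (0:ℝ) ≤ Nat.log 2 L := Nat.cast_nonneg _
  have h5 : (Nat.log 2 L : ℝ) * (2 / 3) ≤ Real.log L :=
    (mul_le_mul_of_nonneg_left h3.le h4).trans h2
  unfold JJ
  push_cast
  linarith

theorem idx_pos_zeta : ∃ C : ℝ, 0 ≤ C ∧ ∀ L : ℕ, 1 ≤ L → ∀ᶠ T : ℝ in atTop, ∀ z : ℕ → ℂ,
    (∀ j, ‖z j‖ ≤ 1) →
    |√(1 / Xf T * ∫ t in (0:ℝ)..(Xf T), ‖Uw (nT T) z L t‖ ^ 2) -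
      √(1 / NZ T * ∑ m ∈ Finset.Icc 1 (NZ T), ‖Wz z L m‖ ^ 2)| ≤ C * (1 + Real.log L) := by
  obtain ⟨C0, hC0, hvar⟩ := var_lim
  obtain ⟨C1, T1, hC1, hT1, hend⟩ := end_count
  refine ⟨22 * √(8 + 384 * (C0 + 4)), by positivity, fun L hL => ?_⟩
  have hL1 : (1:ℝ) ≤ L := by exact_mod_cast hL
  have hL2 : (1:ℝ) ≤ (L:ℝ) ^ 2 := one_le_pow₀ hL1
  have hlL : 0 ≤ Real.log L := Real.log_nonneg hL1
  have hpi := Real.pi_gt_three
  set M := L ^ 2 + 2 ^ JJ L with hM
  set V := C0 + 1 / Real.pi ^ 2 * Real.log (5 * (L:ℝ) ^ 4) with hV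
  have hlog5 : 0 ≤ Real.log (5 * (L:ℝ) ^ 4) := by
    apply Real.log_nonneg
    have : (1:ℝ) ≤ (L:ℝ) ^ 4 := one_le_pow₀ hL1
    linarith
  have hV0 : 0 ≤ V := by positivity
  have hVb : V ≤ (C0 + 4) * (1 + Real.log L) := by
    have h1 : Real.log (5 * (L:ℝ) ^ 4) = Real.log 5 + 4 * Real.log L := by
      rw [Real.log_mul (by norm_num) (by positivity), Real.log_pow]
      norm_num
    have h2 : Real.log 5 ≤ 4 := by
      have := Real.log_le_sub_one_of_pos (by norm_num : (0:ℝ) < 5)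
      linarith
    have h3 : 1 / Real.pi ^ 2 ≤ 1 := by
      rw [div_le_one (by positivity)]
      nlinarith
    have h4 : 1 / Real.pi ^ 2 * Real.log (5 * (L:ℝ) ^ 4) ≤ Real.log (5 * (L:ℝ) ^ 4) :=
      mul_le_of_le_one_left hlog5 h3
    have h5 : (C0 + 4) * (1 + Real.log L) = C0 + 4 + 4 * Real.log L + C0 * Real.log L := by ring
    have h6 := mul_nonneg hC0 hlL
    rw [hV, h5]
    linarith
  have hfin : √(8 + 64 * ((JJ L : ℝ) + 1) * V) ≤ √(8 + 384 * (C0 + 4)) * (1 + Real.log L) := by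
    rw [Real.sqrt_le_left (by positivity), mul_pow, Real.sq_sqrt (by positivity)]
    have h1 := JJ_log hL
    have h2 : 64 * ((JJ L : ℝ) + 1) * V ≤ 64 * (6 * (1 + Real.log L)) * ((C0 + 4) * (1 + Real.log L)) :=
      mul_le_mul (by linarith) hVb hV0 (by positivity)
    have h3 : (1:ℝ) ≤ (1 + Real.log L) ^ 2 := one_le_pow₀ (by linarith)
    have h4 : 64 * (6 * (1 + Real.log L)) * ((C0 + 4) * (1 + Real.log L)) =
      384 * (C0 + 4) * (1 + Real.log L) ^ 2 := by ring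
    have h5 : (8 + 384 * (C0 + 4)) * (1 + Real.log L) ^ 2 = 8 * (1 + Real.log L) ^ 2 +
      384 * (C0 + 4) * (1 + Real.log L) ^ 2 := by ring
    rw [h4] at h2
    rw [h5]
    linarith
  -- the variances
  have hvar2 : ∀ᶠ T : ℝ in atTop, ∀ l ∈ Finset.Icc 1 M,
      |1 / T * (∫ t in (0 : ℝ)..T, (DD (hs T 0) (hs T (l:ℝ)) t - ((l:ℝ) - 0)) ^ 2) -
        1 / Real.pi ^ 2 * Real.log ((l:ℝ) - 0)| ≤ C0 := by
    rw [Filter.eventually_all_finset]
    intro l hl
    rw [Finset.mem_Icc] at hl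
    exact hvar 0 l (by rw [sub_zero]; exact_mod_cast hl.1)
  -- elementary asymptotics
  set δ : ℝ := 1 / (8 * (L:ℝ) ^ 2) with hδ
  have hδ0 : 0 < δ := by positivity
  have hδ1 : δ ≤ 1 / 8 := by
    rw [hδ]
    apply one_div_le_one_div_of_le (by norm_num)
    linarith
  have hL2δ : (L:ℝ) ^ 2 * δ = 1 / 8 := by
    rw [hδ]; field_simp
  have ev1 := (Metric.tendsto_nhds.1 NZ_lim) (δ / 4) (by positivity)
  have ev2 : ∀ᶠ T : ℝ in atTop, dist ((NZ ((1 - δ) * T) : ℝ) / Xf ((1 - δ) * T)) 1 < δ / 4 := by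
    have h1 : Tendsto (fun T : ℝ => (1 - δ) * T) atTop atTop :=
      tendsto_id.const_mul_atTop (by linarith)
    exact h1.eventually ev1
  have ev3 : ∀ᶠ T : ℝ in atTop, C1 * Real.log T ^ 2 + 3 ≤ (δ / 4) * Xf T := by
    have h1 := Pool.Agent.Q276.NV.logpow_lim C1 2
    have h2 := (Metric.tendsto_nhds.1 h1) (δ / 16) (by positivity)
    have h3 := Xf_tendsto.eventually_ge_atTop (24 / δ)
    filter_upwards [h2, h3, eventually_gt_atTop (Real.exp 7)] with T a1 a2 a3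
    have hT0 : 0 < T := (Real.exp_pos _).trans a3
    have hlog : 7 < Real.log T := (Real.lt_log_iff_exp_lt hT0).2 a3
    rw [Real.dist_eq, sub_zero] at a1
    have a4 := (abs_lt.1 a1).2
    rw [mul_div_assoc', div_lt_iff₀ hT0] at a4
    have a5 : T ≤ Xf T := by
      unfold Xf
      rw [le_div_iff₀ (by positivity)]
      have := Real.pi_lt_d2
      exact mul_le_mul_of_nonneg_left (by linarith) hT0.le
    have a6 : 3 ≤ δ / 8 * Xf T := by
      have := mul_le_mul_of_nonneg_left a2 (by positivity : 0 ≤ δ / 8)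
      have e : δ / 8 * (24 / δ) = 3 := by field_simp; norm_num
      linarith
    have a7 := mul_le_mul_of_nonneg_left a5 (by positivity : 0 ≤ δ / 16)
    have a8 : 0 ≤ δ / 16 * Xf T := mul_nonneg (by positivity) (by
      have : 0 ≤ 24 / δ := by positivity
      linarith)
    linarith
  have ev4 : ∀ᶠ T : ℝ in atTop, 8 * (L:ℝ) ^ 2 * ord 1 ≤ T := eventually_ge_atTop _
  have ev5 : ∀ᶠ T : ℝ in atTop, 8 * (2 * ((L:ℝ) ^ 2 * (L:ℝ) ^ 2)) * (L:ℝ) ^ 2 ≤ Xf T :=
    Xf_tendsto.eventually_ge_atTop _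
  have ev6 : ∀ᶠ T : ℝ in atTop, 7 * (2:ℝ) ^ JJ L ≤ Real.log T :=
    Real.tendsto_log_atTop.eventually_ge_atTop _
  have ev7 : ∀ᶠ T : ℝ in atTop, 7 * (2:ℝ) ^ JJ L + 7 < ord 1 * Real.log T :=
    (Real.tendsto_log_atTop.const_mul_atTop (SG.ord_pos le_rfl)).eventually_gt_atTop _
  filter_upwards [hvar2, ev1, ev2, ev3, ev4, ev5, ev6, ev7, eventually_ge_atTop (max T1 20)]
    with T v a1 a2 a3 a4 a5 a6 a7 a8 z hz
  have hT1' : T1 ≤ T := (le_max_left _ _).trans a8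
  have hT20 : 20 ≤ T := (le_max_right _ _).trans a8
  have hT0 : 0 < T := by linarith
  have hlog : 0 < Real.log T := Real.log_pos (by linarith)
  have hX := Xf_pos (V := T) (by linarith)
  have hpi3 := Real.pi_lt_d2
  have F := flowT (T := T) (by linarith)
  have hp0 : (0:ℝ) < 2 ^ JJ L := by positivity
  rw [Real.dist_eq] at a1 a2
  -- counts
  have hend' := hend T hT1'
  have c1 : (NZ T : ℝ) ≤ NZ (T + 1) := by exact_mod_cast SG.NZ_mono (by linarith)
  have c2 : (NZ (T - 2) : ℝ) ≤ NZ (T - 1) := by exact_mod_cast SG.NZ_mono (by linarith)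
  have c3 : (1 - δ / 4) * Xf T ≤ NZ T := by
    have := (abs_lt.1 a1).1
    have h1 : 1 - δ / 4 ≤ (NZ T : ℝ) / Xf T := by linarith
    rwa [le_div_iff₀ hX] at h1
  have c3' : (NZ T : ℝ) ≤ (1 + δ / 4) * Xf T := by
    have := (abs_lt.1 a1).2
    have h1 : (NZ T : ℝ) / Xf T ≤ 1 + δ / 4 := by linarith
    rwa [div_le_iff₀ hX] at h1
  have c4 : (NZ T : ℝ) - NZ (T - 1) + 3 ≤ δ / 4 * Xf T := by linarith
  have c5 : (NZ ((1 - δ) * T) : ℝ) ≤ (1 - 3 * δ / 4) * Xf T := by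
    have hT' : 1 < (1 - δ) * T := by
      have := mul_le_mul_of_nonneg_right hδ1 hT0.le
      have e : (1 - δ) * T = T - δ * T := by ring
      rw [e]
      linarith
    have hX' := Xf_pos hT'
    have h1 := (abs_lt.1 a2).2
    have h2 : (NZ ((1 - δ) * T) : ℝ) / Xf ((1 - δ) * T) ≤ 1 + δ / 4 := by linarith
    rw [div_le_iff₀ hX'] at h2
    have h3 : Xf ((1 - δ) * T) ≤ (1 - δ) * Xf T := by
      unfold Xf
      have h4 : Real.log ((1 - δ) * T) ≤ Real.log T := Real.log_le_log (by linarith)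
        (mul_le_of_le_one_left hT0.le (by linarith))
      rw [mul_div_assoc']
      apply div_le_div_of_nonneg_right _ (by positivity)
      have : (1 - δ) * T * Real.log ((1 - δ) * T) ≤ (1 - δ) * T * Real.log T :=
        mul_le_mul_of_nonneg_left h4 (by linarith)
      linarith
    have h4 : (1 + δ / 4) * Xf ((1 - δ) * T) ≤ (1 + δ / 4) * ((1 - δ) * Xf T) :=
      mul_le_mul_of_nonneg_left h3 (by positivity)
    have h5 : (1 + δ / 4) * ((1 - δ) * Xf T) ≤ (1 - 3 * δ / 4) * Xf T := by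
      have : (1 - 3 * δ / 4) * Xf T - (1 + δ / 4) * ((1 - δ) * Xf T) = δ ^ 2 / 4 * Xf T := by ring
      have h6 : 0 ≤ δ ^ 2 / 4 * Xf T := by positivity
      linarith
    linarith
  have c6 : (NZ ((1 - δ) * T) : ℝ) + 1 ≤ (NZ (T - 1) : ℝ) - 1 := by
    have : 0 ≤ δ / 4 * Xf T := by positivity
    linarith
  have c7 : NZ ((1 - δ) * T) + 2 ≤ NZ (T - 1) := by
    have : (NZ ((1 - δ) * T) : ℝ) + 2 ≤ (NZ (T - 1) : ℝ) := by linarith
    exact_mod_cast this
  set b := NZ (T - 1) - 1 with hb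
  have hb1 : b + 1 = NZ (T - 1) := by omega
  have hbb : 1 ≤ b := by omega
  have hbN : b ≤ NZ T + 1 := by
    have := SG.NZ_mono (by linarith : T - 1 ≤ T)
    omega
  have hbr : (b:ℝ) + 1 = NZ (T - 1) := by exact_mod_cast hb1
  have hordb : (1 - δ) * T < ord b := by
    by_contra h
    have := (SG.ord_le_iff hbb _).1 (not_lt.1 h)
    omega
  have hordb1 : ord (b + 1) ≤ T - 1 := by
    rw [SG.ord_le_iff (by omega), hb1]
  refine le_trans (F.main_abs hz L (JJ L) hL (JJ_ge L) hV0 hX ?_ (NZ T) b hbb hbN ?_ ?_ ?_ ?_ ?_ ?_) ?_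
  · intro l hl
    rcases Nat.eq_zero_or_pos l with h0 | h0
    · rw [h0]
      have : ∀ t : ℝ, Dd (nT T) ((0:ℕ):ℝ) t ^ 2 = 0 := by
        intro t
        unfold Dd
        simp
      simp_rw [this]
      rw [intervalIntegral.integral_zero]
      positivity
    · have h1 := v l (Finset.mem_Icc.2 ⟨h0, hl⟩)
      have h2 := (abs_le.1 h1).2
      simp_rw [Dd_nT]
      rw [scale_int (by linarith) (fun s => (DD (hs T 0) (hs T (l:ℝ)) s - (l:ℝ)) ^ 2)]
      rw [sub_zero] at h2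
      have hl1 : (1:ℝ) ≤ l := by exact_mod_cast h0
      have h3 : Real.log l ≤ Real.log (5 * (L:ℝ) ^ 4) := by
        apply Real.log_le_log (by linarith)
        have := hl.trans (JJ_le hL)
        exact_mod_cast this
      have h4 : 1 / Real.pi ^ 2 * Real.log l ≤ 1 / Real.pi ^ 2 * Real.log (5 * (L:ℝ) ^ 4) :=
        mul_le_mul_of_nonneg_left h3 (by positivity)
      rw [mul_comm]
      refine mul_le_mul_of_nonneg_right ?_ hX.le
      rw [hV]
      linarith
  · unfold yy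
    rw [lt_div_iff₀ (by positivity)]
    have h1 : (2:ℝ) ^ JJ L * (2 * Real.pi) ≤ (2:ℝ) ^ JJ L * 7 :=
      mul_le_mul_of_nonneg_left (by linarith) hp0.le
    linarith
  · unfold yy
    have h1 : ord (b + 1) * Real.log T ≤ (T - 1) * Real.log T :=
      mul_le_mul_of_nonneg_right hordb1 hlog.le
    have h2 : ord (b + 1) * Real.log T / (2 * Real.pi) ≤ (T - 1) * Real.log T / (2 * Real.pi) :=
      div_le_div_of_nonneg_right h1 (by positivity)
    have h3 : (2:ℝ) ^ JJ L ≤ Real.log T / (2 * Real.pi) := by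
      rw [le_div_iff₀ (by positivity)]
      have h1 : (2:ℝ) ^ JJ L * (2 * Real.pi) ≤ (2:ℝ) ^ JJ L * 7 :=
        mul_le_mul_of_nonneg_left (by linarith) hp0.le
      linarith
    have h4 : Xf T = (T - 1) * Real.log T / (2 * Real.pi) + Real.log T / (2 * Real.pi) := by
      unfold Xf
      ring
    linarith
  · have h1 : yy T 1 ≤ δ * Xf T := by
      unfold yy Xf
      rw [mul_div_assoc']
      apply div_le_div_of_nonneg_right _ (by positivity)
      have h2 : ord 1 ≤ δ * T := by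
        rw [hδ, one_div, inv_mul_eq_div, le_div_iff₀ (by positivity)]
        linarith
      calc ord 1 * Real.log T ≤ (δ * T) * Real.log T := mul_le_mul_of_nonneg_right h2 hlog.le
        _ = δ * (T * Real.log T) := by ring
    have h2 : (1 - δ) * Xf T ≤ yy T b := by
      unfold yy Xf
      rw [mul_div_assoc']
      apply div_le_div_of_nonneg_right _ (by positivity)
      calc (1 - δ) * (T * Real.log T) = ((1 - δ) * T) * Real.log T := by ring
        _ ≤ ord b * Real.log T := mul_le_mul_of_nonneg_right hordb.le hlog.le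
    have h3 : (L:ℝ) ^ 2 * (yy T 1 + Xf T - yy T b) ≤ (L:ℝ) ^ 2 * (2 * (δ * Xf T)) :=
      mul_le_mul_of_nonneg_left (by linarith) (by positivity)
    have h4 : (L:ℝ) ^ 2 * (2 * (δ * Xf T)) = Xf T / 4 := by
      calc (L:ℝ) ^ 2 * (2 * (δ * Xf T)) = 2 * ((L:ℝ) ^ 2 * δ) * Xf T := by ring
        _ = _ := by rw [hL2δ]; ring
    linarith
  · have h1 : (NZ T : ℝ) + 1 - b ≤ δ * Xf T := by
      have : 0 ≤ δ / 4 * Xf T := by positivity
      linarith
    have h3 : (L:ℝ) ^ 2 * ((NZ T : ℝ) + 1 - b) ≤ (L:ℝ) ^ 2 * (δ * Xf T) :=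
      mul_le_mul_of_nonneg_left h1 (by positivity)
    have h4 : (L:ℝ) ^ 2 * (δ * Xf T) = Xf T / 8 := by
      calc (L:ℝ) ^ 2 * (δ * Xf T) = ((L:ℝ) ^ 2 * δ) * Xf T := by ring
        _ = _ := by rw [hL2δ]; ring
    linarith
  · linarith
  · have h1 : |(NZ T : ℝ) - Xf T| ≤ δ * Xf T := by
      rw [abs_le]
      have : 0 ≤ δ / 4 * Xf T := by positivity
      have e1 : (1 - δ / 4) * Xf T = Xf T - δ / 4 * Xf T := by ring
      have e2 : (1 + δ / 4) * Xf T = Xf T + δ / 4 * Xf T := by ring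
      have e3 : δ * Xf T = 4 * (δ / 4 * Xf T) := by ring
      rw [e1] at c3
      rw [e2] at c3'
      rw [e3]
      constructor <;> linarith
    have h3 : (L:ℝ) ^ 2 * |(NZ T : ℝ) - Xf T| ≤ (L:ℝ) ^ 2 * (δ * Xf T) :=
      mul_le_mul_of_nonneg_left h1 (by positivity)
    have h4 : (L:ℝ) ^ 2 * (δ * Xf T) = Xf T / 8 := by
      calc (L:ℝ) ^ 2 * (δ * Xf T) = ((L:ℝ) ^ 2 * δ) * Xf T := by ring
        _ = _ := by rw [hL2δ]; ring
    linarith
  · calc 22 * √(8 + 64 * ((JJ L : ℝ) + 1) * V) ≤ 22 * (√(8 + 384 * (C0 + 4)) * (1 + Real.log L)) :=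
        mul_le_mul_of_nonneg_left hfin (by norm_num)
      _ = _ := by ring

end Q172.Diff
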