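import Pool.Agent.Q172.Diff.Z1
import Pool.Agent.Y744.PCR.ConnB

/-! The structure factor of the ordinates at a frequency between 0 and 1. -/

set_option autoImplicit false

open Filter Topology Set MeasureTheory
open scoped ContDiff

namespace Q172.Diff

open SG (ord NZ)
open H177.Lat (yy KK KK_sq ee ee_norm ee_add ee_re ee_conj)
open Pool.Agent.Q276.UR (KK_even)
open Pool.Agent.Q276.LR (TS cauchy_sum)
open Pool.Agent.Y744 (Xf Xf_pos TK ct Q2 NTf mont_lim ct_eq_r)
open Pool.Agent.Y750.OM (bl)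
open Pool.Agent.Results.MP_103a5c_nt.BohrSetPairs (TestFn mont r)
open Pool.Agent.Q276.NV (GG GG_smooth GG_nonneg GG_sq GG_int bl_GG ch ch_smooth ch_nonneg ch_le_one
  ch_one ch_zero int_TS bl_smooth Q2_conv exp_sum end_count logpow_lim)

noncomputable def cut (ε x : ℝ) : ℝ := ch (x / (2 * ε))

noncomputable def qq (L ε x : ℝ) : ℝ := GG L x * cut ε x

noncomputable def sym (g : ℝ → ℝ) (θ α : ℝ) : ℝ := 1 / 2 * (g (α - θ) + g (α + θ))

lemma GG_even (L x : ℝ) : GG L (-x) = GG L x := by
  unfold GG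
  rw [mul_neg, KK_even]

lemma cut_even (ε x : ℝ) : cut ε (-x) = cut ε x := by
  unfold cut ch
  rw [neg_div, neg_sq]

lemma qq_even (L ε x : ℝ) : qq L ε (-x) = qq L ε x := by
  unfold qq
  rw [GG_even, cut_even]

lemma qq_smooth (L ε : ℝ) : ContDiff ℝ ∞ (qq L ε) := by
  unfold qq cut
  exact (GG_smooth L).mul (ch_smooth.comp (contDiff_id.div_const _))

lemma qq_out {L ε x : ℝ} (hε : 0 < ε) (h : ε ≤ |x|) : qq L ε x = 0 := by
  unfold qq cut
  rw [ch_zero, mul_zero]
  rw [abs_div, abs_of_pos (by positivity : 0 < 2 * ε), le_div_iff₀ (by positivity)]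
  linarith

lemma qq_nonneg (L ε x : ℝ) : 0 ≤ qq L ε x := mul_nonneg (GG_nonneg _ _) (ch_nonneg _)

lemma qq_le (L ε x : ℝ) : qq L ε x ≤ GG L x := mul_le_of_le_one_right (GG_nonneg _ _) (ch_le_one _)

lemma qq_compact (L : ℝ) {ε : ℝ} (hε : 0 < ε) : HasCompactSupport (qq L ε) := by
  apply HasCompactSupport.intro (isCompact_Icc (a := -ε) (b := ε))
  intro x hx
  apply qq_out hε
  by_contra h
  push Not at h
  exact hx (abs_le.1 h.le)

lemma qq_int (L : ℝ) {ε : ℝ} (hε : 0 < ε) : Integrable (qq L ε) :=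
  (qq_smooth L ε).continuous.integrable_of_hasCompactSupport (qq_compact L hε)

/-- the part cut off -/
lemma GG_qq (L : ℝ) {ε : ℝ} (hε : 0 < ε) (x : ℝ) :
    GG L x ≤ qq L ε x + (1 + 4 / ε ^ 2) * (1 / (1 + x ^ 2)) := by
  rcases le_or_gt |x| (ε / 2) with h | h
  · unfold qq cut
    rw [ch_one, mul_one]
    · have : 0 ≤ (1 + 4 / ε ^ 2) * (1 / (1 + x ^ 2)) := by positivity
      linarith
    · rw [abs_div, abs_of_pos (by positivity : 0 < 2 * ε), div_le_iff₀ (by positivity)]
      linarith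
  · have g1 := GG_sq L x
    have g0 := qq_nonneg L ε x
    have g3 := GG_nonneg L x
    have g4 : ε ^ 2 / 4 ≤ x ^ 2 := by
      rw [← sq_abs x]
      have := pow_le_pow_left₀ (by positivity) h.le 2
      linarith [show (ε / 2) ^ 2 = ε ^ 2 / 4 by ring]
    have g5 : GG L x ≤ 4 / ε ^ 2 := by
      rw [le_div_iff₀ (by positivity)]
      nlinarith
    have g2 : GG L x ≤ (1 + 4 / ε ^ 2) * (1 / (1 + x ^ 2)) := by
      rw [mul_one_div, le_div_iff₀ (by positivity)]
      linarith
    linarith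

lemma sym_TK {L ε θ : ℝ} (hε : 0 < ε) : TK (|θ| + ε) (sym (qq L ε) θ) where
  smooth := by
    have h := qq_smooth L ε
    unfold sym
    exact contDiff_const.mul ((h.comp (contDiff_id.sub contDiff_const)).add
      (h.comp (contDiff_id.add contDiff_const)))
  even := fun x => by
    unfold sym
    rw [show -x - θ = -(x + θ) by ring, show -x + θ = -(x - θ) by ring, qq_even, qq_even]
    ring
  supp := fun x hx => by
    unfold sym
    have h1 := abs_sub_abs_le_abs_sub x θ
    have h2 := abs_sub_abs_le_abs_sub x (-θ)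
    rw [abs_neg, sub_neg_eq_add] at h2
    rw [qq_out hε (by linarith), qq_out hε (by linarith)]
    ring

/-- modulation -/
lemma bl_sym {g : ℝ → ℝ} (hg : Integrable g) (θ u : ℝ) :
    bl (sym g θ) u = Real.cos (2 * Real.pi * θ * u) * bl g u := by
  have hc : ∀ a : ℝ, Integrable (fun α => g α * Real.cos (2 * Real.pi * (α + a) * u)) := fun a =>
    hg.mul_bdd (c := 1) (by fun_prop) (Eventually.of_forall fun α => by
      rw [Real.norm_eq_abs]; exact Real.abs_cos_le_one _)
  have h1 : ∫ α, g (α - θ) * Real.cos (2 * Real.pi * α * u) =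
      ∫ α, g α * Real.cos (2 * Real.pi * (α + θ) * u) := by
    rw [← integral_sub_right_eq_self (fun α => g α * Real.cos (2 * Real.pi * (α + θ) * u)) θ]
    simp_rw [sub_add_cancel]
  have h2 : ∫ α, g (α + θ) * Real.cos (2 * Real.pi * α * u) =
      ∫ α, g α * Real.cos (2 * Real.pi * (α + -θ) * u) := by
    rw [← integral_add_right_eq_self (fun α => g α * Real.cos (2 * Real.pi * (α + -θ) * u)) θ]
    simp_rw [add_neg_cancel_right]
  have i1 : Integrable (fun α => g (α - θ) * Real.cos (2 * Real.pi * α * u)) :=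
    (hg.comp_sub_right θ).mul_bdd (c := 1) (by fun_prop) (Eventually.of_forall fun α => by
      rw [Real.norm_eq_abs]; exact Real.abs_cos_le_one _)
  have i2 : Integrable (fun α => g (α + θ) * Real.cos (2 * Real.pi * α * u)) :=
    (hg.comp_add_right θ).mul_bdd (c := 1) (by fun_prop) (Eventually.of_forall fun α => by
      rw [Real.norm_eq_abs]; exact Real.abs_cos_le_one _)
  unfold bl sym
  have e1 : ∀ α : ℝ, 1 / 2 * (g (α - θ) + g (α + θ)) * Real.cos (2 * Real.pi * α * u) =
      1 / 2 * (g (α - θ) * Real.cos (2 * Real.pi * α * u) +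
        g (α + θ) * Real.cos (2 * Real.pi * α * u)) := fun α => by ring
  simp_rw [e1]
  rw [integral_const_mul, integral_add i1 i2, h1, h2, ← integral_add (hc θ) (hc (-θ)),
    ← integral_const_mul, ← integral_const_mul]
  congr 1
  funext α
  have e2 : 2 * Real.pi * (α + θ) * u = 2 * Real.pi * α * u + 2 * Real.pi * θ * u := by ring
  have e3 : 2 * Real.pi * (α + -θ) * u = 2 * Real.pi * α * u - 2 * Real.pi * θ * u := by ring
  rw [e2, e3, Real.cos_add, Real.cos_sub]
  ring

lemma sym_NTf {L ε θ : ℝ} (hε : 0 < ε) (h1 : |θ| + ε < 1) :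
    NTf (sym (qq L ε) θ) ((|θ| + ε + 1) / 2) (bl (sym (qq L ε) θ)) := by
  have hK := sym_TK (L := L) (θ := θ) hε
  have hθ := abs_nonneg θ
  have he : ∀ x, r (sym (qq L ε) θ) x = bl (sym (qq L ε) θ) x := by
    intro x
    rw [← ct_eq_r (fun x hx => hK.supp x (by linarith))]
    unfold ct bl
    congr 1
    funext α
    congr 2
    ring
  obtain ⟨⟨A, hA, hd⟩, hs⟩ := bl_smooth hK.smooth hK.hcs
  refine ⟨⟨hK.cont, hK.even, fun α hα => hK.supp α (by linarith), A, fun x => ?_⟩, by linarith,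
    by linarith, he, fun x => ?_, hs⟩
  · rw [he]
    exact hd x
  · unfold bl
    congr 1
    funext α
    rw [mul_neg, Real.cos_neg]

/-- mass of the kernel -/
lemma qq_mass {L : ℝ} (hL : 0 < L) {ε : ℝ} (hε : 0 < ε) :
    |(∫ x, qq L ε x) - L| ≤ (1 + 4 / ε ^ 2) * Real.pi := by
  have h1 := bl_GG hL 0
  unfold bl at h1
  simp only [mul_zero, Real.cos_zero, mul_one, abs_zero, sub_zero, max_eq_right hL.le] at h1
  have i1 := GG_int hL
  have i2 := qq_int L hε
  have i3 : Integrable (fun x : ℝ => (1 + 4 / ε ^ 2) * (1 / (1 + x ^ 2))) := by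
    simp_rw [one_div]
    exact integrable_inv_one_add_sq.const_mul _
  have h2 : ∫ x, qq L ε x ≤ ∫ x, GG L x := integral_mono i2 i1 (qq_le L ε)
  have h3 : ∫ x, GG L x ≤ ∫ x, (qq L ε x + (1 + 4 / ε ^ 2) * (1 / (1 + x ^ 2))) :=
    integral_mono i1 (i2.add i3) (GG_qq L hε)
  rw [integral_add i2 i3, integral_const_mul] at h3
  simp_rw [one_div] at h3
  rw [integral_univ_inv_one_add_sq] at h3
  rw [abs_le]
  constructor
  · linarith
  · have : 0 ≤ (1 + 4 / ε ^ 2) * Real.pi := by
      have := Real.pi_pos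
      positivity
    linarith

/-- the main term -/
lemma sym_mont {L ε θ : ℝ} (hε : 0 < ε) (h0 : ε ≤ θ) (h1 : θ + ε ≤ 1) :
    mont (sym (qq L ε) θ) = θ * ∫ x, qq L ε x := by
  have hθ : 0 < θ := by linarith
  have hc := (qq_smooth L ε).continuous
  unfold mont
  have e0 : sym (qq L ε) θ 0 = 0 := by
    unfold sym
    rw [qq_out hε (by rw [zero_sub, abs_neg, abs_of_pos hθ]; exact h0),
      qq_out hε (by rw [zero_add, abs_of_pos hθ]; exact h0)]
    ring
  rw [e0, zero_add]
  have e1 : ∀ α ∈ Set.uIcc (0:ℝ) 1, α * sym (qq L ε) θ α = 1 / 2 * (α * qq L ε (α - θ)) := by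
    intro α hα
    rw [Set.uIcc_of_le zero_le_one] at hα
    unfold sym
    rw [qq_out (x := α + θ) hε (by rw [abs_of_nonneg (by linarith [hα.1])]; linarith [hα.1])]
    ring
  rw [intervalIntegral.integral_congr e1, intervalIntegral.integral_const_mul,
    intervalIntegral.integral_of_le zero_le_one]
  have e2 : ∫ α in Ioc (0:ℝ) 1, α * qq L ε (α - θ) = ∫ α, α * qq L ε (α - θ) := by
    refine setIntegral_eq_integral_of_forall_compl_eq_zero fun α hα => ?_
    rw [qq_out hε, mul_zero]
    by_contra h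
    push Not at h
    obtain ⟨h2, h3⟩ := abs_lt.1 h
    exact hα ⟨by linarith, by linarith⟩
  rw [e2]
  have e3 : ∫ α, α * qq L ε (α - θ) = ∫ α, (α + θ) * qq L ε α := by
    rw [← integral_sub_right_eq_self (fun α => (α + θ) * qq L ε α) θ]
    simp_rw [sub_add_cancel]
  rw [e3]
  have i2 := qq_int L hε
  have i4 : Integrable (fun α => α * qq L ε α) :=
    (continuous_id.mul hc).integrable_of_hasCompactSupport (qq_compact L hε).mul_left
  have e4 : ∀ α, (α + θ) * qq L ε α = α * qq L ε α + θ * qq L ε α := fun α => by ring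
  simp_rw [e4]
  rw [integral_add i4 (i2.const_mul θ), integral_const_mul]
  have e5 : ∫ α, α * qq L ε α = 0 := by
    have h2 := integral_neg_eq_self (fun α => α * qq L ε α) volume
    simp_rw [qq_even] at h2
    have h3 : ∫ α, -α * qq L ε α = -∫ α, α * qq L ε α := by
      rw [← integral_neg]
      congr 1
      funext α
      ring
    rw [h3] at h2
    linarith
  rw [e5]
  ring

end Q172.Diff
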