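import Pool.Agent.Q172.Diff.Z2

/-! The mean squares of the window sums of `e(θ γ)`. -/

set_option autoImplicit false

open Filter Topology Set MeasureTheory
open scoped ContDiff

namespace Q172.Diff

open SG (ord NZ)
open H177.Lat (yy KK KK_sq ee ee_norm ee_add ee_re ee_conj)
open Pool.Agent.Q276.UR (KK_even)
open Pool.Agent.Q276.LR (TS cauchy_sum)
open Pool.Agent.Y744 (Xf Xf_pos TK ct Q2 NTf mont_lim ct_eq_r)
open Pool.Agent.Y750.OM (bl)
open Pool.Agent.Results.MP_103a5c_nt.BohrSetPairs (TestFn mont r)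
open Pool.Agent.Q276.NV (GG GG_smooth GG_nonneg GG_sq GG_int bl_GG ch ch_smooth ch_nonneg ch_le_one
  ch_one ch_zero int_TS bl_smooth Q2_conv exp_sum end_count logpow_lim)

lemma shift_cauchy {a α : ℝ} (ha : |a| ≤ 1) : 1 / (1 + (α + a) ^ 2) ≤ 3 * (1 / (1 + α ^ 2)) := by
  rw [mul_one_div, div_le_div_iff₀ (by positivity) (by positivity)]
  have h1 : a ^ 2 ≤ 1 := by
    rw [← sq_abs]
    exact pow_le_one₀ (abs_nonneg _) ha
  nlinarith [sq_nonneg (α + 2 * a)]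

lemma sym_int {g : ℝ → ℝ} (hg : Integrable g) (θ : ℝ) : Integrable (sym g θ) := by
  unfold sym
  exact ((hg.comp_sub_right θ).add (hg.comp_add_right θ)).const_mul _

/-- the triangle sum at the frequency `θ` -/
noncomputable def TTθ (θ T L : ℝ) : ℝ := ∑ n ∈ Finset.Ioc 0 (NZ T), ∑ m ∈ Finset.Ioc 0 (NZ T),
  Real.cos (2 * Real.pi * θ * (yy T n - yy T m)) * max 0 (L - |yy T n - yy T m|)

theorem split_θ {L ε θ : ℝ} (hL : 0 < L) (hε : 0 < ε) (hθ : |θ| ≤ 1) (I : Finset ℕ) (y : ℕ → ℝ) :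
    |∑ n ∈ I, ∑ m ∈ I, Real.cos (2 * Real.pi * θ * (y n - y m)) * max 0 (L - |y n - y m|) -
      ∑ n ∈ I, ∑ m ∈ I, bl (sym (qq L ε) θ) (y n - y m)| ≤
      3 * (1 + 4 / ε ^ 2) *
        (Real.pi * ∑ n ∈ I, ∑ m ∈ I, Real.exp (-(2 * Real.pi) * |y n - y m|)) := by
  obtain ⟨i1, e1⟩ := int_TS (sym_int (GG_int hL) θ) I y
  obtain ⟨i2, e2⟩ := int_TS (sym_int (qq_int L hε) θ) I y
  obtain ⟨i3, e3⟩ := cauchy_sum I y
  have e1' : ∑ n ∈ I, ∑ m ∈ I, bl (sym (GG L) θ) (y n - y m) = ∑ n ∈ I, ∑ m ∈ I,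
      Real.cos (2 * Real.pi * θ * (y n - y m)) * max 0 (L - |y n - y m|) := by
    refine Finset.sum_congr rfl fun n _ => Finset.sum_congr rfl fun m _ => ?_
    rw [bl_sym (GG_int hL), bl_GG hL]
  rw [← e1', ← e1, ← e2, ← integral_sub i1 i2]
  set K := 1 + 4 / ε ^ 2 with hK
  have hK0 : 0 ≤ K := by positivity
  have hdiff : ∀ α, 0 ≤ sym (GG L) θ α - sym (qq L ε) θ α ∧
      sym (GG L) θ α - sym (qq L ε) θ α ≤ 3 * K * (1 / (1 + α ^ 2)) := by
    intro α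
    unfold sym
    have a1 := qq_le L ε (α - θ)
    have a2 := qq_le L ε (α + θ)
    have a3 := GG_qq L hε (α - θ)
    have a4 := GG_qq L hε (α + θ)
    have a5 := shift_cauchy (a := -θ) (α := α) (by rwa [abs_neg])
    have a6 := shift_cauchy (a := θ) (α := α) hθ
    rw [← sub_eq_add_neg] at a5
    have a7 := mul_le_mul_of_nonneg_left a5 hK0
    have a8 := mul_le_mul_of_nonneg_left a6 hK0
    constructor
    · linarith
    · linarith
  have hn : ∀ α, 0 ≤ ‖TS I y α‖ ^ 2 := fun α => by positivity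
  have h0 : 0 ≤ ∫ α, (sym (GG L) θ α * ‖TS I y α‖ ^ 2 - sym (qq L ε) θ α * ‖TS I y α‖ ^ 2) := by
    refine integral_nonneg fun α => ?_
    have := mul_nonneg (hdiff α).1 (hn α)
    show 0 ≤ sym (GG L) θ α * ‖TS I y α‖ ^ 2 - sym (qq L ε) θ α * ‖TS I y α‖ ^ 2
    linarith
  rw [abs_of_nonneg h0]
  have h1 : ∫ α, (sym (GG L) θ α * ‖TS I y α‖ ^ 2 - sym (qq L ε) θ α * ‖TS I y α‖ ^ 2) ≤
      ∫ α, 3 * K * (1 / (1 + α ^ 2) * ‖TS I y α‖ ^ 2) := by
    apply integral_mono (i1.sub i2) (i3.const_mul _)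
    intro α
    have := mul_le_mul_of_nonneg_right (hdiff α).2 (hn α)
    show sym (GG L) θ α * ‖TS I y α‖ ^ 2 - sym (qq L ε) θ α * ‖TS I y α‖ ^ 2 ≤
      3 * K * (1 / (1 + α ^ 2) * ‖TS I y α‖ ^ 2)
    linarith
  rw [integral_const_mul] at h1
  exact h1.trans (mul_le_mul_of_nonneg_left e3 (by positivity))

theorem TTθ_lim (RH : RiemannHypothesis) {θ : ℝ} (h0 : 0 < θ) (h1 : θ < 1) :
    ∃ C : ℝ, 0 ≤ C ∧ ∀ L : ℝ, 1 ≤ L → ∀ᶠ T : ℝ in atTop, |TTθ θ T L / Xf T - θ * L| ≤ C := by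
  obtain ⟨C, T0, hC, hT0, hexp⟩ := exp_sum
  have hpi := Real.pi_pos
  set ε : ℝ := min θ (1 - θ) / 2 with hε
  have hε0 : 0 < ε := by
    have : 0 < min θ (1 - θ) := lt_min h0 (by linarith)
    linarith
  have hε1 : ε ≤ θ := by
    have := min_le_left θ (1 - θ)
    linarith
  have hε2 : θ + ε < 1 := by
    have := min_le_right θ (1 - θ)
    linarith
  have hθa : |θ| = θ := abs_of_pos h0
  set K := 1 + 4 / ε ^ 2 with hK
  have hK0 : 0 < K := by positivity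
  refine ⟨3 * K * (Real.pi * C) + K * Real.pi + 1, by positivity, fun L hL => ?_⟩
  have hL0 : 0 < L := by linarith
  have hlim := (Metric.tendsto_nhds.1 (mont_lim RH (sym_NTf (L := L) (θ := θ) hε0
    (by rw [hθa]; exact hε2)))) 1 one_pos
  filter_upwards [hlim, eventually_ge_atTop T0] with T a1 hT
  have hX := Xf_pos (V := T) (by linarith)
  rw [Q2_conv, Real.dist_eq, sym_mont hε0 hε1 hε2.le] at a1
  have a2 := split_θ (L := L) (ε := ε) (θ := θ) hL0 hε0 (by rw [hθa]; exact h1.le)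
    (Finset.Ioc 0 (NZ T)) (yy T)
  have a3 := hexp T hT
  have a4 := qq_mass hL0 hε0
  rw [← hK] at a2 a4
  set S := ∑ n ∈ Finset.Ioc 0 (NZ T), ∑ m ∈ Finset.Ioc 0 (NZ T), bl (sym (qq L ε) θ) (yy T n - yy T m)
    with hS
  have b1 : |TTθ θ T L / Xf T - S / Xf T| ≤ 3 * K * (Real.pi * C) := by
    rw [← sub_div, abs_div, abs_of_pos hX, div_le_iff₀ hX]
    refine a2.trans ?_
    have := mul_le_mul_of_nonneg_left (mul_le_mul_of_nonneg_left a3 hpi.le)
      (by positivity : 0 ≤ 3 * K)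
    linarith
  have b2 : |θ * (∫ x, qq L ε x) - θ * L| ≤ K * Real.pi := by
    rw [← mul_sub, abs_mul, hθa]
    calc θ * |(∫ x, qq L ε x) - L| ≤ 1 * (K * Real.pi) :=
          mul_le_mul h1.le a4 (abs_nonneg _) zero_le_one
      _ = _ := one_mul _
  have e : TTθ θ T L / Xf T - θ * L = (TTθ θ T L / Xf T - S / Xf T) +
      (S / Xf T - θ * ∫ x, qq L ε x) + (θ * (∫ x, qq L ε x) - θ * L) := by ring
  rw [e]
  have c1 := abs_add_le ((TTθ θ T L / Xf T - S / Xf T) + (S / Xf T - θ * ∫ x, qq L ε x))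
    (θ * (∫ x, qq L ε x) - θ * L)
  have c2 := abs_add_le (TTθ θ T L / Xf T - S / Xf T) (S / Xf T - θ * ∫ x, qq L ε x)
  linarith

/-- the weights -/
noncomputable def zw (θ T : ℝ) (j : ℕ) : ℂ := ee (θ * yy T j)

lemma zw_norm (θ T : ℝ) (j : ℕ) : ‖zw θ T j‖ ≤ 1 := (ee_norm _).le

lemma zw_re (θ T : ℝ) (i j : ℕ) : (zw θ T i * (starRingEnd ℂ) (zw θ T j)).re =
    Real.cos (2 * Real.pi * θ * (yy T i - yy T j)) := by
  unfold zw
  rw [ee_conj, ← ee_add, ee_re]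
  congr 1
  ring

/-- position windows -/
theorem pos_lim (RH : RiemannHypothesis) {θ : ℝ} (h0 : 0 < θ) (h1 : θ < 1) :
    ∃ C : ℝ, 0 ≤ C ∧ ∀ L : ℝ, 1 ≤ L → ∀ᶠ T : ℝ in atTop,
      |1 / Xf T * (∫ t in (0:ℝ)..(Xf T), ‖Uw (nT T) (zw θ T) L t‖ ^ 2) - θ * L| ≤ C := by
  obtain ⟨C, hC, h⟩ := TTθ_lim RH h0 h1
  obtain ⟨C1, T1, hC1, hT1, hend⟩ := end_count
  refine ⟨C + 1, by positivity, fun L hL => ?_⟩
  have hpi := Real.pi_gt_three
  have hpi2 := Real.pi_lt_d2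
  have hL0 : 0 < L := by linarith
  have ev1 : ∀ᶠ T : ℝ in atTop, L * (C1 * Real.log T ^ 2) ^ 2 ≤ Xf T := by
    have h1 := logpow_lim (L * C1 ^ 2) 4
    have h2 := (Metric.tendsto_nhds.1 h1) 1 one_pos
    filter_upwards [h2, eventually_gt_atTop (Real.exp 7)] with T a1 a3
    have hT0 : 0 < T := (Real.exp_pos _).trans a3
    have hlog : 7 < Real.log T := (Real.lt_log_iff_exp_lt hT0).2 a3
    rw [Real.dist_eq, sub_zero] at a1
    have a4 := (abs_lt.1 a1).2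
    rw [mul_div_assoc', div_lt_iff₀ hT0] at a4
    have a5 : T ≤ Xf T := by
      unfold Xf
      rw [le_div_iff₀ (by positivity)]
      exact mul_le_mul_of_nonneg_left (by linarith) hT0.le
    calc L * (C1 * Real.log T ^ 2) ^ 2 = L * C1 ^ 2 * Real.log T ^ 4 := by ring
      _ ≤ 1 * T := a4.le
      _ ≤ Xf T := by linarith
  have ev2 : ∀ᶠ T : ℝ in atTop, 7 * L ≤ Real.log T := Real.tendsto_log_atTop.eventually_ge_atTop _
  have ev3 : ∀ᶠ T : ℝ in atTop, 7 * L < ord 1 * Real.log T :=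
    (Real.tendsto_log_atTop.const_mul_atTop (SG.ord_pos le_rfl)).eventually_gt_atTop _
  have ev4 : ∀ᶠ T : ℝ in atTop, L ≤ Xf T := Xf_tendsto.eventually_ge_atTop _
  filter_upwards [h L hL, ev1, ev2, ev3, ev4, eventually_ge_atTop (max T1 20)]
    with T a1 a2 a3 a4 a5 a6
  have hT1' : T1 ≤ T := (le_max_left _ _).trans a6
  have hT20 : 20 ≤ T := (le_max_right _ _).trans a6
  have hlog : 0 < Real.log T := Real.log_pos (by linarith)
  have hX := Xf_pos (V := T) (by linarith)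
  have F := flowT (T := T) (by linarith)
  have hx1 : L < yy T 1 := by
    unfold yy
    rw [lt_div_iff₀ (by positivity)]
    have h1 : L * (2 * Real.pi) ≤ L * 7 := mul_le_mul_of_nonneg_left (by linarith) hL0.le
    linarith
  have key := F.win_sq (zw_norm θ T) (L := L) (X := Xf T) hL0.le a5 hx1
  have hnX : nT T (Xf T) = NZ T := by
    unfold nT Xf
    congr 1
    field_simp
  have hst : 2 * Real.pi / Real.log T * L ≤ 1 := by
    rw [div_mul_eq_mul_div, div_le_one hlog]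
    have h1 : (2 * Real.pi) * L ≤ 7 * L := mul_le_mul_of_nonneg_right (by linarith) hL0.le
    linarith
  have hst0 : 0 ≤ 2 * Real.pi / Real.log T * L := by positivity
  have hTX : 2 * Real.pi / Real.log T * Xf T = T := by
    unfold Xf
    field_simp
  have b1 : (nT T (Xf T + L) : ℝ) ≤ NZ (T + 1) := by
    unfold nT
    have : 2 * Real.pi / Real.log T * (Xf T + L) ≤ T + 1 := by
      rw [mul_add, hTX]; linarith
    exact_mod_cast SG.NZ_mono this
  have b2 : (NZ (T - 2) : ℝ) ≤ nT T (Xf T - L) := by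
    unfold nT
    have : T - 2 ≤ 2 * Real.pi / Real.log T * (Xf T - L) := by
      rw [mul_sub, hTX]; linarith
    exact_mod_cast SG.NZ_mono this
  have b3 : (0:ℝ) ≤ (nT T (Xf T + L) : ℝ) - nT T (Xf T - L) := by
    have : nT T (Xf T - L) ≤ nT T (Xf T + L) := F.mono_n (by linarith)
    have : (nT T (Xf T - L) : ℝ) ≤ nT T (Xf T + L) := by exact_mod_cast this
    linarith
  have b4 : (nT T (Xf T + L) : ℝ) - nT T (Xf T - L) ≤ C1 * Real.log T ^ 2 := by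
    have := hend T hT1'
    linarith
  have b5 : L * ((nT T (Xf T + L) : ℝ) - nT T (Xf T - L)) ^ 2 ≤ Xf T :=
    (mul_le_mul_of_nonneg_left (pow_le_pow_left₀ b3 b4 2) hL0.le).trans a2
  rw [hnX] at key
  have e1 : ∑ i ∈ Finset.Ioc 0 (NZ T), ∑ j ∈ Finset.Ioc 0 (NZ T),
      (zw θ T i * (starRingEnd ℂ) (zw θ T j)).re * max 0 (L - |yy T i - yy T j|) = TTθ θ T L := by
    unfold TTθ
    exact Finset.sum_congr rfl fun i _ => Finset.sum_congr rfl fun j _ => by rw [zw_re]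
  rw [e1] at key
  have e2 : 1 / Xf T * (∫ t in (0:ℝ)..(Xf T), ‖Uw (nT T) (zw θ T) L t‖ ^ 2) - θ * L =
      ((∫ t in (0:ℝ)..(Xf T), ‖Uw (nT T) (zw θ T) L t‖ ^ 2) - TTθ θ T L) / Xf T +
      (TTθ θ T L / Xf T - θ * L) := by
    rw [sub_div]; ring
  rw [e2]
  refine (abs_add_le _ _).trans ?_
  rw [abs_div, abs_of_pos hX]
  have e3 : |(∫ t in (0:ℝ)..(Xf T), ‖Uw (nT T) (zw θ T) L t‖ ^ 2) - TTθ θ T L| / Xf T ≤ 1 := by
    rw [div_le_one hX]
    linarith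
  linarith

/-- **index windows: the diffusion constant** -/
theorem idx_lim (RH : RiemannHypothesis) {θ : ℝ} (h0 : 0 < θ) (h1 : θ < 1) :
    ∃ C : ℝ, 0 ≤ C ∧ ∀ L : ℕ, 1 ≤ L → ∀ᶠ T : ℝ in atTop,
      |√(1 / NZ T * ∑ m ∈ Finset.Icc 1 (NZ T), ‖Wz (zw θ T) L m‖ ^ 2) - √(θ * L)| ≤
        C * (1 + Real.log L) := by
  obtain ⟨C, hC, h⟩ := pos_lim RH h0 h1
  obtain ⟨C', hC', h'⟩ := idx_pos_zeta
  refine ⟨C' + C / √θ, by positivity, fun L hL => ?_⟩
  have hL1 : (1:ℝ) ≤ L := by exact_mod_cast hL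
  have hlL : 0 ≤ Real.log L := Real.log_nonneg hL1
  filter_upwards [h L hL1, h' L hL, eventually_gt_atTop 1] with T a1 a2 hT
  have hX := Xf_pos hT
  have b1 := a2 (zw θ T) (zw_norm θ T)
  set P := 1 / Xf T * (∫ t in (0:ℝ)..(Xf T), ‖Uw (nT T) (zw θ T) L t‖ ^ 2) with hP
  have hP0 : 0 ≤ P := mul_nonneg (by positivity)
    (intervalIntegral.integral_nonneg hX.le fun t _ => sq_nonneg _)
  have hs : 0 < √θ := Real.sqrt_pos.2 h0
  have hθL : 0 < θ * L := by positivity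
  have b2 : |√P - √(θ * L)| ≤ C / √θ := by
    have s1 : √θ ≤ √(θ * L) := Real.sqrt_le_sqrt (le_mul_of_one_le_right h0.le hL1)
    rw [le_div_iff₀ hs]
    have s2 : |√P - √(θ * L)| * (√P + √(θ * L)) = |P - θ * L| := by
      rw [← abs_of_nonneg (by positivity : 0 ≤ √P + √(θ * L)), ← abs_mul]
      congr 1
      have q1 := Real.mul_self_sqrt hP0
      have q2 := Real.mul_self_sqrt hθL.le
      linear_combination q1 - q2
    have s3 : |√P - √(θ * L)| * √θ ≤ |√P - √(θ * L)| * (√P + √(θ * L)) :=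
      mul_le_mul_of_nonneg_left (by linarith [Real.sqrt_nonneg P]) (abs_nonneg _)
    linarith
  have b3 : C / √θ ≤ C / √θ * (1 + Real.log L) := le_mul_of_one_le_right (by positivity) (by linarith)
  have b4 := abs_sub_le (√(1 / NZ T * ∑ m ∈ Finset.Icc 1 (NZ T), ‖Wz (zw θ T) L m‖ ^ 2)) (√P)
    (√(θ * L))
  rw [abs_sub_comm (√(1 / NZ T * ∑ m ∈ Finset.Icc 1 (NZ T), ‖Wz (zw θ T) L m‖ ^ 2)) (√P)] at b4
  linarith

end Q172.Diff
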